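import Mathlib
import Pool.Agent.Shared.PolyTime.GraphEnc

set_option autoImplicit false

namespace Pool.Agent.Lib.MP_959b39_lc

open Pool.Agent.Shared.PolyTime

/-- An instance of Clique: a graph on `Fin n` and the parameter `k`. -/
structure CliqueInst where
  size : ℕ
  graph : SimpleGraph (Fin size)
  param : ℕ

/-- The graph has a clique with `k` vertices. -/
def CliqueInst.HasClique (x : CliqueInst) : Prop := ∃ S : Finset (Fin x.size), x.graph.IsNClique x.param S

/-- Binary encoding of a Clique instance. -/
noncomputable def CliqueInst.bits (x : CliqueInst) : List Bool :=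
  encPair (encNat x.size) (encPair (encNat x.param) (encGraph x.graph))

/-- An instance of Dual Separator for Two Terminals: edge-disjoint blue and red graphs on
`Fin n`, distinct terminals, and the parameter `k`. -/
structure DualInst where
  n : ℕ
  blue : SimpleGraph (Fin n)
  red : SimpleGraph (Fin n)
  disj : Disjoint blue red
  s : Fin n
  t : Fin n
  ne : s ≠ t
  k : ℕ

/-- There is a dual `(s,t)`-separator with at most `k` vertices. -/
def DualInst.HasSep (y : DualInst) : Prop :=
  ∃ S : Finset (Fin y.n), S.card ≤ y.k ∧ ∃ (hs : y.s ∉ S) (ht : y.t ∉ S),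
    ¬ (y.blue.induce {v | v ∉ S}).Reachable ⟨y.s, hs⟩ ⟨y.t, ht⟩ ∧
    ¬ (y.red.induce {v | v ∉ S}).Reachable ⟨y.s, hs⟩ ⟨y.t, ht⟩

/-- Binary encoding of a Dual Separator instance. -/
noncomputable def DualInst.code (y : DualInst) : List Bool :=
  encPair (encNat y.n) (encPair (encNat y.k) (encPair (encNat y.s) (encPair (encNat y.t)
    (encPair (encGraph y.blue) (encGraph y.red)))))

end Pool.Agent.Lib.MP_959b39_lc
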