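import Mathlib
import Pool.Agent.Shared.PolyTime.GraphEnc

set_option autoImplicit false

namespace Pool.Agent.Lib.MP_959b39_lc

open Pool.Agent.Shared.PolyTime

/-- An instance of Dual Separator: edge-disjoint blue and red graphs on `Fin n` and the
parameter `k`. -/
structure SepInst where
  n : ℕ
  blue : SimpleGraph (Fin n)
  red : SimpleGraph (Fin n)
  disj : Disjoint blue red
  k : ℕ

/-- There is a dual separator with at most `k` vertices: after its deletion both the blue and the
red graph have at least two connected components. -/
def SepInst.HasSep (y : SepInst) : Prop :=
  ∃ S : Finset (Fin y.n), S.card ≤ y.k ∧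
    Nontrivial (y.blue.induce {v | v ∉ S}).ConnectedComponent ∧
    Nontrivial (y.red.induce {v | v ∉ S}).ConnectedComponent

/-- Binary encoding of a Dual Separator instance. -/
noncomputable def SepInst.code (y : SepInst) : List Bool :=
  encPair (encNat y.n) (encPair (encNat y.k) (encPair (encGraph y.blue) (encGraph y.red)))

end Pool.Agent.Lib.MP_959b39_lc
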