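import Pool.Agent.Lib.MP_959b39_lc.FMath
import Pool.Agent.Lib.MP_959b39_lc.FDefs
import Pool.Agent.Shared.Matching.Main
import Pool.Agent.Shared.PolyTime.Graph

/-!
The fixed-parameter algorithm for Dual Separator: definition, cost and correctness.
-/

set_option autoImplicit false

noncomputable section

namespace Pool.Agent.Lib.MP_959b39_lc.Fpt

open Pool.Agent.Shared.PolyTime Pool.Agent.Shared.Matching Enc Function

/-- Adjacency tables. -/
abbrev Tb : Type := List (List Bool)

/-- A polynomial-time maximum weight matching algorithm. -/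
def mw : List (List ℕ) → List ℕ := Classical.choose exists_maxWeightMatching

/-- The vertices with a property. -/
def sel (n : ℕ) (p : ℕ → Bool) : List ℕ := (List.range n).filter fun v => p v

/-- Union. -/
def uni (n : ℕ) (A B : List ℕ) : List ℕ := sel n fun v => A.contains v || B.contains v

/-- Difference. -/
def dif (n : ℕ) (A B : List ℕ) : List ℕ := sel n fun v => A.contains v && !B.contains v

/-- Neighbourhood. -/
def nb (n : ℕ) (M : Tb) (D : List ℕ) : List ℕ :=
  sel n fun v => !D.contains v && D.any fun u => entry M u v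

/-- Edges of the auxiliary bipartite graph. -/
def okb (n : ℕ) (M : Tb) (L R : List ℕ) (i j : ℕ) : Bool :=
  Nat.blt i n && L.contains i && Nat.ble n j && Nat.blt j (n + n) && R.contains (j - n) &&
    (i == j - n || entry M i (j - n))

/-- Weights of the auxiliary bipartite graph. -/
def wm (n : ℕ) (M : Tb) (L R : List ℕ) : List (List ℕ) :=
  (List.range (n + n)).map fun i => (List.range (n + n)).map fun j =>
    cond (okb n M L R i j || okb n M L R j i) 1 0

/-- Its matching number. -/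
def nu (n : ℕ) (M : Tb) (L R : List ℕ) : ℕ :=
  (List.range (n + n)).countP fun i => okb n M L R i ((mw (wm n M L R)).getD i i)

/-- The least minimiser. -/
def em (n : ℕ) (M : Tb) (P L K : List ℕ) : List ℕ :=
  sel n fun v => P.contains v || ((dif n L P).contains v && Nat.ble
    (nu n M (dif n L P) (dif n (dif n (List.range n) K) (uni n P (nb n M P))))
    (nu n M (dif n (dif n L P) [v]) (dif n (dif n (List.range n) K) (uni n P (nb n M P)))))

/-- Branching on a vertex of the list `C`. -/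
def ebr (n : ℕ) (M : Tb) (C : List ℕ) (s : (List ℕ × List ℕ) × List Bool) :
    (List ℕ × List ℕ) × List Bool :=
  (cond C.isEmpty s.1 (cond (s.2.headD false)
    (dif n s.1.1 [C.headD 0], uni n [C.headD 0] s.1.2)
    (dif n s.1.1 (uni n [C.headD 0] (nb n M [C.headD 0])), s.1.2)), s.2.tail)

/-- One step of the enumeration of tight sets. -/
def estep (n : ℕ) (M : Tb) (P : List ℕ) (s : (List ℕ × List ℕ) × List Bool) :
    (List ℕ × List ℕ) × List Bool :=
  ebr n M (dif n (nb n M (em n M P s.1.1 s.1.2)) s.1.2) s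

/-- All steps of the enumeration. -/
def eall (n k : ℕ) (M : Tb) (b : ℕ) (P K : List ℕ) (x : List Bool) :
    (List ℕ × List ℕ) × List Bool :=
  (estep n M P)^[2 * k] ((dif n (dif n (List.range n) K) [b], uni n K []), x)

/-- The guessed tight set. -/
def enu (n k : ℕ) (M : Tb) (b : ℕ) (P K : List ℕ) (x : List Bool) :
    List ℕ × List Bool :=
  (em n M P (eall n k M b P K x).1.1 (eall n k M b P K x).1.2, (eall n k M b P K x).2)

/-- A guessed subset of `C`. -/
def pick (n : ℕ) (C : List ℕ) (x : List Bool) : List ℕ :=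
  sel n fun v => (List.range C.length).any fun i => x.getD i false && C.getD i 0 == v

/-- Labelling the boundary in a closure step. -/
def cfin (n k : ℕ) (M : Tb) (K : List ℕ) (e : List ℕ × List Bool) : List ℕ × List Bool :=
  (uni n e.1 (pick n (dif n (nb n M e.1) K) e.2), e.2.drop (2 * k))

/-- A closure step. -/
def cstp (n k : ℕ) (M : Tb) (b : ℕ) (K : List ℕ) (s : List ℕ × List Bool) :
    List ℕ × List Bool := cfin n k M K (enu n k M b s.1 K s.2)

/-- A round of phase two. -/
def rnd (n k : ℕ) (M : Tb) (b : ℕ) (K : List ℕ) (s : List ℕ × List Bool) (p : ℕ) :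
    List ℕ × List Bool := (cstp n k M b K)^[3 * (7 * k + 2)] (uni n [p] s.1, s.2)

/-- Phase two. -/
def ph2 (n k : ℕ) (M : Tb) (b : ℕ) (K ps : List ℕ) (x : List Bool) :
    List ℕ × List Bool := ps.foldl (rnd n k M b K) ([], x)

/-- Labelling the candidates in phase one. -/
def lab1 (n k : ℕ) (K : List ℕ × List ℕ) (C : List ℕ) (x : List Bool) :
    (List ℕ × List ℕ) × List Bool :=
  ((uni n K.1 (pick n C x), uni n K.2 (pick n C (x.drop (2 * k)))), (x.drop (2 * k)).drop (2 * k))

/-- Second half of a step of phase one. -/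
def st1b (n k : ℕ) (M M' : Tb) (K : List ℕ × List ℕ) (E : List ℕ) (e : List ℕ × List Bool) :
    (List ℕ × List ℕ) × List Bool :=
  lab1 n k K (uni n (dif n (nb n M E) K.1) (dif n (nb n M' e.1) K.2)) e.2

/-- A step of phase one. -/
def st1 (n k : ℕ) (M M' : Tb) (b b' : ℕ) (P P' : List ℕ)
    (s : (List ℕ × List ℕ) × List Bool) : (List ℕ × List ℕ) × List Bool :=
  st1b n k M M' s.1 (enu n k M b P s.1.1 s.2).1
    (enu n k M' b' P' s.1.2 (enu n k M b P s.1.1 s.2).2)

/-- Phase one. -/
def phs1 (n k : ℕ) (M M' : Tb) (b b' : ℕ) (P P' : List ℕ) (x : List Bool) :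
    (List ℕ × List ℕ) × List Bool := (st1 n k M M' b b' P P')^[k] (([], []), x)

/-- Vertices outside `T` on both sides. -/
def wit (n : ℕ) (A T : List ℕ) : Bool :=
  ((List.range n).any fun v => A.contains v && !T.contains v) &&
    (List.range n).any fun v => !A.contains v && !T.contains v

/-- The final test. -/
def chk (n k : ℕ) (M M' : Tb) (A D : List ℕ) : Bool :=
  Nat.ble (uni n (nb n M A) (nb n M' D)).length k && wit n A (uni n (nb n M A) (nb n M' D)) &&
    wit n D (uni n (nb n M A) (nb n M' D))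

/-- The last step. -/
def lst (n k : ℕ) (M M' : Tb) (Q O A : List ℕ) : Bool :=
  chk n k M M' A (em n M' Q (dif n (dif n (List.range n) (nb n M A)) (uni n O (nb n M' O)))
    (nb n M A))

/-- The side found by both phases. -/
def side (n k : ℕ) (M M' : Tb) (b b' : ℕ) (P P' ps : List ℕ) (x : List Bool) : List ℕ :=
  (ph2 n k M b (phs1 n k M M' b b' P P' x).1.1 ps (phs1 n k M M' b b' P P' x).2).1

/-- All lists of `c` vertices. -/
def tup (n : ℕ) : ℕ → List (List ℕ)
  | 0 => [[]]
  | c + 1 => (List.range n).flatMap fun x => (tup n c).map fun t => x :: t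

/-- All guesses, for one order of the colours. -/
def run (z n k : ℕ) (M M' : Tb) (B : List (List Bool)) : Bool :=
  (List.range n).any fun b => (List.range n).any fun b' => (tup n 6).any fun P =>
    (tup n 6).any fun P' => (tup n z).any fun ps => B.any fun x => (tup n 3).any fun Q =>
      (tup n 3).any fun O => lst n k M M' Q O (side n k M M' b b' P P' ps x)

/-- One more bit. -/
def dbl (t : ℕ) (B : List (List Bool)) : List (List Bool) :=
  (B.flatMap fun l => [false :: l, true :: l]).take t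

/-- All bit strings of length `g`, when `t` is large enough. -/
def allB (t g : ℕ) : List (List Bool) := (dbl t)^[g] [[]]

/-- Number of guessed bits. -/
def gb (z k : ℕ) : ℕ := k * (8 * k) + z * (3 * (7 * k + 2) * (4 * k))

/-- The algorithm, with padding. -/
def alg (z : ℕ) (y : (ℕ × ℕ × Tb × Tb) × ℕ) : Bool :=
  run z y.1.1 y.1.2.1 y.1.2.2.1 y.1.2.2.2 (allB y.2 (gb z y.1.2.1)) ||
    run z y.1.1 y.1.2.1 y.1.2.2.2 y.1.2.2.1 (allB y.2 (gb z y.1.2.1))

/-! ### Polynomial cost -/

section pf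
variable {α : Type} [Enc α]

theorem pf_iter {β : Type} [Enc β] {k : α → ℕ} {i : α → β} {st : α → β → β} (hk : PF k)
    (hi : PF i) (hs : PF fun p : α × β => st p.1 p.2) {g : α → β} (hg : PF g)
    (I : α → β → Prop) (h0 : ∀ a, I a (i a)) (h1 : ∀ a s, I a s → I a (st a s))
    (h2 : ∀ a s, I a s → (enc s).length ≤ (enc (g a)).length) :
    PF fun a => (st a)^[k a] (i a) := by
  obtain ⟨q, hq⟩ := hg.size
  refine PF.iterate hk hi hs ⟨q, fun a j _ => (h2 a _ ?_).trans (hq a _ le_rfl)⟩
  induction j with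
  | zero => exact h0 a
  | succ j ih => rw [iterate_succ_apply']; exact h1 a _ (ih (by omega))

@[fun_prop] theorem pf_mw {W : α → List (List ℕ)} (hW : PF W) : PF fun a => mw (W a) :=
  (Classical.choose_spec exists_maxWeightMatching).1.comp hW

theorem sel_sub (n : ℕ) (p : ℕ → Bool) : (sel n p).Sublist (List.range n) := List.filter_sublist

@[fun_prop] theorem pf_uni {n : α → ℕ} {A B : α → List ℕ} (hn : PF n) (hA : PF A) (hB : PF B) :
    PF fun a => uni (n a) (A a) (B a) := by
  unfold uni sel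
  fun_prop

@[fun_prop] theorem pf_dif {n : α → ℕ} {A B : α → List ℕ} (hn : PF n) (hA : PF A) (hB : PF B) :
    PF fun a => dif (n a) (A a) (B a) := by
  unfold dif sel
  fun_prop

@[fun_prop] theorem pf_nb {n : α → ℕ} {M : α → Tb} {D : α → List ℕ} (hn : PF n) (hM : PF M)
    (hD : PF D) : PF fun a => nb (n a) (M a) (D a) := by
  unfold nb sel
  fun_prop

@[fun_prop] theorem pf_okb {n i j : α → ℕ} {M : α → Tb} {L R : α → List ℕ} (hn : PF n)
    (hM : PF M) (hL : PF L) (hR : PF R) (hi : PF i) (hj : PF j) :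
    PF fun a => okb (n a) (M a) (L a) (R a) (i a) (j a) := by
  unfold okb
  fun_prop

@[fun_prop] theorem pf_wm {n : α → ℕ} {M : α → Tb} {L R : α → List ℕ} (hn : PF n)
    (hM : PF M) (hL : PF L) (hR : PF R) : PF fun a => wm (n a) (M a) (L a) (R a) := by
  unfold wm
  fun_prop

@[fun_prop] theorem pf_nu {n : α → ℕ} {M : α → Tb} {L R : α → List ℕ} (hn : PF n)
    (hM : PF M) (hL : PF L) (hR : PF R) : PF fun a => nu (n a) (M a) (L a) (R a) := by
  unfold nu
  fun_prop

@[fun_prop] theorem pf_em {n : α → ℕ} {M : α → Tb} {P L K : α → List ℕ} (hn : PF n)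
    (hM : PF M) (hP : PF P) (hL : PF L) (hK : PF K) :
    PF fun a => em (n a) (M a) (P a) (L a) (K a) := by
  unfold em sel
  fun_prop

@[fun_prop] theorem pf_ebr {n : α → ℕ} {M : α → Tb} {C : α → List ℕ}
    {s : α → (List ℕ × List ℕ) × List Bool} (hn : PF n) (hM : PF M) (hC : PF C) (hs : PF s) :
    PF fun a => ebr (n a) (M a) (C a) (s a) := by
  unfold ebr
  fun_prop

@[fun_prop] theorem pf_estep {n : α → ℕ} {M : α → Tb} {P : α → List ℕ}
    {s : α → (List ℕ × List ℕ) × List Bool} (hn : PF n) (hM : PF M) (hP : PF P) (hs : PF s) :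
    PF fun a => estep (n a) (M a) (P a) (s a) := by
  unfold estep
  fun_prop

/-- Size invariant for two sets and a bit string. -/
def I2 (n : ℕ) (x : List Bool) (s : (List ℕ × List ℕ) × List Bool) : Prop :=
  s.1.1.Sublist (List.range n) ∧ s.1.2.Sublist (List.range n) ∧ s.2.Sublist x

theorem I2.len {n : ℕ} {x : List Bool} {s : (List ℕ × List ℕ) × List Bool} (h : I2 n x s) :
    (enc s).length ≤ (enc ((List.range n, List.range n), x)).length := by
  obtain ⟨⟨a, b⟩, c⟩ := s
  have h1 := len_le_of_sublist h.1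
  have h2 := len_le_of_sublist h.2.1
  have h3 := len_le_of_sublist h.2.2
  simp only [len_prod] at *
  omega

theorem I2.estep {n : ℕ} {M : Tb} {P : List ℕ} {x : List Bool}
    {s : (List ℕ × List ℕ) × List Bool} (h : I2 n x s) : I2 n x (estep n M P s) := by
  unfold Fpt.estep ebr
  generalize dif n (nb n M (em n M P s.1.1 s.1.2)) s.1.2 = C
  refine ⟨?_, ?_, (List.tail_sublist _).trans h.2.2⟩ <;> cases C.isEmpty <;>
    cases s.2.headD false <;> first | exact sel_sub _ _ | exact h.1 | exact h.2.1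

theorem I2.eall {n k : ℕ} {M : Tb} {b : ℕ} {P K : List ℕ} {x : List Bool} :
    I2 n x (eall n k M b P K x) := by
  unfold Fpt.eall
  induction 2 * k with
  | zero => exact ⟨sel_sub _ _, sel_sub _ _, List.Sublist.refl _⟩
  | succ j ih => rw [iterate_succ_apply']; exact ih.estep

@[fun_prop] theorem pf_eall {n k b : α → ℕ} {M : α → Tb} {P K : α → List ℕ}
    {x : α → List Bool} (hn : PF n) (hk : PF k) (hM : PF M) (hb : PF b) (hP : PF P) (hK : PF K)
    (hx : PF x) : PF fun a => eall (n a) (k a) (M a) (b a) (P a) (K a) (x a) :=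
  pf_iter (st := fun a => estep (n a) (M a) (P a)) (by fun_prop) (by fun_prop) (by fun_prop)
    (g := fun a => ((List.range (n a), List.range (n a)), x a)) (by fun_prop)
    (fun a => I2 (n a) (x a)) (fun _ => ⟨sel_sub _ _, sel_sub _ _, List.Sublist.refl _⟩)
    (fun _ _ h => h.estep) fun _ _ h => h.len

@[fun_prop] theorem pf_enu {n k b : α → ℕ} {M : α → Tb} {P K : α → List ℕ}
    {x : α → List Bool} (hn : PF n) (hk : PF k) (hM : PF M) (hb : PF b) (hP : PF P) (hK : PF K)
    (hx : PF x) : PF fun a => enu (n a) (k a) (M a) (b a) (P a) (K a) (x a) := by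
  unfold enu
  fun_prop

@[fun_prop] theorem pf_pick {n : α → ℕ} {C : α → List ℕ} {x : α → List Bool} (hn : PF n)
    (hC : PF C) (hx : PF x) : PF fun a => pick (n a) (C a) (x a) := by
  unfold pick sel
  fun_prop

@[fun_prop] theorem pf_cfin {n k : α → ℕ} {M : α → Tb} {K : α → List ℕ}
    {e : α → List ℕ × List Bool} (hn : PF n) (hk : PF k) (hM : PF M) (hK : PF K) (he : PF e) :
    PF fun a => cfin (n a) (k a) (M a) (K a) (e a) := by
  unfold cfin
  fun_prop

@[fun_prop] theorem pf_cstp {n k b : α → ℕ} {M : α → Tb} {K : α → List ℕ}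
    {s : α → List ℕ × List Bool} (hn : PF n) (hk : PF k) (hM : PF M) (hb : PF b) (hK : PF K)
    (hs : PF s) : PF fun a => cstp (n a) (k a) (M a) (b a) (K a) (s a) := by
  unfold cstp
  fun_prop

/-- Size invariant for a set and a bit string. -/
def I1 (n : ℕ) (x : List Bool) (s : List ℕ × List Bool) : Prop :=
  s.1.Sublist (List.range n) ∧ s.2.Sublist x

theorem I1.len {n : ℕ} {x : List Bool} {s : List ℕ × List Bool} (h : I1 n x s) :
    (enc s).length ≤ (enc (List.range n, x)).length := by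
  obtain ⟨a, c⟩ := s
  have h1 := len_le_of_sublist h.1
  have h3 := len_le_of_sublist h.2
  simp only [len_prod] at *
  omega

theorem I1.cstp {n k b : ℕ} {M : Tb} {K : List ℕ} {x : List Bool} {s : List ℕ × List Bool}
    (h : I1 n x s) : I1 n x (cstp n k M b K s) :=
  ⟨sel_sub _ _, (List.drop_sublist _ _).trans (I2.eall.2.2.trans h.2)⟩

theorem I1.rnd {n k b p : ℕ} {M : Tb} {K : List ℕ} {x : List Bool} {s : List ℕ × List Bool}
    (h : I1 n x s) : I1 n x (rnd n k M b K s p) := by
  unfold Fpt.rnd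
  induction 3 * (7 * k + 2) with
  | zero => exact ⟨sel_sub _ _, h.2⟩
  | succ j ih => rw [iterate_succ_apply']; exact ih.cstp

@[fun_prop] theorem pf_rnd {n k b p : α → ℕ} {M : α → Tb} {K : α → List ℕ}
    {s : α → List ℕ × List Bool} (hn : PF n) (hk : PF k) (hM : PF M) (hb : PF b) (hK : PF K)
    (hs : PF s) (hp : PF p) : PF fun a => rnd (n a) (k a) (M a) (b a) (K a) (s a) (p a) :=
  pf_iter (st := fun a => cstp (n a) (k a) (M a) (b a) (K a)) (by fun_prop) (by fun_prop)
    (by fun_prop) (g := fun a => (List.range (n a), (s a).2)) (by fun_prop)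
    (fun a => I1 (n a) (s a).2) (fun _ => ⟨sel_sub _ _, List.Sublist.refl _⟩)
    (fun _ _ h => h.cstp) fun _ _ h => h.len

@[fun_prop] theorem pf_ph2 {n k b : α → ℕ} {M : α → Tb} {K ps : α → List ℕ}
    {x : α → List Bool} (hn : PF n) (hk : PF k) (hM : PF M) (hb : PF b) (hK : PF K)
    (hp : PF ps) (hx : PF x) : PF fun a => ph2 (n a) (k a) (M a) (b a) (K a) (ps a) (x a) := by
  obtain ⟨q, hq⟩ := PF.size (f := fun a => (List.range (n a), x a)) (by fun_prop)
  refine PF.foldl (st := fun a => rnd (n a) (k a) (M a) (b a) (K a)) hp (by fun_prop)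
    (by fun_prop) ⟨q, fun a j => (I1.len ?_).trans (hq a _ le_rfl)⟩
  have : ∀ (l : List ℕ) s, I1 (n a) (x a) s →
      I1 (n a) (x a) (l.foldl (rnd (n a) (k a) (M a) (b a) (K a)) s) := fun l => by
    induction l with
    | nil => exact fun _ h => h
    | cons p l ih => exact fun s h => ih _ h.rnd
  exact this _ _ ⟨List.nil_sublist _, List.Sublist.refl _⟩

@[fun_prop] theorem pf_lab1 {n k : α → ℕ} {K : α → List ℕ × List ℕ} {C : α → List ℕ}
    {x : α → List Bool} (hn : PF n) (hk : PF k) (hK : PF K) (hC : PF C) (hx : PF x) :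
    PF fun a => lab1 (n a) (k a) (K a) (C a) (x a) := by
  unfold lab1
  fun_prop

@[fun_prop] theorem pf_st1b {n k : α → ℕ} {M M' : α → Tb} {K : α → List ℕ × List ℕ}
    {E : α → List ℕ} {e : α → List ℕ × List Bool} (hn : PF n) (hk : PF k) (hM : PF M)
    (hM' : PF M') (hK : PF K) (hE : PF E) (he : PF e) :
    PF fun a => st1b (n a) (k a) (M a) (M' a) (K a) (E a) (e a) := by
  unfold st1b
  fun_prop

@[fun_prop] theorem pf_st1 {n k b b' : α → ℕ} {M M' : α → Tb} {P P' : α → List ℕ}
    {s : α → (List ℕ × List ℕ) × List Bool} (hn : PF n) (hk : PF k) (hM : PF M) (hM' : PF M')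
    (hb : PF b) (hb' : PF b') (hP : PF P) (hP' : PF P') (hs : PF s) :
    PF fun a => st1 (n a) (k a) (M a) (M' a) (b a) (b' a) (P a) (P' a) (s a) := by
  unfold st1
  fun_prop

@[fun_prop] theorem pf_phs1 {n k b b' : α → ℕ} {M M' : α → Tb} {P P' : α → List ℕ}
    {x : α → List Bool} (hn : PF n) (hk : PF k) (hM : PF M) (hM' : PF M')
    (hb : PF b) (hb' : PF b') (hP : PF P) (hP' : PF P') (hx : PF x) :
    PF fun a => phs1 (n a) (k a) (M a) (M' a) (b a) (b' a) (P a) (P' a) (x a) :=
  pf_iter (st := fun a => st1 (n a) (k a) (M a) (M' a) (b a) (b' a) (P a) (P' a)) hk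
    (by fun_prop) (by fun_prop) (g := fun a => ((List.range (n a), List.range (n a)), x a))
    (by fun_prop) (fun a => I2 (n a) (x a))
    (fun _ => ⟨List.nil_sublist _, List.nil_sublist _, List.Sublist.refl _⟩)
    (fun _ _ h => ⟨sel_sub _ _, sel_sub _ _, (List.drop_sublist _ _).trans
      ((List.drop_sublist _ _).trans (I2.eall.2.2.trans (I2.eall.2.2.trans h.2.2)))⟩)
    fun _ _ h => h.len

@[fun_prop] theorem pf_wit {n : α → ℕ} {A T : α → List ℕ} (hn : PF n) (hA : PF A) (hT : PF T) :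
    PF fun a => wit (n a) (A a) (T a) := by
  unfold wit
  fun_prop

@[fun_prop] theorem pf_chk {n k : α → ℕ} {M M' : α → Tb} {A D : α → List ℕ} (hn : PF n)
    (hk : PF k) (hM : PF M) (hM' : PF M') (hA : PF A) (hD : PF D) :
    PF fun a => chk (n a) (k a) (M a) (M' a) (A a) (D a) := by
  unfold chk
  fun_prop

@[fun_prop] theorem pf_lst {n k : α → ℕ} {M M' : α → Tb} {Q O A : α → List ℕ}
    (hn : PF n) (hk : PF k) (hM : PF M) (hM' : PF M') (hQ : PF Q) (hO : PF O) (hA : PF A) :
    PF fun a => lst (n a) (k a) (M a) (M' a) (Q a) (O a) (A a) := by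
  unfold lst
  fun_prop

@[fun_prop] theorem pf_side {n k b b' : α → ℕ} {M M' : α → Tb}
    {P P' ps : α → List ℕ} {x : α → List Bool} (hn : PF n) (hk : PF k) (hM : PF M) (hM' : PF M')
    (hb : PF b) (hb' : PF b') (hP : PF P) (hP' : PF P') (hp : PF ps) (hx : PF x) :
    PF fun a => side (n a) (k a) (M a) (M' a) (b a) (b' a) (P a) (P' a) (ps a) (x a) := by
  unfold side
  fun_prop

@[fun_prop] theorem pf_tup (c : ℕ) {n : α → ℕ} (hn : PF n) : PF fun a => tup (n a) c := by
  refine PF.comp (f := fun m => tup m c) ?_ hn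
  induction c with
  | zero => exact PF.const _
  | succ c ih =>
    exact PF.flatMap (PF.range PF.id') (PF.map (ih.comp (PF.fst PF.id')) (by fun_prop))

@[fun_prop] theorem pf_run (z : ℕ) {n k : α → ℕ} {M M' : α → Tb}
    {B : α → List (List Bool)} (hn : PF n) (hk : PF k) (hM : PF M) (hM' : PF M') (hB : PF B) :
    PF fun a => run z (n a) (k a) (M a) (M' a) (B a) := by
  unfold run
  fun_prop

theorem allB_len (t g : ℕ) : (allB t g).length ≤ t + 1 ∧ ∀ l ∈ allB t g, l.length = g := by
  unfold allB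
  induction g with
  | zero => simp
  | succ g ih =>
    rw [iterate_succ_apply']
    refine ⟨(List.length_take_le _ _).trans (Nat.le_succ _), fun l hl => ?_⟩
    obtain ⟨m, hm, hl⟩ := List.mem_flatMap.1 (List.mem_of_mem_take hl)
    have := ih.2 m hm
    simp only [List.mem_cons, List.not_mem_nil, or_false] at hl
    rcases hl with rfl | rfl <;> simp [this]

@[fun_prop] theorem pf_allB {t g : α → ℕ} (ht : PF t) (hg : PF g) :
    PF fun a => allB (t a) (g a) := by
  obtain ⟨p, hp⟩ := ht.size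
  obtain ⟨q, hq⟩ := hg.size
  refine PF.iterate (st := fun a => dbl (t a)) hg (PF.const _) (by unfold dbl; fun_prop)
    ⟨(p + 1) * (2 * (q * 3) + 1), fun a j hj => ?_⟩
  have h1 := hp a _ le_rfl
  have h2 := hq a _ le_rfl
  rw [len_nat] at h1 h2
  have h3 := allB_len (t a) j
  refine (len_le_mul (allB (t a) j) (q.eval (enc a).length * 3) fun l hl => ?_).trans ?_
  · refine (len_le_mul l 1 fun _ _ => le_rfl).trans ?_
    rw [h3.2 l hl]
    omega
  · simp only [Polynomial.eval_mul, Polynomial.eval_add, Polynomial.eval_one,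
      Polynomial.eval_ofNat]
    exact Nat.mul_le_mul_right _ (by omega)

theorem pf_alg (z : ℕ) : PF (alg z) := by
  unfold alg gb
  fun_prop

end pf

/-! ### Lists as finite sets -/

open Finset

/-- The set of vertices in a list. -/
def toF (n : ℕ) (l : List ℕ) : Finset (Fin n) := univ.filter fun v => (v : ℕ) ∈ l

/-- The table `M` describes the relation `r`. -/
def Rep (n : ℕ) (M : Tb) (r : Fin n → Fin n → Prop) : Prop :=
  ∀ i j, entry M i j = true ↔ ∃ (hi : i < n) (hj : j < n), r ⟨i, hi⟩ ⟨j, hj⟩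

section spec
variable {n : ℕ} {M : Tb} {r : Fin n → Fin n → Prop} [DecidableRel r]

@[simp] theorem mem_toF {l : List ℕ} {v : Fin n} : v ∈ toF n l ↔ (v : ℕ) ∈ l := by simp [toF]

theorem mem_sel {p : ℕ → Bool} {x : ℕ} : x ∈ sel n p ↔ x < n ∧ p x = true := by simp [sel]

@[simp] theorem toF_uni (A B : List ℕ) : toF n (uni n A B) = toF n A ∪ toF n B := by
  ext v; simp [uni, mem_sel]

@[simp] theorem toF_dif (A B : List ℕ) : toF n (dif n A B) = toF n A \ toF n B := by
  ext v; simp [dif, mem_sel]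

@[simp] theorem toF_range : toF n (List.range n) = univ := by ext v; simp

@[simp] theorem toF_nil : toF n [] = ∅ := by ext v; simp

@[simp] theorem toF_one (v : Fin n) : toF n [v] = {v} := by ext u; simp [Fin.ext_iff]

@[simp] theorem toF_map (l : List (Fin n)) : toF n (l.map Fin.val) = l.toFinset := by
  ext u; simp [Fin.val_inj]

theorem len_sel (p : ℕ → Bool) : (sel n p).length = (toF n (sel n p)).card := by
  rw [← List.toFinset_card_of_nodup ((sel_sub n p).nodup List.nodup_range),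
    ← card_map Fin.valEmbedding]
  congr 1
  ext x
  simp only [List.mem_toFinset, mem_map, mem_toF, Fin.valEmbedding_apply]
  exact ⟨fun h => ⟨⟨x, (mem_sel.1 h).1⟩, h, rfl⟩, fun ⟨y, h, e⟩ => e ▸ h⟩

theorem toF_nb (h : Rep n M r) (D : List ℕ) : toF n (nb n M D) = N r (toF n D) := by
  ext v
  simp only [nb, mem_toF, mem_sel, mem_N, v.2, true_and, Bool.and_eq_true, Bool.not_eq_true',
    List.contains_eq_mem, decide_eq_false_iff_not, List.any_eq_true, h _ _]
  refine and_congr_right fun _ => ⟨?_, ?_⟩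
  · rintro ⟨u, hu, h1, _, h2⟩
    exact ⟨⟨u, h1⟩, hu, h2⟩
  · rintro ⟨u, hu, h1⟩
    exact ⟨u, hu, u.2, trivial, h1⟩

theorem okb_iff {L R : List ℕ} {i j : ℕ} : okb n M L R i j = true ↔
    i < n ∧ i ∈ L ∧ n ≤ j ∧ j < n + n ∧ j - n ∈ R ∧ (i = j - n ∨ entry M i (j - n) = true) := by
  simp [okb, Nat.blt_eq, and_assoc]

theorem wt_wm (L R : List ℕ) (i j : ℕ) : wt (wm n M L R) i j =
    if okb n M L R i j = true ∨ okb n M L R j i = true then 1 else 0 := by
  have e : wt (wm n M L R) i j = cond (okb n M L R i j || okb n M L R j i) 1 0 := by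
    refine Alg.tab2_getD (n + n) (fun i j => cond (okb n M L R i j || okb n M L R j i) 1 0) i j 0
      (fun h => ?_) fun h => ?_ <;>
    · have : (okb n M L R i j || okb n M L R j i) = false := by
        rw [Bool.eq_false_iff]
        simp only [ne_eq, Bool.or_eq_true, okb_iff]
        omega
      rw [this]
      rfl
  rw [e]
  cases okb n M L R i j <;> cases okb n M L R j i <;> simp

theorem mateWt_eq (L R : List ℕ) {m : ℕ → ℕ} (hm : IsMate (n + n) m) :
    mateWt (n + n) (wm n M L R) m =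
      2 * ((range (n + n)).filter fun i => okb n M L R i (m i) = true).card := by
  have e : ((range (n + n)).filter fun i => okb n M L R (m i) i = true).card =
      ((range (n + n)).filter fun i => okb n M L R i (m i) = true).card := by
    refine card_nbij' m m (fun i hi => ?_) (fun i hi => ?_) (fun i hi => ?_) fun i hi => ?_ <;>
      simp only [coe_filter, mem_range, Set.mem_ofPred_eq] at hi ⊢
    · exact ⟨(hm i hi.1).1, by rw [(hm i hi.1).2]; exact hi.2⟩
    · exact ⟨(hm i hi.1).1, by rw [(hm i hi.1).2]; exact hi.2⟩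
    · exact (hm i hi.1).2
    · exact (hm i hi.1).2
  rw [two_mul]
  nth_rewrite 2 [← e]
  rw [mateWt, card_filter, card_filter, ← sum_add_distrib]
  refine sum_congr rfl fun i _ => ?_
  rw [wt_wm]
  have h1 := @okb_iff n M L R i (m i)
  have h2 := @okb_iff n M L R (m i) i
  split_ifs <;> simp_all <;> omega

omit [DecidableRel r] in
theorem mat_of_mate (h : Rep n M r) (L R : List ℕ) {m : ℕ → ℕ} (hm : IsMate (n + n) m) :
    Mat r (toF n L) (toF n R)
      ((range (n + n)).filter fun i => okb n M L R i (m i) = true).card := by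
  refine ⟨univ.filter fun x : Fin n => okb n M L R x (m x) = true,
    fun x => if c : m x - n < n then ⟨m x - n, c⟩ else x, fun x hx => ?_, ?_, ?_, fun x hx => ?_⟩
  · exact mem_toF.2 (okb_iff.1 (mem_filter.1 hx).2).2.1
  · rw [← card_map Fin.valEmbedding]
    congr 1
    ext x
    simp only [mem_map, mem_filter, mem_univ, true_and, Fin.valEmbedding_apply, mem_range]
    exact ⟨fun ⟨y, c, e⟩ => ⟨by omega, e ▸ c⟩, fun c => ⟨⟨x, (okb_iff.1 c.2).1⟩, c.2, rfl⟩⟩
  · intro x hx y hy e
    have a := okb_iff.1 (mem_filter.1 (mem_coe.1 hx)).2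
    have b := okb_iff.1 (mem_filter.1 (mem_coe.1 hy)).2
    beta_reduce at e
    rw [dif_pos (by omega), dif_pos (by omega), Fin.mk.injEq] at e
    have c : m x = m y := by omega
    exact Fin.ext ((hm x (by omega)).2.symm.trans (c ▸ (hm y (by omega)).2))
  · have a := okb_iff.1 (mem_filter.1 hx).2
    beta_reduce
    rw [dif_pos (by omega)]
    refine ⟨mem_toF.2 a.2.2.2.2.1, a.2.2.2.2.2.imp (fun c => Fin.ext c) fun c => ?_⟩
    obtain ⟨_, _, c⟩ := (h _ _).1 c
    exact c

omit [DecidableRel r] in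
theorem mate_of_mat (h : Rep n M r) (L R : List ℕ) {c : ℕ} (hc : Mat r (toF n L) (toF n R) c) :
    ∃ m, IsMate (n + n) m ∧
      c ≤ ((range (n + n)).filter fun i => okb n M L R i (m i) = true).card := by
  classical
  obtain ⟨T, g, h1, h2, h3, h4⟩ := hc
  obtain ⟨m, hm⟩ : ∃ m : ℕ → ℕ, ∀ i, m i = if a : ∃ x ∈ T, (x : ℕ) = i then n + g a.choose else
      if b : ∃ x ∈ T, n + (g x : ℕ) = i then b.choose else i := ⟨_, fun _ => rfl⟩
  have m1 : ∀ x ∈ T, m x = n + g x := fun x hx => by
    have a : ∃ y ∈ T, (y : ℕ) = x := ⟨x, hx, rfl⟩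
    rw [hm, dif_pos a, Fin.ext a.choose_spec.2]
  have m2 : ∀ x ∈ T, m (n + g x) = x := fun x hx => by
    have b : ∃ y ∈ T, n + (g y : ℕ) = n + g x := ⟨x, hx, rfl⟩
    rw [hm, dif_neg (by rintro ⟨y, -, e⟩; omega), dif_pos b,
      h3 b.choose_spec.1 hx (Fin.ext (Nat.add_left_cancel b.choose_spec.2))]
  refine ⟨m, fun i hi => ?_, ?_⟩
  · by_cases a : ∃ x ∈ T, (x : ℕ) = i
    · obtain ⟨x, hx, rfl⟩ := a
      rw [m1 x hx, m2 x hx]
      exact ⟨by omega, rfl⟩
    by_cases b : ∃ x ∈ T, n + (g x : ℕ) = i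
    · obtain ⟨x, hx, rfl⟩ := b
      rw [m2 x hx, m1 x hx]
      exact ⟨by omega, rfl⟩
    have e : m i = i := by rw [hm, dif_neg a, dif_neg b]
    rw [e, e]
    exact ⟨hi, rfl⟩
  · rw [← h2, ← card_map Fin.valEmbedding]
    refine card_le_card fun i hi => ?_
    obtain ⟨x, hx, rfl⟩ := mem_map.1 hi
    rw [Fin.valEmbedding_apply, mem_filter, mem_range, m1 x hx, okb_iff, Nat.add_sub_cancel_left]
    exact ⟨by omega, x.2, mem_toF.1 (h1 hx), by omega, by omega, mem_toF.1 (h4 x hx).1,
      (h4 x hx).2.imp (fun c => congrArg Fin.val c) fun c => (h _ _).2 ⟨x.2, (g x).2, c⟩⟩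

theorem nu_spec (h : Rep n M r) (L R : List ℕ) : IsNu r (toF n L) (toF n R) (nu n M L R) := by
  obtain ⟨h1, h2⟩ := (Classical.choose_spec exists_maxWeightMatching).2 (wm n M L R)
    fun i j => by simp only [wt_wm, or_comm]
  have e : (wm n M L R).length = n + n := by simp [wm]
  rw [e] at h1 h2
  have e1 : nu n M L R = ((range (n + n)).filter fun i =>
      okb n M L R i ((mw (wm n M L R)).getD i i) = true).card := by
    rw [nu, List.countP_eq_length_filter, ← List.toFinset_card_of_nodup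
      (List.nodup_range.filter _), List.toFinset_filter, List.toFinset_range]
  rw [e1]
  refine isNu (mat_of_mate h L R h1) fun c hc => ?_
  obtain ⟨m, a1, a2⟩ := mate_of_mat h L R hc
  have a3 := h2 m a1
  rw [mateWt_eq L R a1, mateWt_eq L R h1] at a3
  exact a2.trans (Nat.le_of_mul_le_mul_left a3 two_pos)

theorem toF_em (h : Rep n M r) {P L K : List ℕ} (hP : toF n P ⊆ toF n L)
    (hK : Disjoint (toF n L) (toF n K)) :
    toF n (em n M P L K) = Em r (toF n P) (toF n L) (toF n K) := by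
  ext v
  have hE := Em_mn (r := r) (toF n K) hP
  simp only [em, mem_toF, mem_sel, v.2, true_and, Bool.or_eq_true, Bool.and_eq_true,
    List.contains_eq_mem, decide_eq_true_eq, Nat.ble_eq]
  rw [← mem_toF, ← mem_toF, toF_dif]
  by_cases c : v ∈ toF n L \ toF n P
  · have a1 := nu_spec h (dif n L P) (dif n (dif n (List.range n) K) (uni n P (nb n M P)))
    have a2 := nu_spec h (dif n (dif n L P) [v])
      (dif n (dif n (List.range n) K) (uni n P (nb n M P)))
    simp only [toF_dif, toF_uni, toF_range, toF_nb h, toF_one, sdiff_singleton_eq_erase] at a1 a2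
    rw [mem_Em hP hK c a1 a2]
    simp [c, (mem_sdiff.1 c).2]
  · refine ⟨fun d => hE.1 (d.resolve_right fun e => c e.1), fun d => Or.inl ?_⟩
    by_contra e
    exact c (mem_sdiff.2 ⟨hE.2.1 d, e⟩)

end spec

/-! ### Guessing -/

/-- Some string of `j` bits makes `m` return `a`. -/
def Can {τ : Type} (m : List Bool → τ × List Bool) (j : ℕ) (a : τ) : Prop :=
  ∃ c : List Bool, c.length = j ∧ ∀ y, m (c ++ y) = (a, y)

theorem can_iter {τ : Type} (st : τ × List Bool → τ × List Bool) (w J : ℕ) (I : ℕ → τ → Prop)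
    (h : ∀ i < J, ∀ s, I i s → ∃ s', I (i + 1) s' ∧ Can (fun x => st (s, x)) w s') {s : τ}
    (h0 : I 0 s) : ∀ j ≤ J, ∃ s', I j s' ∧ Can (fun x => st^[j] (s, x)) (j * w) s' := by
  intro j
  induction j with
  | zero => exact fun _ => ⟨s, h0, [], by simp, fun _ => rfl⟩
  | succ j ih =>
    intro hj
    obtain ⟨s1, a1, c1, a2, a3⟩ := ih (by omega)
    obtain ⟨s2, b1, c2, b2, b3⟩ := h j hj s1 a1
    refine ⟨s2, b1, c1 ++ c2, by rw [List.length_append, a2, b2, Nat.succ_mul], fun y => ?_⟩
    beta_reduce at a3 ⊢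
    rw [iterate_succ_apply', List.append_assoc, a3]
    exact b3 y

section guess
variable {n k : ℕ} {M M' : Tb} {r r' : Fin n → Fin n → Prop} [DecidableRel r] [DecidableRel r']

theorem pick_spec {C : List ℕ} {w : ℕ} (hC : C.length ≤ w) (T : Finset (Fin n)) :
    ∃ (c : List Bool) (U : List ℕ), c.length = w ∧ toF n U = toF n C ∩ T ∧
      ∀ y, pick n C (c ++ y) = U := by
  classical
  obtain ⟨c, hc⟩ : ∃ c, c = (List.range w).map fun i =>
    decide (C.getD i 0 ∈ T.map Fin.valEmbedding) := ⟨_, rfl⟩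
  have l : c.length = w := by simp [hc]
  have g : ∀ y, ∀ i < C.length, ((c ++ y).getD i false = true ↔
      C.getD i 0 ∈ T.map Fin.valEmbedding) := by
    intro y i hi
    rw [List.getD_append _ _ _ _ (by omega), hc, List.getD_eq_getElem _ _ (by simp; omega)]
    simp
  have e : ∀ y, pick n C (c ++ y) = sel n fun v =>
      C.contains v && decide (v ∈ T.map Fin.valEmbedding) := by
    intro y
    unfold pick
    congr 1
    funext v
    rw [Bool.eq_iff_iff]
    simp only [List.any_eq_true, List.mem_range, Bool.and_eq_true, beq_iff_eq,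
      List.contains_eq_mem, decide_eq_true_eq]
    constructor
    · rintro ⟨i, hi, a, rfl⟩
      refine ⟨?_, (g y i hi).1 a⟩
      rw [List.getD_eq_getElem _ _ hi]
      exact List.getElem_mem _
    · rintro ⟨a, b⟩
      obtain ⟨i, hi, rfl⟩ := List.getElem_of_mem a
      have := List.getD_eq_getElem C 0 hi
      exact ⟨i, hi, (g y i hi).2 (this ▸ b), this⟩
  refine ⟨c, _, l, ?_, e⟩
  ext v
  simp [mem_sel, Fin.val_inj]

theorem enu_spec (hM : Rep n M r) (hs : ∀ u v, r u v → r v u) {A : Finset (Fin n)} {b : Fin n}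
    (hA : Side r A b) (hk : (N r A).card ≤ k) {P K : List ℕ} (hP : toF n P ⊆ A)
    (hK : toF n K ⊆ N r A) :
    ∃ E, toF n E = Em r (toF n P) A (toF n K) ∧ Can (enu n k M b P K) (2 * k) E := by
  have hE := Em_mn (r := r) (toF n K) hP
  obtain ⟨s, ⟨i1, i2⟩, c, c1, c2⟩ := can_iter (estep n M P) 1 (2 * k) (fun i s =>
      EInv r (Em r (toF n P) A (toF n K)) (toF n K) b (toF n s.1) (toF n s.2) ∧
      2 * f r (toF n s.2) (Em r (toF n P) A (toF n K)) ≤ (2 * k - i) +
        f r (toF n s.2) (Em r (toF n P) (toF n s.1) (toF n s.2))) (by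
      rintro i hi ⟨L, K'⟩ ⟨i1, i2⟩
      have e : toF n (dif n (nb n M (em n M P L K')) K') =
          N r (Em r (toF n P) (toF n L) (toF n K')) \ toF n K' := by
        rw [toF_dif, toF_nb hM, toF_em hM (hE.1.trans i1.h1) i1.h3]
      have lt : ∀ v ∈ dif n (nb n M (em n M P L K')) K', v < n := fun v hv => (mem_sel.1 hv).1
      unfold Can estep
      dsimp only at i1 i2 ⊢
      generalize dif n (nb n M (em n M P L K')) K' = C at e lt
      rcases C with _ | ⟨v, C⟩
      · have a1 := sdiff_eq_empty_iff_subset.1 (e.symm.trans toF_nil)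
        have a2 := enum_done hA hP hK i1 a1
        refine ⟨(L, K'), ⟨i1, ?_⟩, [false], rfl, fun y => rfl⟩
        rw [a2] at a1
        have : f r (toF n K') (Em r (toF n P) A (toF n K)) = 0 := by
          unfold f
          rw [sdiff_eq_empty_iff_subset.2 a1, card_empty]
        dsimp only
        omega
      · obtain ⟨v, rfl⟩ : ∃ u : Fin n, (u : ℕ) = v := ⟨⟨v, lt v (by simp)⟩, rfl⟩
        have a1 : v ∈ N r (Em r (toF n P) (toF n L) (toF n K')) \ toF n K' := by
          rw [← e]; simp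
        obtain ⟨c, b1, b2⟩ := enum_step (j := 2 * k - (i + 1)) hs hP i1 (by omega)
          (mem_sdiff.1 a1).1 (mem_sdiff.1 a1).2
        refine ⟨cond c (dif n L [v], uni n [v] K') (dif n L (uni n [v] (nb n M [v])), K'), ?_,
          [c], rfl, fun y => rfl⟩
        cases c <;> simpa only [cond_true, cond_false, toF_dif, toF_uni, toF_one, toF_nb hM,
          sdiff_singleton_eq_erase, ← insert_eq] using And.intro b1 b2)
    (s := (dif n (dif n (List.range n) K) [b], uni n K [])) (by
      simp only [toF_dif, toF_uni, toF_one, toF_range, toF_nil, union_empty,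
        sdiff_singleton_eq_erase]
      have a1 := f_Em_le (r := r) (K := toF n K) hP
      have a2 := card_le_card (sdiff_subset (s := N r A) (t := toF n K))
      exact ⟨enum_init hA hP hK, by omega⟩) (2 * k) le_rfl
  refine ⟨em n M P s.1 s.2, ?_, c, by omega, fun y => ?_⟩
  · rw [toF_em hM (hE.1.trans i1.h1) i1.h3]
    exact enum_done hA hP hK i1 (enum_zero hP i1 (by omega))
  · unfold enu eall
    beta_reduce at c2
    rw [c2]

theorem cstp_spec (hM : Rep n M r) (hs : ∀ u v, r u v → r v u) {A : Finset (Fin n)} {b : Fin n}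
    (hA : Side r A b) (hk : (N r A).card ≤ k) {P K : List ℕ} (hP : toF n P ⊆ A)
    (hK : toF n K ⊆ N r A) : ∃ Q, toF n Q = cl r A (toF n K) (toF n P) ∧
      Can (fun x => cstp n k M b K (P, x)) (4 * k) Q := by
  obtain ⟨E, e1, c, c1, c2⟩ := enu_spec hM hs hA hk hP hK
  have a1 := f_Em_le (r := r) (K := toF n K) hP
  have a2 := card_le_card (sdiff_subset (s := N r A) (t := toF n K))
  obtain ⟨d, U, d1, d2, d3⟩ := pick_spec (C := dif n (nb n M E) K) (w := 2 * k) (by
    rw [dif, len_sel, ← dif, toF_dif, toF_nb hM, e1]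
    unfold f at a1
    omega) A
  refine ⟨uni n E U, ?_, c ++ d, by rw [List.length_append]; omega, fun y => ?_⟩
  · rw [toF_uni, d2, toF_dif, toF_nb hM, e1]
    ext v
    have b1 := @(Em_mn (r := r) (toF n K) hP).2.1 v
    have b2 : v ∈ toF n K → v ∉ A := fun c => (mem_N.1 (hK c)).1
    simp only [cl, mem_union, mem_inter, mem_sdiff]
    tauto
  · simp only [cstp, List.append_assoc, c2, cfin, d3, List.drop_left' d1]

theorem ph2_spec (hM : Rep n M r) (hs : ∀ u v, r u v → r v u) {A : Finset (Fin n)} {b : Fin n}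
    (hA : Side r A b) (hk : (N r A).card ≤ k) {K : List ℕ} (hK : toF n K ⊆ N r A)
    (ps : List (Fin n)) : (∀ p ∈ ps, p ∈ A) → ∀ P, toF n P ⊆ A → ∃ Q, toF n Q = ps.foldl
      (fun P p => (cl r A (toF n K))^[3 * (7 * k + 2)] (insert p P)) (toF n P) ∧
      Can (fun x => (ps.map Fin.val).foldl (rnd n k M b K) (P, x))
        (ps.length * (3 * (7 * k + 2) * (4 * k))) Q := by
  induction ps with
  | nil => exact fun _ P _ => ⟨P, rfl, [], by simp, fun _ => rfl⟩
  | cons p ps ih =>
    intro hp P hP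
    have h0 : insert p (toF n P) ⊆ A := insert_subset (hp p (by simp)) hP
    obtain ⟨Q, a1, c, c1, c2⟩ := can_iter (cstp n k M b K) (4 * k) (3 * (7 * k + 2))
      (fun i s => toF n s = (cl r A (toF n K))^[i] (insert p (toF n P))) (fun i _ s h => by
        obtain ⟨Q, a1, a2⟩ := cstp_spec hM hs hA hk (P := s) (h ▸ iter_sub h0 i) hK
        exact ⟨Q, by rw [iterate_succ_apply', ← h, a1], a2⟩)
      (s := uni n [p] P) (by rw [toF_uni, toF_one, ← insert_eq]; rfl) _ le_rfl
    obtain ⟨R, b1, d, d1, d2⟩ := ih (fun x hx => hp x (by simp [hx])) Q (a1 ▸ iter_sub h0 _)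
    refine ⟨R, by rw [b1, a1]; rfl, c ++ d, by
      rw [List.length_append, c1, d1, List.length_cons]; ring, fun y => ?_⟩
    beta_reduce at c2 d2 ⊢
    rw [List.map_cons, List.foldl_cons, List.append_assoc, rnd, c2, d2]

theorem phs1_spec (hM : Rep n M r) (hM' : Rep n M' r') (hs : ∀ u v, r u v → r v u)
    (hs' : ∀ u v, r' u v → r' v u) {l : ℕ} {A A' : Finset (Fin n)} {a b a' b' : Fin n}
    {P P' : List (Fin n)} (h : Setup r r' k l A A' a b a' b' P P') :
    ∃ K : List ℕ × List ℕ, (toF n K.1 ⊆ N r A ∧ (N r A \ toF n K.1).card ≤ 6 * l) ∧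
      Can (phs1 n k M M' b b' (P.map Fin.val) (P'.map Fin.val)) (k * (8 * k)) K := by
  have k1 := (card_le_card subset_union_left).trans h.ck
  have k2 := (card_le_card subset_union_right).trans h.ck
  obtain ⟨K, a1, a2⟩ := can_iter (st1 n k M M' b b' (P.map Fin.val) (P'.map Fin.val)) (8 * k) k
    (fun i s => Inv1 (N r A) (N r' A') l i (toF n s.1) (toF n s.2)) (by
      rintro i - ⟨Kb, Kr⟩ hi
      have hi' := hi
      obtain ⟨K, -, i1, i2, -⟩ := hi'
      obtain ⟨E, e1, c, c1, c2⟩ := enu_spec (P := P.map Fin.val) (K := Kb) hM hs h.s1 k1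
        (by simpa using h.p1) (i1 ▸ inter_subset_right)
      obtain ⟨E', e2, d, d1, d2⟩ := enu_spec (P := P'.map Fin.val) (K := Kr) hM' hs' h.s2 k2
        (by simpa using h.p2) (i2 ▸ inter_subset_right)
      obtain ⟨C, hC⟩ : ∃ C, C = uni n (dif n (nb n M E) Kb) (dif n (nb n M' E') Kr) := ⟨_, rfl⟩
      obtain ⟨b1, b2⟩ := ph1 h hi (C := toF n C) (by
        rw [hC, toF_uni, toF_dif, toF_dif, toF_nb hM, toF_nb hM', e1, e2, toF_map, toF_map])
      have b3 : C.length ≤ 2 * k := by rwa [hC, uni, len_sel, ← uni, ← hC]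
      obtain ⟨u, U, u1, u2, u3⟩ := pick_spec b3 (N r A)
      obtain ⟨w, W, w1, w2, w3⟩ := pick_spec b3 (N r' A')
      refine ⟨(uni n Kb U, uni n Kr W), by simpa only [toF_uni, u2, w2] using b2,
        c ++ (d ++ (u ++ w)), by simp only [List.length_append]; omega, fun y => ?_⟩
      simp only [st1, List.append_assoc, c2, d2, st1b, lab1, ← hC, u3, List.drop_left' u1, w3,
        List.drop_left' w1])
    (s := ([], [])) ⟨∅, empty_subset _, by simp, by simp, Or.inr (Nat.zero_le _)⟩ k le_rfl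
  exact ⟨K, ph1_end h.ck a1, a2⟩

theorem mem_tup (c : ℕ) : ∀ l : List (Fin n), l.length = c → l.map Fin.val ∈ tup n c := by
  induction c with
  | zero => intro l h; simp [tup, List.length_eq_zero_iff.1 h]
  | succ c ih =>
    rintro (_ | ⟨x, l⟩) h
    · simp at h
    · exact List.mem_flatMap.2 ⟨x, List.mem_range.2 x.2,
        List.mem_map.2 ⟨_, ih l (by simpa using h), rfl⟩⟩

theorem mem_allB {t : ℕ} : ∀ g, 2 ^ g ≤ t → (allB t g).length ≤ 2 ^ g ∧
    ∀ l : List Bool, l.length = g → l ∈ allB t g := by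
  intro g
  unfold allB
  induction g with
  | zero => simp
  | succ g ih =>
    intro h
    obtain ⟨a1, a2⟩ := ih (by rw [pow_succ] at h; omega)
    have a3 : ∀ B : List (List Bool),
        (B.flatMap fun l => [false :: l, true :: l]).length = B.length * 2 := fun B => by
      induction B with
      | nil => rfl
      | cons l B ih => simp only [List.flatMap_cons, List.length_append, ih]; simp; omega
    rw [iterate_succ_apply', dbl, List.take_of_length_le (by rw [a3]; rw [pow_succ] at h; omega)]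
    refine ⟨by rw [a3, pow_succ]; omega, ?_⟩
    rintro (_ | ⟨x, l⟩) hl
    · simp at hl
    · exact List.mem_flatMap.2 ⟨l, a2 l (by simpa using hl), by cases x <;> simp⟩

theorem wit_iff (A T : List ℕ) : wit n A T = true ↔
    (∃ v ∈ toF n A, v ∉ toF n T) ∧ ∃ v ∉ toF n A, v ∉ toF n T := by
  simp only [wit, Bool.and_eq_true, List.any_eq_true, List.mem_range, Bool.not_eq_true',
    List.contains_eq_mem, decide_eq_true_eq, decide_eq_false_iff_not, mem_toF]
  exact and_congr ⟨fun ⟨v, a, b⟩ => ⟨⟨v, a⟩, b⟩, fun ⟨v, b⟩ => ⟨v, v.2, b⟩⟩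
    ⟨fun ⟨v, a, b⟩ => ⟨⟨v, a⟩, b⟩, fun ⟨v, b⟩ => ⟨v, v.2, b⟩⟩

theorem chk_iff (hM : Rep n M r) (hM' : Rep n M' r') (A D : List ℕ) {T : Finset (Fin n)}
    (hT : T = N r (toF n A) ∪ N r' (toF n D)) : chk n k M M' A D = true ↔
      (T.card ≤ k ∧ (∃ v ∈ toF n A, v ∉ T) ∧ ∃ v ∉ toF n A, v ∉ T) ∧
        (∃ v ∈ toF n D, v ∉ T) ∧ ∃ v ∉ toF n D, v ∉ T := by
  rw [chk, Bool.and_eq_true, Bool.and_eq_true, wit_iff, wit_iff, Nat.ble_eq, uni, len_sel, ← uni,
    toF_uni, toF_nb hM, toF_nb hM', ← hT]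

theorem run_sound (hM : Rep n M r) (hM' : Rep n M' r') {z : ℕ} {B : List (List Bool)}
    (h : run z n k M M' B = true) : ∃ S : Finset (Fin n), S.card ≤ k ∧ Sol r S ∧ Sol r' S := by
  simp only [run, List.any_eq_true, lst] at h
  obtain ⟨b, -, b', -, P, -, P', -, ps, -, x, -, Q, -, O, -, h⟩ := h
  obtain ⟨⟨h1, ⟨u, u1, u2⟩, v, v1, v2⟩, ⟨w, w1, w2⟩, y, y1, y2⟩ := (chk_iff hM hM' _ _ rfl).1 h
  exact ⟨_, h1, ⟨_, u, v, u1, u2, v1, v2, subset_union_left⟩,
    _, w, y, w1, w2, y1, y2, subset_union_right⟩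

theorem run_complete (hM : Rep n M r) (hM' : Rep n M' r') (hs : ∀ u v, r u v → r v u)
    (hs' : ∀ u v, r' u v → r' v u) {l t : ℕ} {A A' : Finset (Fin n)} {a b a' b' : Fin n}
    {P P' : List (Fin n)} (h : Setup r r' k l A A' a b a' b' P P') (hR : ¬ Reg r A (7 * k) l)
    (ht : 2 ^ gb 5221 k ≤ t) : run 5221 n k M M' (allB t (gb 5221 k)) = true := by
  obtain ⟨K, ⟨k1, k2⟩, c, c1, c2⟩ := phs1_spec hM hM' hs hs' h
  obtain ⟨ps, p1, p2, p3⟩ := rounds hs h.s1 k1 ⟨a, h.ha⟩ h.hl k2 hR
  obtain ⟨E, e1, d, d1, d2⟩ := ph2_spec hM hs h.s1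
    ((card_le_card subset_union_left).trans h.ck) k1 ps p2 [] (by simp)
  rw [toF_nil, p3] at e1
  obtain ⟨Q, O, q1, q2, q3⟩ := last hs' h
  obtain ⟨f1, f2, f3, f4, f5⟩ := q3 _ _ _ rfl rfl rfl
  simp only [run, List.any_eq_true]
  refine ⟨b, List.mem_range.2 b.2, b', List.mem_range.2 b'.2, _, mem_tup _ P h.l1, _,
    mem_tup _ P' h.l2, _, mem_tup _ ps p1, c ++ d, (mem_allB _ ht).2 _ (by
      rw [List.length_append, c1, d1, p1, gb]), _, mem_tup _ Q q1, _, mem_tup _ O q2, ?_⟩
  have e2 : side n k M M' b b' (P.map Fin.val) (P'.map Fin.val) (ps.map Fin.val) (c ++ d) = E := by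
    have := d2 []
    beta_reduce at this
    rw [List.append_nil] at this
    rw [side, c2, ph2, this]
  rw [e2, lst, chk_iff hM hM' _ _ rfl, toF_em hM'] <;>
    simp only [toF_dif, toF_uni, toF_range, toF_nb hM, toF_nb hM', toF_map, e1]
  · exact ⟨⟨f2, f3, f4⟩, f5⟩
  · exact f1
  · exact sdiff_disjoint.mono_left sdiff_subset

theorem alg_iff (hM : Rep n M r) (hM' : Rep n M' r') (hs : ∀ u v, r u v → r v u)
    (hs' : ∀ u v, r' u v → r' v u) {t : ℕ} (ht : 2 ^ gb 5221 k ≤ t) :
    alg 5221 ((n, k, M, M'), t) = true ↔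
      ∃ S : Finset (Fin n), S.card ≤ k ∧ Sol r S ∧ Sol r' S := by
  rw [alg, Bool.or_eq_true]
  constructor
  · rintro (h | h)
    · exact run_sound hM hM' h
    · obtain ⟨S, a, b, c⟩ := run_sound hM' hM h
      exact ⟨S, a, c, b⟩
  · rintro ⟨S, a, b, c⟩
    obtain ⟨l, A, A', a, b, a', b', P, P', h, e | e⟩ := exists_setup hs hs' a b c
    · exact Or.inl (run_complete hM hM' hs hs' h e ht)
    · exact Or.inr (run_complete hM' hM hs' hs h.symm e ht)

end guess

/-! ### Padding machine -/

section pad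
open Turing Polynomial

/-- The machine of a program, with an arbitrary time bound. -/
theorem tm2_time (c : Cmd) : ∃ M : TM2ComputableAux Bool Bool, (∀ i, Finite (M.tm.Γ i)) ∧
    ∀ x y T, Exec c (update (fun _ => []) 0 x) (update (fun _ => []) 1 y) T →
      Nonempty (TM2OutputsInTime M.tm (List.map M.inputAlphabet.invFun x)
        (some (List.map M.outputAlphabet.invFun y)) (T + 1)) := by
  have hb : c.Bdd (c.top + 1) := Cmd.bdd_of_top_le (Nat.le_succ _)
  refine ⟨⟨machine c.top c, Equiv.refl _, Equiv.refl _⟩, fun _ => inferInstanceAs (Finite Bool),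
    fun x y T h => ?_⟩
  obtain ⟨v', m, hm, hs⟩ := simulate (N := c.top + 1) (machine c.top c).m h hb some
    (.load (fun _ => none) .halt) (fun _ => rfl) none
  have h2 := (Steps.one (N := c.top + 1) (machine c.top c).m none none
    (tr _ (update (fun _ => []) 0 x))).trans hs
  have e1 : initList (machine c.top c) x = ⟨some none, none, tr _ (update (fun _ => []) 0 x)⟩ := by
    unfold initList
    congr 1
    funext k
    by_cases hk : k = (machine c.top c).k₀
    · subst hk
      rw [dif_pos rfl]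
      rfl
    · rw [dif_neg hk]
      have : (k : Fin (c.top + 2)).val ≠ 0 := fun e => hk (Fin.ext e)
      simp only [tr, update_of_ne this]
      rfl
  have e2 : haltList (machine c.top c) y = ⟨none, none, tr _ (update (fun _ => []) 1 y)⟩ := by
    unfold haltList
    congr 1
    funext k
    by_cases hk : k = (machine c.top c).k₁
    · subst hk
      rw [dif_pos rfl]
      rfl
    · rw [dif_neg hk]
      have : (k : Fin (c.top + 2)).val ≠ 1 := fun e => hk (Fin.ext e)
      simp only [tr, update_of_ne this]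
      rfl
  have e3 : ∀ l : List Bool, List.map (Equiv.refl Bool).invFun l = l := fun l => List.map_id l
  have key : (flip bind (machine c.top c).step)^[m + 1] (some (initList (machine c.top c) x)) =
      some (haltList (machine c.top c) y) := by
    rw [e1, e2]
    exact h2
  rw [← e3 x, ← e3 y] at key
  exact ⟨⟨⟨m + 1, key⟩, Nat.succ_le_succ hm⟩⟩

/-- States using four stacks. -/
def S4 (a b c d : List Bool) : St
  | 0 => a
  | 1 => b
  | 2 => c
  | 3 => d
  | _ + 4 => []

theorem S4_up (a b c d y : List Bool) : update (S4 a b c d) 0 y = S4 y b c d ∧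
    update (S4 a b c d) 1 y = S4 a y c d ∧ update (S4 a b c d) 2 y = S4 a b y d ∧
    update (S4 a b c d) 3 y = S4 a b c y := by
  refine ⟨?_, ?_, ?_, ?_⟩ <;> funext k <;> rcases k with _ | _ | _ | _ | k <;> simp [S4]

theorem S4_nil : (fun _ => []) = S4 [] [] [] [] := by
  funext k
  rcases k with _ | _ | _ | _ | k <;> rfl

theorem S4_ge {a b c : List Bool} : ∀ k, 3 ≤ k → S4 a b c [] k = []
  | 3, _ => rfl
  | _ + 4, _ => rfl

theorem poly_le (p : Polynomial ℕ) : ∃ c, ∀ N, 2 ≤ N → p.eval N ≤ N ^ c := by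
  induction p using Polynomial.induction_on' with
  | add p q hp hq =>
    obtain ⟨a, ha⟩ := hp
    obtain ⟨b, hb⟩ := hq
    refine ⟨a + b + 1, fun N h => ?_⟩
    have h1 := (ha N h).trans (Nat.pow_le_pow_right (by omega) (Nat.le_add_right a b))
    have h2 := (hb N h).trans (Nat.pow_le_pow_right (by omega) (Nat.le_add_left b a))
    have h3 := Nat.mul_le_mul_left (N ^ (a + b)) h
    rw [eval_add, pow_succ]
    omega
  | monomial n a =>
    refine ⟨a + n, fun N h => ?_⟩
    rw [eval_monomial, pow_add]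
    exact Nat.mul_le_mul_right _ (Nat.lt_two_pow_self.le.trans (Nat.pow_le_pow_left h a))

/-- A polynomial-cost test of the input padded by `2 ^ g` is decided in time
`(2 ^ (g + 1) * length) ^ c`. -/
theorem fpt_machine {α : Type} [Enc α] {g : α → ℕ} (hg : PF g) {φ : α × ℕ → Bool} (hφ : PF φ) :
    ∃ (M : TM2ComputableAux Bool Bool) (c : ℕ), (∀ i, Finite (M.tm.Γ i)) ∧
      ∀ a, 1 ≤ (enc a).length → Nonempty (TM2OutputsInTime M.tm
        (List.map M.inputAlphabet.invFun (enc a))
        (some (List.map M.outputAlphabet.invFun [φ (a, 2 ^ g a)]))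
        ((2 ^ (g a + 1) * (enc a).length) ^ c)) := by
  obtain ⟨G, hG, sG⟩ := hg
  obtain ⟨F, hF, sF⟩ := hφ
  obtain ⟨c1, p1, h1⟩ := hG 1 (fun _ => 0) fun _ => Nat.one_pos
  obtain ⟨c2, p2, h2⟩ := (PT.append (PT.var (0 : Fin 1)) (PT.var 0)) 3 (fun _ => 2)
    fun _ => by omega
  obtain ⟨c3, p3, h3⟩ := (PT.app1 hF (PT.pair_pt (PT.var (0 : Fin 2)) (PT.var 1))) 3 ![0, 2]
    fun i => by fin_cases i <;> simp
  have lp : ∀ (x : List Bool) (N j m : ℕ), 2 ^ j * m ≤ N →
      Exec (.loop 1 (.seq c2 (.seq (assign 3 2) (.pop 1))))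
        (S4 x (List.replicate j true) (List.replicate m true) [])
        (S4 x [] (List.replicate (2 ^ j * m) true) []) (j * (p2.eval N + 18 * N + 5) + 1) := by
    intro x N j
    induction j with
    | zero => exact fun m _ => (Exec.loopE rfl).of_eq (by simp) (by simp)
    | succ j ih =>
      intro m hm
      have e : 2 ^ (j + 1) * m = 2 ^ j * (m + m) := by ring
      have l : m ≤ N := (Nat.le_mul_of_pos_left m (by positivity)).trans hm
      have a1 := h2 (S4 x (List.replicate (j + 1) true) (List.replicate m true) []) N S4_ge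
        fun _ => by simpa [S4] using l
      rw [(S4_up ..).2.2.2] at a1
      have a2 := a1.seq ((exec_assign (a := 3) (b := 2) (by omega) _ rfl).seq (Exec.pop 1 _))
      rw [(S4_up ..).2.2.2, (S4_up ..).2.2.1, (S4_up ..).2.1] at a2
      simp only [S4, List.replicate_succ, List.tail_cons, ← List.replicate_add,
        List.length_replicate] at a2
      rw [e]
      refine (Exec.loopS (by simp [S4]) a2 (ih _ (e ▸ hm))).mono ?_
      rw [add_mul j 1]
      omega
  obtain ⟨M, m1, m2⟩ := tm2_time (.seq c1 (.seq (.push 2 true) (.seq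
    (.loop 1 (.seq c2 (.seq (assign 3 2) (.pop 1)))) (.seq c3 (.seq (clear 0) (.seq (clear 2)
      (assign 3 1)))))))
  obtain ⟨c, hc⟩ := poly_le (p1 + X * (p2 + 18 * X + 5) + p3 + 4 * X + 16)
  refine ⟨M, c, m1, fun a ha => ?_⟩
  obtain ⟨N, hN⟩ : ∃ N, N = 2 ^ (g a + 1) * (enc a).length := ⟨_, rfl⟩
  have t1 : g a < 2 ^ g a := Nat.lt_two_pow_self
  have t2 : 2 ^ (g a + 1) ≤ N := hN ▸ Nat.le_mul_of_pos_right _ ha
  have t3 : (enc a).length ≤ N := hN ▸ Nat.le_mul_of_pos_left _ (by positivity)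
  rw [pow_succ] at t2
  have a1 := h1 (S4 (enc a) [] [] []) N (fun k hk => by
    rcases k with _ | _ | _ | _ | k <;> first | rfl | omega) fun _ => t3
  have a2 := Exec.push 2 true (S4 (enc a) (List.replicate (g a) true) [] [])
  have a3 := lp (enc a) N (g a) 1 (by omega)
  have a4 := h3 (S4 (enc a) [] (List.replicate (2 ^ g a) true) []) N S4_ge fun i => by
    fin_cases i <;> simp [S4] <;> omega
  have a5 := exec_clear 0 _ (S4 (enc a) [] (List.replicate (2 ^ g a) true) [φ (a, 2 ^ g a)]) rfl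
  have a6 := exec_clear 2 _ (S4 [] [] (List.replicate (2 ^ g a) true) [φ (a, 2 ^ g a)]) rfl
  have a7 := exec_assign (a := 3) (b := 1) (by omega) (S4 [] [] [] [φ (a, 2 ^ g a)]) rfl
  rw [(S4_up ..).2.1] at a1
  rw [(S4_up ..).2.2.1] at a2 a6
  rw [(S4_up ..).2.2.2] at a4 a7
  rw [(S4_up ..).1] at a5
  rw [mul_one] at a3
  have b1 : G (enc a) = List.replicate (g a) true := sG a
  have b2 : F (encPair (enc a) (List.replicate (2 ^ g a) true)) = [φ (a, 2 ^ g a)] :=
    sF (a, 2 ^ g a)
  simp only [S4, Matrix.cons_val_zero, Matrix.cons_val_one, b1, b2, List.length_replicate,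
    List.length_nil, List.length_singleton] at a1 a2 a4 a5 a6 a7
  obtain ⟨o⟩ := m2 (enc a) [φ (a, 2 ^ g a)] _ (by
    rw [S4_nil, (S4_up ..).1]
    exact a1.seq (a2.seq (a3.seq (a4.seq (a5.seq (a6.seq a7))))))
  refine ⟨⟨o.1, o.2.trans (le_trans ?_ (hN ▸ hc N (by omega)))⟩⟩
  have t4 := Nat.mul_le_mul_right (p2.eval N + 18 * N + 5) (show g a ≤ N by omega)
  rw [← hN]
  simp only [eval_add, eval_mul, eval_X, eval_ofNat]
  omega

end pad

/-! ### The theorem -/

theorem sol_iff {n : ℕ} (G : SimpleGraph (Fin n)) [DecidableRel G.Adj] (S : Finset (Fin n)) :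
    Sol G.Adj S ↔ Nontrivial (G.induce {v | v ∉ S}).ConnectedComponent := by
  classical
  constructor
  · rintro ⟨A, a, b, a1, a2, b1, b2, h⟩
    refine ⟨⟨(G.induce {v | v ∉ S}).connectedComponentMk ⟨a, a2⟩,
      (G.induce {v | v ∉ S}).connectedComponentMk ⟨b, b2⟩, fun e => b1 ?_⟩⟩
    obtain ⟨w⟩ := SimpleGraph.ConnectedComponent.eq.1 e
    have : ∀ (x y : ({v | v ∉ S} : Set (Fin n))) (w : (G.induce {v | v ∉ S}).Walk x y),
        x.1 ∈ A → y.1 ∈ A := fun x y w => by
      induction w with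
      | nil => exact id
      | @cons x z _ e _ ih =>
        refine fun hx => ih ?_
        by_contra c
        exact z.2 (h (mem_N.2 ⟨c, _, hx, e⟩))
    exact this _ _ w a1
  · rintro ⟨x, y, h⟩
    obtain ⟨a, rfl⟩ := x.exists_rep
    obtain ⟨b, rfl⟩ := y.exists_rep
    refine ⟨univ.filter fun v => ∃ hv : v ∉ S, (G.induce {v | v ∉ S}).Reachable a ⟨v, hv⟩, a, b,
      mem_filter.2 ⟨mem_univ _, a.2, .refl _⟩, a.2,
      fun c => h (SimpleGraph.ConnectedComponent.sound (mem_filter.1 c).2.2), b.2, fun v hv => ?_⟩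
    obtain ⟨c, u, hu, e⟩ := mem_N.1 hv
    obtain ⟨u1, u2⟩ := (mem_filter.1 hu).2
    by_contra d
    exact c (mem_filter.2 ⟨mem_univ _, d, u2.trans (SimpleGraph.Adj.reachable e)⟩)

theorem dual_fpt : ∃ (M : Turing.TM2ComputableAux Bool Bool) (c : ℕ) (ans : SepInst → Bool),
    (∀ i, Finite (M.tm.Γ i)) ∧ (∀ y, ans y = true ↔ y.HasSep) ∧
    ∀ y, Nonempty (Turing.TM2OutputsInTime M.tm (List.map M.inputAlphabet.invFun y.code)
      (some (List.map M.outputAlphabet.invFun [ans y]))
      (2 ^ (c * (y.k + 1) ^ 2) * y.code.length ^ c)) := by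
  classical
  obtain ⟨M, c, h1, h2⟩ := fpt_machine (g := fun y : ℕ × ℕ × Tb × Tb => gb 5221 y.2.1)
    (by unfold gb; fun_prop) (pf_alg 5221)
  refine ⟨M, 438572 * c, fun y => alg 5221 ((y.n, y.k, adjMatrix y.blue, adjMatrix y.red),
    2 ^ gb 5221 y.k), h1, fun y => ?_, fun y => ?_⟩
  · rw [alg_iff (entry_adjMatrix y.blue) (entry_adjMatrix y.red) (fun _ _ h => h.symm)
      (fun _ _ h => h.symm) le_rfl]
    simp only [sol_iff, SepInst.HasSep]
  · have e : y.code = enc (y.n, y.k, adjMatrix y.blue, adjMatrix y.red) := rfl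
    have l : 1 ≤ y.code.length := by rw [e, len_prod]; omega
    obtain ⟨o⟩ := h2 _ (e ▸ l)
    refine ⟨⟨o.1, o.2.trans ?_⟩⟩
    rw [← e, mul_pow, ← pow_mul]
    refine Nat.mul_le_mul (Nat.pow_le_pow_right two_pos ?_) (Nat.pow_le_pow_right l (by omega))
    rw [mul_right_comm]
    refine Nat.mul_le_mul_right _ ?_
    unfold gb
    nlinarith

end Pool.Agent.Lib.MP_959b39_lc.Fpt
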