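import Mathlib

/-!
Submodularity of neighbourhoods, closest minimum cuts, and the two structural lemmas behind the
fixed-parameter algorithm for Dual Separator.
-/

set_option autoImplicit false

namespace Pool.Agent.Lib.MP_959b39_lc.Fpt

open Finset

variable {V : Type} [Fintype V] [DecidableEq V] (r : V → V → Prop) [DecidableRel r]

/-- Open neighbourhood. -/
def N (D : Finset V) : Finset V := univ.filter fun v => v ∉ D ∧ ∃ u ∈ D, r u v

/-- Number of neighbours outside `K`. -/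
def f (K D : Finset V) : ℕ := (N r D \ K).card

/-- `D` minimises `f K` between `P` and `L`. -/
def Mn (P L K D : Finset V) : Prop :=
  P ⊆ D ∧ D ⊆ L ∧ ∀ D', P ⊆ D' → D' ⊆ L → f r K D ≤ f r K D'

open Classical in
/-- The least minimiser. -/
noncomputable def Em (P L K : Finset V) : Finset V :=
  univ.filter fun v => ∀ D, Mn r P L K D → v ∈ D

/-- A side of a minimal separator. -/
structure Side (A : Finset V) (b : V) : Prop where
  hb : b ∉ A
  conn : ∀ D ⊆ A, D.Nonempty → N r D ∩ A = ∅ → D = A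
  far : ∀ D, b ∉ D → N r D ⊆ A ∪ N r A → Disjoint D (N r A)

/-- `S` separates two vertices. -/
def Sol (S : Finset V) : Prop :=
  ∃ (A : Finset V) (a b : V), a ∈ A ∧ a ∉ S ∧ b ∉ A ∧ b ∉ S ∧ N r A ⊆ S

/-- Three disjoint large regions of `A` with small inner boundary. -/
def Reg (A : Finset V) (q l : ℕ) : Prop :=
  ∃ D : Fin 3 → Finset V, (∀ i, D i ⊆ A ∧ q < (D i).card ∧ (N r (D i) ∩ A).card < l) ∧
    ∀ i j, i ≠ j → Disjoint (D i) (D j)

/-- One closure step. -/
noncomputable def cl (A K P : Finset V) : Finset V := (Em r P A K ∪ N r (Em r P A K)) ∩ A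

/-- Discovered separator vertices. -/
def dd (A K D : Finset V) : ℕ := ((N r D ∩ N r A) \ K).card

/-- The potential. -/
noncomputable def Phi (A K P : Finset V) : ℕ := f r K (Em r P A K) + dd r A K (Em r P A K)

/-- Invariant of the enumeration of the least minimiser `E`. -/
structure EInv (E K : Finset V) (b : V) (L K' : Finset V) : Prop where
  h1 : E ⊆ L
  h2 : b ∉ L
  h3 : Disjoint L K'
  h4 : K ⊆ K'
  h5 : K' ⊆ K ∪ N r E

variable {r}

theorem mem_N {D : Finset V} {v : V} : v ∈ N r D ↔ v ∉ D ∧ ∃ u ∈ D, r u v := by simp [N]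

theorem f_submod (K D E : Finset V) :
    f r K (D ∩ E) + f r K (D ∪ E) ≤ f r K D + f r K E := by
  unfold f
  rw [← card_union_add_card_inter, ← card_union_add_card_inter (N r D \ K)]
  refine add_le_add (card_le_card ?_) (card_le_card ?_)
  · intro v
    simp only [mem_union, mem_sdiff, mem_N, mem_inter]
    grind
  · intro v
    simp only [mem_union, mem_sdiff, mem_N, mem_inter]
    grind

theorem N_sub {D A : Finset V} (h : D ⊆ A) : N r D ⊆ A ∪ N r A := by
  intro v hv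
  rw [mem_union, mem_N]
  obtain ⟨-, u, hu, huv⟩ := mem_N.1 hv
  by_cases h1 : v ∈ A
  · exact Or.inl h1
  · exact Or.inr ⟨h1, u, h hu, huv⟩

theorem Em_sub {P L K D : Finset V} (h : Mn r P L K D) : Em r P L K ⊆ D := by
  intro v hv
  simp only [Em, mem_filter, mem_univ, true_and] at hv
  exact hv D h

theorem Em_mn {P L : Finset V} (K : Finset V) (h : P ⊆ L) : Mn r P L K (Em r P L K) := by
  classical
  obtain ⟨D0, h0, h1⟩ := exists_min_image (univ.filter fun D : Finset V => P ⊆ D ∧ D ⊆ L)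
    (f r K) ⟨L, by simp [h]⟩
  have h2 : Mn r P L K D0 := by
    simp only [mem_filter, mem_univ, true_and] at h0 h1
    exact ⟨h0.1, h0.2, fun D' a b => h1 D' ⟨a, b⟩⟩
  obtain ⟨E, h3, h4⟩ := exists_min_image (univ.filter fun D : Finset V => Mn r P L K D)
    card ⟨D0, by simpa using h2⟩
  simp only [mem_filter, mem_univ, true_and] at h3 h4
  have h5 : ∀ D, Mn r P L K D → E ⊆ D := by
    intro D hD
    have a1 := f_submod (r := r) K E D
    have a2 := hD.2.2 (E ∪ D) (h3.1.trans subset_union_left) (union_subset h3.2.1 hD.2.1)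
    have a3 : Mn r P L K (E ∩ D) := ⟨subset_inter h3.1 hD.1, inter_subset_left.trans h3.2.1,
      fun D' a b => le_trans (by omega) (h3.2.2 D' a b)⟩
    have a4 := eq_of_subset_of_card_le (inter_subset_left (s₁ := E) (s₂ := D)) (h4 _ a3)
    exact a4 ▸ inter_subset_right
  have h6 : Em r P L K = E := by
    refine Subset.antisymm (Em_sub h3) fun v hv => ?_
    simp only [Em, mem_filter, mem_univ, true_and]
    exact fun D hD => h5 D hD hv
  rwa [h6]

theorem Em_sub' {P L K D : Finset V} (h1 : P ⊆ D) (h2 : D ⊆ L)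
    (h3 : f r K D ≤ f r K (Em r P L K)) : Em r P L K ⊆ D :=
  Em_sub ⟨h1, h2, fun D' a b => h3.trans ((Em_mn K (h1.trans h2)).2.2 D' a b)⟩

theorem Em_mono {P Q L : Finset V} (K : Finset V) (h1 : P ⊆ Q) (h2 : Q ⊆ L) :
    Em r P L K ⊆ Em r Q L K := by
  have hP := Em_mn (r := r) K (h1.trans h2)
  have hQ := Em_mn (r := r) K h2
  have a1 := f_submod (r := r) K (Em r P L K) (Em r Q L K)
  have a2 := hQ.2.2 (Em r P L K ∪ Em r Q L K) (hQ.1.trans subset_union_right)
    (union_subset hP.2.1 hQ.2.1)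
  exact (Em_sub' (subset_inter hP.1 (h1.trans hQ.1)) (inter_subset_left.trans hP.2.1)
    (by omega)).trans inter_subset_right

theorem exists_side {S A0 : Finset V} {a b : V} (hs : ∀ u v, r u v → r v u) (ha : a ∈ A0)
    (hb : b ∉ A0) (h0 : N r A0 ⊆ S) : ∃ A, a ∈ A ∧ N r A ⊆ S ∧ Side r A b := by
  classical
  obtain ⟨A1, h1, h2⟩ := exists_min_image
    (univ.filter fun A : Finset V => a ∈ A ∧ b ∉ A ∧ N r A ⊆ S) (fun A => (N r A).card)
    ⟨A0, by simp [ha, hb, h0]⟩
  obtain ⟨A, h3, h4⟩ := exists_min_image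
    (univ.filter fun A : Finset V => (a ∈ A ∧ b ∉ A ∧ N r A ⊆ S) ∧
      (N r A).card ≤ (N r A1).card) card ⟨A1, by simpa using h1⟩
  simp only [mem_filter, mem_univ, true_and] at h1 h2 h3 h4
  have key : ∀ D ⊆ A, a ∈ D → N r D ∩ A = ∅ → D = A := by
    intro D hD haD hN
    have e : N r D ⊆ N r A := by
      intro v hv
      rcases mem_union.1 (N_sub hD hv) with h | h
      · exact absurd (mem_inter.2 ⟨hv, h⟩) (by simp [hN])
      · exact h
    exact eq_of_subset_of_card_le hD (h4 D ⟨⟨haD, fun h => h3.1.2.1 (hD h), e.trans h3.1.2.2⟩,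
      (card_le_card e).trans h3.2⟩)
  refine ⟨A, h3.1.1, h3.1.2.2, h3.1.2.1, fun D hD hne hN => ?_, fun D hbD hN => ?_⟩
  · by_cases haD : a ∈ D
    · exact key D hD haD hN
    · exfalso
      have e := key (A \ D) sdiff_subset (mem_sdiff.2 ⟨h3.1.1, haD⟩) (by
        refine eq_empty_of_forall_notMem fun v hv => ?_
        obtain ⟨h5, h6⟩ := mem_inter.1 hv
        obtain ⟨h7, u, hu, huv⟩ := mem_N.1 h5
        have h8 : v ∈ D := by
          by_contra h
          exact h7 (mem_sdiff.2 ⟨h6, h⟩)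
        have h9 : u ∈ N r D ∩ A :=
          mem_inter.2 ⟨mem_N.2 ⟨(mem_sdiff.1 hu).2, v, h8, hs _ _ huv⟩, (mem_sdiff.1 hu).1⟩
        simp [hN] at h9)
      obtain ⟨v, hv⟩ := hne
      have := hD hv
      rw [← e] at this
      exact (mem_sdiff.1 this).2 hv
  · rw [disjoint_left]
    intro v hvD hvN
    have e : N r (A ∪ D) ⊆ (N r A).erase v := by
      intro x hx
      obtain ⟨h5, u, hu, hux⟩ := mem_N.1 hx
      rw [mem_union, not_or] at h5
      refine mem_erase.2 ⟨fun h => h5.2 (h ▸ hvD), ?_⟩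
      rcases mem_union.1 hu with h | h
      · exact mem_N.2 ⟨h5.1, u, h, hux⟩
      · rcases mem_union.1 (hN (mem_N.2 ⟨h5.2, u, h, hux⟩)) with h' | h'
        · exact absurd h' h5.1
        · exact h'
    have e1 := h2 (A ∪ D) ⟨mem_union_left _ h3.1.1, by simp [h3.1.2.1, hbD],
      e.trans ((erase_subset _ _).trans h3.1.2.2)⟩
    have e2 := card_le_card e
    have e3 := card_erase_of_mem hvN
    have e4 := card_pos.2 ⟨v, hvN⟩
    have := h3.2
    omega

/-! ### Enumeration of the least minimiser -/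

section enum
variable {P A K L K' : Finset V} {b : V}

theorem f_shift (D : Finset V) : f r K D ≤ f r K' D + (K' \ K).card := by
  unfold f
  refine (card_le_card ?_).trans (card_union_le _ _)
  intro v
  simp only [mem_union, mem_sdiff]
  grind

theorem f_shift' {E : Finset V} (h4 : K ⊆ K') (h5 : K' ⊆ K ∪ N r E) :
    f r K' E + (K' \ K).card = f r K E := by
  unfold f
  rw [← card_union_of_disjoint]
  · congr 1
    ext v
    have a := @h4 v
    have b := @h5 v
    simp only [mem_union, mem_sdiff] at b ⊢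
    grind
  · rw [disjoint_left]
    intro v
    simp only [mem_sdiff]
    grind

theorem enum_sub (hP : P ⊆ A) (h : EInv r (Em r P A K) K b L K') :
    Em r P A K ⊆ Em r P L K' := by
  have hE := Em_mn (r := r) K hP
  have hD := Em_mn (r := r) K' (hE.1.trans h.h1)
  have a1 := f_submod (r := r) K' (Em r P A K) (Em r P L K')
  have a2 := hD.2.2 (Em r P A K ∪ Em r P L K') (hE.1.trans subset_union_left)
    (union_subset h.h1 hD.2.1)
  have a3 := f_shift (r := r) (K := K) (K' := K') (Em r P A K ∩ Em r P L K')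
  have a4 := f_shift' h.h4 h.h5
  exact (Em_sub' (subset_inter hE.1 hD.1) (inter_subset_left.trans hE.2.1)
    (by omega)).trans inter_subset_right

theorem enum_done (hA : Side r A b) (hP : P ⊆ A) (hK : K ⊆ N r A)
    (h : EInv r (Em r P A K) K b L K') (hN : N r (Em r P L K') ⊆ K') :
    Em r P L K' = Em r P A K := by
  have hE := Em_mn (r := r) K hP
  have hD := Em_mn (r := r) K' (hE.1.trans h.h1)
  have a1 : Disjoint (Em r P L K') (N r A) := hA.far _ (fun c => h.h2 (hD.2.1 c))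
    (hN.trans (h.h5.trans (union_subset (hK.trans subset_union_right) (N_sub hE.2.1))))
  have a2 : N r (Em r P L K' ∩ A) ⊆ K' := by
    intro v hv
    obtain ⟨h1, u, hu, huv⟩ := mem_N.1 hv
    by_cases h2 : v ∈ Em r P L K'
    · exact absurd (mem_N.2 ⟨fun c => h1 (mem_inter.2 ⟨h2, c⟩), u, (mem_inter.1 hu).2, huv⟩)
        (disjoint_left.1 a1 h2)
    · exact hN (mem_N.2 ⟨h2, u, (mem_inter.1 hu).1, huv⟩)
  have a3 : f r K' (Em r P L K' ∩ A) = 0 := by
    unfold f
    rw [sdiff_eq_empty_iff_subset.2 a2, card_empty]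
  have a4 := f_shift (r := r) (K := K) (K' := K') (Em r P L K' ∩ A)
  have a5 := hE.2.2 (Em r P L K' ∩ A) (subset_inter hD.1 hP) inter_subset_right
  have a6 := f_shift' h.h4 h.h5
  exact Subset.antisymm (Em_sub' hE.1 h.h1 (by omega)) (enum_sub hP h)

theorem enum_zero (hP : P ⊆ A) (h : EInv r (Em r P A K) K b L K')
    (hm : 2 * f r K' (Em r P A K) ≤ f r K' (Em r P L K')) : N r (Em r P L K') ⊆ K' := by
  have hE := Em_mn (r := r) K hP
  have hD := Em_mn (r := r) K' (hE.1.trans h.h1)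
  have a1 := hD.2.2 _ hE.1 h.h1
  have a2 : f r K' (Em r P L K') = 0 := by omega
  exact sdiff_eq_empty_iff_subset.1 (card_eq_zero.1 a2)

theorem enum_step (hs : ∀ u v, r u v → r v u) (hP : P ⊆ A) (h : EInv r (Em r P A K) K b L K')
    {j : ℕ} (hm : 2 * f r K' (Em r P A K) ≤ j + 1 + f r K' (Em r P L K')) {v : V}
    (hv : v ∈ N r (Em r P L K')) (hv' : v ∉ K') :
    ∃ c : Bool, EInv r (Em r P A K) K b (cond c (L.erase v) (L \ insert v (N r {v})))
        (cond c (insert v K') K') ∧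
      2 * f r (cond c (insert v K') K') (Em r P A K) ≤ j + f r (cond c (insert v K') K')
        (Em r P (cond c (L.erase v) (L \ insert v (N r {v}))) (cond c (insert v K') K')) := by
  have hE := Em_mn (r := r) K hP
  have hD := Em_mn (r := r) K' (hE.1.trans h.h1)
  have hvE : v ∉ Em r P A K := fun c => (mem_N.1 hv).1 (enum_sub hP h c)
  by_cases hN : v ∈ N r (Em r P A K)
  · have a0 : Em r P A K ⊆ L.erase v := subset_erase.2 ⟨h.h1, hvE⟩
    refine ⟨true, ⟨a0, fun c => h.h2 (mem_of_mem_erase c), ?_,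
      h.h4.trans (subset_insert _ _), insert_subset (mem_union_right _ hN) h.h5⟩, ?_⟩
    · simp only [cond_true]
      rw [disjoint_insert_right]
      exact ⟨notMem_erase _ _, h.h3.mono_left (erase_subset _ _)⟩
    · simp only [cond_true]
      have hD' := Em_mn (r := r) (insert v K') (hE.1.trans a0)
      have a1 := hD.2.2 _ hD'.1 (hD'.2.1.trans (erase_subset _ _))
      have a2 := f_shift (r := r) (K := K') (K' := insert v K')
        (Em r P (L.erase v) (insert v K'))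
      have a3 := f_shift' (r := r) (E := Em r P A K) (subset_insert v K')
        (insert_subset (mem_union_right _ hN) subset_union_left)
      have a4 : (insert v K' \ K').card = 1 := by
        rw [insert_sdiff_of_notMem _ hv', sdiff_self]; simp
      omega
  · have a0 : Em r P A K ⊆ L \ insert v (N r {v}) := by
      intro x hx
      refine mem_sdiff.2 ⟨h.h1 hx, fun c => ?_⟩
      rcases mem_insert.1 c with c | c
      · exact hvE (c ▸ hx)
      · obtain ⟨-, u, hu, hux⟩ := mem_N.1 c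
        rw [mem_singleton.1 hu] at hux
        exact hN (mem_N.2 ⟨hvE, x, hx, hs _ _ hux⟩)
    refine ⟨false, ⟨a0, fun c => h.h2 (mem_sdiff.1 c).1, h.h3.mono_left sdiff_subset,
      h.h4, h.h5⟩, ?_⟩
    simp only [cond_false]
    have hD' := Em_mn (r := r) K' (hE.1.trans a0)
    by_contra hc
    have a1 := Em_sub' (r := r) (K := K') hD'.1 (hD'.2.1.trans sdiff_subset) (by omega)
    obtain ⟨h1, u, hu, huv⟩ := mem_N.1 hv
    refine (mem_sdiff.1 (hD'.2.1 (a1 hu))).2 (mem_insert_of_mem (mem_N.2 ⟨?_, v, by simp,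
      hs _ _ huv⟩))
    rw [mem_singleton]
    exact fun c => h1 (c ▸ hu)

theorem enum_init (hA : Side r A b) (hP : P ⊆ A) (hK : K ⊆ N r A) :
    EInv r (Em r P A K) K b ((univ \ K).erase b) K := by
  have hE := Em_mn (r := r) K hP
  refine ⟨fun v hv => ?_, notMem_erase _ _, ?_, Subset.rfl, subset_union_left⟩
  · refine mem_erase.2 ⟨fun c => hA.hb (c ▸ hE.2.1 hv), mem_sdiff.2 ⟨mem_univ _, fun c => ?_⟩⟩
    exact (mem_N.1 (hK c)).1 (hE.2.1 hv)
  · exact sdiff_disjoint.mono_left (erase_subset _ _)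

theorem f_Em_le (hP : P ⊆ A) : f r K (Em r P A K) ≤ (N r A \ K).card :=
  (Em_mn (r := r) K hP).2.2 A hP Subset.rfl

end enum

/-! ### Phase one -/

theorem half {A E Kb : Finset V} {u : ℕ} (D : Fin 3 → Finset V) (hD : ∀ i, D i ⊆ A)
    (hd : ∀ i j, i ≠ j → Disjoint (D i) (D j)) (hE : E ⊆ A) (hK : Kb ⊆ N r A)
    (h1 : N r E ∩ N r A ⊆ Kb) (h2 : f r Kb E ≤ u) :
    ∃ i W, 3 * W.card ≤ u ∧ W ⊆ N r E ∩ A ∧ N r (E ∩ D i) ⊆ Kb ∪ W ∪ (N r (D i) ∩ A) := by
  have a1 : ∑ i, (D i ∩ N r E).card ≤ u := by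
    rw [← card_biUnion fun i _ j _ hij => (hd i j hij).mono inter_subset_left inter_subset_left]
    refine (card_le_card fun v hv => ?_).trans h2
    obtain ⟨i, -, hi⟩ := mem_biUnion.1 hv
    exact mem_sdiff.2 ⟨(mem_inter.1 hi).2, fun c => (mem_N.1 (hK c)).1 (hD i (mem_inter.1 hi).1)⟩
  obtain ⟨i, hi⟩ : ∃ i, 3 * (D i ∩ N r E).card ≤ u := by
    by_contra hc
    push Not at hc
    have := hc 0
    have := hc 1
    have := hc 2
    rw [Fin.sum_univ_three] at a1
    omega
  refine ⟨i, _, hi, fun v hv => mem_inter.2 ⟨(mem_inter.1 hv).2, hD i (mem_inter.1 hv).1⟩,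
    fun v hv => ?_⟩
  obtain ⟨b1, x, hx, hxv⟩ := mem_N.1 hv
  rw [mem_inter] at hx b1
  simp only [mem_union, mem_inter]
  by_cases c1 : v ∈ D i
  · exact Or.inl (Or.inr ⟨c1, mem_N.2 ⟨fun c => b1 ⟨c, c1⟩, x, hx.1, hxv⟩⟩)
  by_cases c2 : v ∈ A
  · exact Or.inr ⟨mem_N.2 ⟨c1, x, hx.2, hxv⟩, c2⟩
  · exact Or.inl (Or.inl (h1 (mem_inter.2 ⟨mem_N.2 ⟨fun c => c2 (hE c), x, hx.1, hxv⟩,
      mem_N.2 ⟨c2, x, hE hx.1, hxv⟩⟩)))

theorem exists_ne3 (i : Fin 3) : ∃ j : Fin 3, i ≠ j := by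
  revert i
  decide

/-- Guessed vertices for phase one. -/
def Pts (r r' : V → V → Prop) [DecidableRel r] [DecidableRel r'] (S A A' P P' : Finset V)
    (l : ℕ) : Prop :=
  ∀ K Kb Kr E E' : Finset V, K ⊆ S → Kb ⊆ K → Kr ⊆ K → Kb ⊆ N r A → Kr ⊆ N r' A' →
    P ⊆ E → E ⊆ A → P' ⊆ E' → E' ⊆ A' → N r E ∩ N r A ⊆ Kb → N r' E' ∩ N r' A' ⊆ Kr →
    f r Kb E ≤ (S \ K).card → f r' Kr E' ≤ (S \ K).card → (S \ K).card ≤ 6 * l

theorem stuck {r' : V → V → Prop} [DecidableRel r'] {S A A' : Finset V} {k l : ℕ}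
    (hmin : ∀ S', Sol r S' → Sol r' S' → S.card ≤ S'.card) (hk : S.card ≤ k) (hl : l ≤ k)
    (h : Reg r A (7 * k) (l + 1)) (h' : Reg r' A' (7 * k) (l + 1)) :
    ∃ p p' : Fin 6 → V, (∀ i, p i ∈ A) ∧ (∀ i, p' i ∈ A') ∧
      Pts r r' S A A' (univ.image p) (univ.image p') l := by
  obtain ⟨D, hD, hd⟩ := h
  obtain ⟨D', hD', hd'⟩ := h'
  obtain ⟨F, hF⟩ : ∃ F, F = S ∪ (univ.biUnion fun j => N r (D j) ∩ A) ∪
    (univ.biUnion fun j => N r' (D' j) ∩ A') := ⟨_, rfl⟩
  have hFc : F.card ≤ 7 * k := by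
    have a1 := card_biUnion_le_card_mul univ (fun j => N r (D j) ∩ A) l
      fun j _ => Nat.lt_succ_iff.1 (hD j).2.2
    have a2 := card_biUnion_le_card_mul univ (fun j => N r' (D' j) ∩ A') l
      fun j _ => Nat.lt_succ_iff.1 (hD' j).2.2
    have a3 := card_union_le (S ∪ (univ.biUnion fun j => N r (D j) ∩ A))
      (univ.biUnion fun j => N r' (D' j) ∩ A')
    have a4 := card_union_le S (univ.biUnion fun j => N r (D j) ∩ A)
    rw [card_univ, Fintype.card_fin] at a1 a2
    rw [hF]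
    omega
  choose x hx hxF using fun i => exists_mem_notMem_of_card_lt_card (hFc.trans_lt (hD i).2.1)
  choose y hy hyF using fun i => exists_mem_notMem_of_card_lt_card (hFc.trans_lt (hD' i).2.1)
  have hxA : ∀ i, x i ∈ A := fun i => (hD i).1 (hx i)
  have hyA : ∀ i, y i ∈ A' := fun i => (hD' i).1 (hy i)
  refine ⟨Fin.append x fun j => if y j ∈ A then y j else x j,
    Fin.append y fun j => if x j ∈ A' then x j else y j, fun i => ?_, fun i => ?_, ?_⟩
  · refine Fin.addCases (m := 3) (n := 3) (fun j => ?_) (fun j => ?_) i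
    · rw [Fin.append_left]; exact hxA j
    · rw [Fin.append_right]; split_ifs with c; exacts [c, hxA j]
  · refine Fin.addCases (m := 3) (n := 3) (fun j => ?_) (fun j => ?_) i
    · rw [Fin.append_left]; exact hyA j
    · rw [Fin.append_right]; split_ifs with c; exacts [c, hyA j]
  intro K Kb Kr E E' k1 k2 k3 k4 k5 e1 e2 e3 e4 s1 s2 f1 f2
  have x1 : ∀ i, x i ∈ E := fun i => e1 (mem_image.2 ⟨Fin.castAdd 3 i, mem_univ _,
    Fin.append_left _ _ i⟩)
  have y1 : ∀ i, y i ∈ E' := fun i => e3 (mem_image.2 ⟨Fin.castAdd 3 i, mem_univ _,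
    Fin.append_left _ _ i⟩)
  have y2 : ∀ i, y i ∈ A → y i ∈ E := fun i c => e1 (mem_image.2 ⟨Fin.natAdd 3 i, mem_univ _,
    by rw [Fin.append_right, if_pos c]⟩)
  have x2 : ∀ i, x i ∈ A' → x i ∈ E' := fun i c => e3 (mem_image.2 ⟨Fin.natAdd 3 i, mem_univ _,
    by rw [Fin.append_right, if_pos c]⟩)
  obtain ⟨i, W, w1, w2, w3⟩ := half D (fun i => (hD i).1) hd e2 k4 s1 f1
  obtain ⟨j, W', v1, v2, v3⟩ := half D' (fun i => (hD' i).1) hd' e4 k5 s2 f2
  obtain ⟨T, hT⟩ : ∃ T, T = K ∪ W ∪ (N r (D i) ∩ A) ∪ W' ∪ (N r' (D' j) ∩ A') := ⟨_, rfl⟩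
  have t1 : ∀ v, v ∉ F → (v ∈ A → v ∈ E) → (v ∈ A' → v ∈ E') → v ∉ T := by
    intro v c1 c2 c3 c
    rw [hT] at c
    rw [hF] at c1
    simp only [mem_union, mem_biUnion, mem_univ, true_and, not_or, not_exists] at c c1
    rcases c with (((c | c) | c) | c) | c
    · exact c1.1.1 (k1 c)
    · exact (mem_N.1 (mem_inter.1 (w2 c)).1).1 (c2 (mem_inter.1 (w2 c)).2)
    · exact c1.1.2 i c
    · exact (mem_N.1 (mem_inter.1 (v2 c)).1).1 (c3 (mem_inter.1 (v2 c)).2)
    · exact c1.2 j c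
  obtain ⟨i', hi'⟩ := exists_ne3 i
  obtain ⟨j', hj'⟩ := exists_ne3 j
  have t2 := hmin T ⟨E ∩ D i, x i, x i', mem_inter.2 ⟨x1 i, hx i⟩,
      t1 _ (hxF i) (fun _ => x1 i) (x2 i),
      fun c => disjoint_left.1 (hd i i' hi') (mem_inter.1 c).2 (hx i'),
      t1 _ (hxF i') (fun _ => x1 i') (x2 i'), w3.trans (by
        rw [hT]
        exact (union_subset_union (union_subset_union k2 Subset.rfl) Subset.rfl).trans
          (subset_union_left.trans subset_union_left))⟩
    ⟨E' ∩ D' j, y j, y j', mem_inter.2 ⟨y1 j, hy j⟩,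
      t1 _ (hyF j) (y2 j) (fun _ => y1 j),
      fun c => disjoint_left.1 (hd' j j' hj') (mem_inter.1 c).2 (hy j'),
      t1 _ (hyF j') (y2 j') (fun _ => y1 j'), v3.trans (by
        rw [hT]
        refine union_subset_union (union_subset_union (k3.trans ?_) Subset.rfl) Subset.rfl
        exact subset_union_left.trans subset_union_left)⟩
  have t3 : T.card ≤ K.card + W.card + (N r (D i) ∩ A).card + W'.card +
      (N r' (D' j) ∩ A').card := by
    rw [hT]
    refine (card_union_le _ _).trans (Nat.add_le_add_right ?_ _)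
    refine (card_union_le _ _).trans (Nat.add_le_add_right ?_ _)
    refine (card_union_le _ _).trans (Nat.add_le_add_right ?_ _)
    exact card_union_le _ _
  have t4 := card_sdiff_add_card_eq_card k1
  have t5 := (hD i).2.2
  have t6 := (hD' j).2.2
  omega

/-! ### Phase two -/

theorem ring (hs : ∀ u v, r u v → r v u) (E F : Finset V) :
    N r (F \ (E ∪ N r E)) ⊆ (N r E ∩ F) ∪ (N r F \ E) := by
  intro v hv
  obtain ⟨h1, u, hu, huv⟩ := mem_N.1 hv
  simp only [mem_sdiff, mem_union, mem_inter, not_or, not_and, not_not] at h1 hu ⊢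
  have h2 : v ∉ E := fun c => hu.2.2 (mem_N.2 ⟨hu.2.1, v, c, hs _ _ huv⟩)
  by_cases h3 : v ∈ F
  · exact Or.inl ⟨h1 h3 h2, h3⟩
  · exact Or.inr ⟨mem_N.2 ⟨h3, u, hu.1, huv⟩, h2⟩

theorem indep {α : Type} [DecidableEq α] (out : α → Finset α) (e : ℕ) :
    ∀ (m : ℕ) (T : Finset α), (∀ x ∈ T, (T.filter fun y => y ∈ out x).card ≤ e) →
      (2 * e + 1) * m ≤ T.card →
      ∃ I ⊆ T, I.card = m ∧ ∀ x ∈ I, ∀ y ∈ I, x ≠ y → y ∉ out x := by
  intro m
  induction m with
  | zero => exact fun T _ _ => ⟨∅, empty_subset _, rfl, by simp⟩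
  | succ m ih =>
    intro T hT hc
    have hne : T.Nonempty := card_pos.1 (by nlinarith)
    obtain ⟨v, hv, hve⟩ : ∃ v ∈ T, (T.filter fun x => v ∈ out x).card ≤ e := by
      refine exists_le_of_sum_le (g := fun _ => e) hne ?_
      have := sum_card_bipartiteAbove_eq_sum_card_bipartiteBelow (s := T) (t := T)
        (r := fun x y => y ∈ out x)
      simp only [bipartiteAbove, bipartiteBelow] at this
      rw [← this]
      exact sum_le_sum hT
    obtain ⟨B, hB⟩ : ∃ B, B = insert v ((T.filter fun y => y ∈ out v) ∪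
      T.filter fun x => v ∈ out x) := ⟨_, rfl⟩
    have b1 : B.card ≤ 2 * e + 1 := by
      have a1 := card_union_le (T.filter fun y => y ∈ out v) (T.filter fun x => v ∈ out x)
      have a2 := card_insert_le v ((T.filter fun y => y ∈ out v) ∪ T.filter fun x => v ∈ out x)
      have a3 := hT v hv
      rw [hB]
      omega
    obtain ⟨I, h1, h2, h3⟩ := ih (T \ B) (fun x hx => (card_le_card
      (filter_subset_filter _ sdiff_subset)).trans (hT x (mem_sdiff.1 hx).1)) (by
        have := le_card_sdiff B T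
        rw [Nat.mul_succ] at hc
        omega)
    have b2 : ∀ x ∈ I, x ≠ v ∧ x ∉ out v ∧ v ∉ out x := by
      intro x hx
      have := mem_sdiff.1 (h1 hx)
      rw [hB] at this
      simp only [mem_insert, mem_union, mem_filter, not_or, not_and] at this
      exact ⟨this.2.1, this.2.2.1 this.1, this.2.2.2 this.1⟩
    refine ⟨insert v I, insert_subset hv (h1.trans sdiff_subset), ?_, ?_⟩
    · rw [card_insert_of_notMem fun c => (b2 v c).1 rfl, h2]
    · intro x hx y hy hxy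
      rcases mem_insert.1 hx with c | c <;> rcases mem_insert.1 hy with d | d
      · exact absurd (c.trans d.symm) hxy
      · exact c ▸ (b2 y d).2.1
      · exact d ▸ (b2 x c).2.2
      · exact h3 x c y d hxy

section two
variable {A K E0 : Finset V}

theorem f_split {D : Finset V} (hK : K ⊆ N r A) (h : D ⊆ A) :
    f r K D = (N r D ∩ A).card + dd r A K D := by
  unfold f dd
  rw [← card_union_of_disjoint]
  · congr 1
    ext v
    have a := @N_sub _ _ _ r _ _ _ h v
    have b := @hK v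
    have c : v ∈ N r A → v ∉ A := fun c => (mem_N.1 c).1
    simp only [mem_union, mem_sdiff, mem_inter] at a ⊢
    grind
  · rw [disjoint_left]
    intro v h1 h2
    exact (mem_N.1 (mem_inter.1 (mem_sdiff.1 h2).1).2).1 (mem_inter.1 h1).2

theorem N_mono {D D' : Finset V} (h : D ⊆ D') (h' : D' ⊆ A) :
    N r D ∩ N r A ⊆ N r D' ∩ N r A := by
  intro v hv
  obtain ⟨h1, h2⟩ := mem_inter.1 hv
  obtain ⟨-, u, hu, huv⟩ := mem_N.1 h1
  exact mem_inter.2 ⟨mem_N.2 ⟨fun c => (mem_N.1 h2).1 (h' c), u, h hu, huv⟩, h2⟩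

theorem dd_mono {D D' : Finset V} (h : D ⊆ D') (h' : D' ⊆ A) : dd r A K D ≤ dd r A K D' :=
  card_le_card (sdiff_subset_sdiff (N_mono h h') Subset.rfl)

theorem f_union {ι : Type} [DecidableEq ι]
    (hl : ∀ D, E0 ⊆ D → D ⊆ A → f r K E0 ≤ f r K D) (H : ι → Finset V) (e : ℕ) (s : Finset ι)
    (hH : ∀ i ∈ s, E0 ⊆ H i ∧ H i ⊆ A ∧ f r K (H i) ≤ f r K E0 + e) :
    f r K (E0 ∪ s.biUnion H) ≤ f r K E0 + s.card * e := by
  induction s using Finset.induction_on with
  | empty => simp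
  | insert i s hi ih =>
    have a1 := ih fun j hj => hH j (mem_insert_of_mem hj)
    obtain ⟨b1, b2, b3⟩ := hH i (mem_insert_self _ _)
    have a2 := f_submod (r := r) K (H i) (E0 ∪ s.biUnion H)
    have a3 := hl _ (subset_inter b1 (subset_union_left (s₂ := s.biUnion H)))
      (inter_subset_left.trans b2)
    rw [biUnion_insert, union_left_comm, card_insert_of_notMem hi, Nat.succ_mul]
    omega

/-- Balls inside `A`. -/
def ball (r : V → V → Prop) [DecidableRel r] (A : Finset V) (p : V) : ℕ → Finset V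
  | 0 => {p}
  | s + 1 => (ball r A p s ∪ N r (ball r A p s)) ∩ A

theorem grow (hc : ∀ D ⊆ A, D.Nonempty → N r D ∩ A = ∅ → D = A) (E : ℕ → Finset V) (R : ℕ)
    (h0 : (E 0).Nonempty) (hA : ∀ s, E s ⊆ A) (hcl : ∀ s, (E s ∪ N r (E s)) ∩ A ⊆ E (s + 1))
    (hne : ∀ s < R, E s ≠ A) : (∀ s t, E s ⊆ E (s + t)) ∧
      ∀ s t, s + t ≤ R → (E s).card + t ≤ (E (s + t)).card := by
  have h1 : ∀ s, E s ⊆ E (s + 1) := fun s =>
    (subset_inter subset_union_left (hA s)).trans (hcl s)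
  have h2 : ∀ s t, E s ⊆ E (s + t) := fun s t => by
    induction t with
    | zero => exact Subset.rfl
    | succ t ih => exact ih.trans (h1 _)
  refine ⟨h2, fun s t => ?_⟩
  induction t with
  | zero => simp
  | succ t ih =>
    intro ht
    have a1 := ih (by omega)
    have a2 : (N r (E (s + t)) ∩ A).Nonempty := nonempty_iff_ne_empty.2 fun c =>
      hne _ (by omega) (hc _ (hA _) (h0.mono (by simpa using h2 0 (s + t))) c)
    obtain ⟨v, hv⟩ := a2
    have a3 := card_lt_card ((ssubset_iff_of_subset (h1 (s + t))).2 ⟨v, hcl _ (mem_inter.2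
      ⟨mem_union_right _ (mem_inter.1 hv).1, (mem_inter.1 hv).2⟩), (mem_N.1 (mem_inter.1 hv).1).1⟩)
    show _ ≤ (E (s + t + 1)).card
    omega

theorem ball_sub {p : V} (E : ℕ → Finset V) (h0 : p ∈ E 0)
    (hcl : ∀ s, (E s ∪ N r (E s)) ∩ A ⊆ E (s + 1)) (s : ℕ) : ball r A p s ⊆ E s := by
  induction s with
  | zero => simpa [ball] using h0
  | succ s ih =>
    refine Subset.trans (fun v hv => ?_) (hcl s)
    obtain ⟨h1, h2⟩ := mem_inter.1 hv
    refine mem_inter.2 ⟨?_, h2⟩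
    rcases mem_union.1 h1 with c | c
    · exact mem_union_left _ (ih c)
    · obtain ⟨-, u, hu, huv⟩ := mem_N.1 c
      by_cases d : v ∈ E s
      · exact mem_union_left _ d
      · exact mem_union_right _ (mem_N.2 ⟨d, u, ih hu, huv⟩)

theorem ball_A {p : V} (hp : p ∈ A) (s : ℕ) : ball r A p s ⊆ A := by
  cases s with
  | zero => simpa [ball] using hp
  | succ s => exact inter_subset_right

theorem ball_hit (hs : ∀ u v, r u v → r v u) {p : V} (hp : p ∈ A) (E : ℕ → Finset V)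
    (hcl : ∀ s, (E s ∪ N r (E s)) ∩ A ⊆ E (s + 1)) (t : ℕ) :
    ∀ s v, v ∈ ball r A p t → v ∈ E s → p ∈ E (s + t) := by
  induction t with
  | zero =>
    intro s v h1 h2
    simp only [ball, mem_singleton] at h1
    exact h1 ▸ h2
  | succ t ih =>
    intro s v h1 h2
    obtain ⟨h3, h4⟩ := mem_inter.1 h1
    rw [show s + (t + 1) = s + 1 + t by omega]
    rcases mem_union.1 h3 with c | c
    · exact ih _ v c (hcl s (mem_inter.2 ⟨mem_union_left _ h2, h4⟩))
    · obtain ⟨-, u, hu, huv⟩ := mem_N.1 c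
      refine ih _ u hu (hcl s (mem_inter.2 ⟨?_, ball_A hp t hu⟩))
      by_cases d : u ∈ E s
      · exact mem_union_left _ d
      · exact mem_union_right _ (mem_N.2 ⟨d, v, h2, hs _ _ huv⟩)

theorem core (hs : ∀ u v, r u v → r v u) (hc : ∀ D ⊆ A, D.Nonempty → N r D ∩ A = ∅ → D = A)
    (hK : K ⊆ N r A) (hAne : A.Nonempty) {l e q : ℕ} (he : 435 * e < l)
    (ht : (N r A \ K).card ≤ 6 * l) (h0 : E0 ⊆ A)
    (hl : ∀ D, E0 ⊆ D → D ⊆ A → f r K E0 ≤ f r K D) (E : V → ℕ → Finset V)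
    (e0 : ∀ p ∈ A, ∀ s, E0 ⊆ E p s) (eA : ∀ p ∈ A, ∀ s, E p s ⊆ A) (ep : ∀ p ∈ A, p ∈ E p 0)
    (ecl : ∀ p ∈ A, ∀ s, (E p s ∪ N r (E p s)) ∩ A ⊆ E p (s + 1))
    (ef : ∀ p ∈ A, ∀ s ≤ 3 * (q + 2), f r K (E p s) ≤ f r K E0 + e)
    (ed : ∀ p ∈ A, dd r A K (E p (3 * (q + 2))) ≤ dd r A K E0 + e)
    (ene : ∀ p ∈ A, ∀ s < 3 * (q + 2), E p s ≠ A) : Reg r A q l := by
  have hw := f_split hK h0
  obtain ⟨w, hwd⟩ : ∃ w, w = (N r E0 ∩ A).card := ⟨_, rfl⟩
  rw [← hwd] at hw
  have hg : ∀ D x, E0 ⊆ D → D ⊆ A → f r K D ≤ f r K E0 + x → (N r D ∩ A).card ≤ w + x := by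
    intro D x a1 a2 a3
    have := f_split hK a2
    have := dd_mono (r := r) (K := K) a1 a2
    omega
  have gr := fun p hp => grow hc (E p) (3 * (q + 2)) ⟨p, ep p hp⟩ (eA p hp) (ecl p hp) (ene p hp)
  have mono : ∀ p ∈ A, ∀ s t, s ≤ t → E p s ⊆ E p t := fun p hp s t h => by
    obtain ⟨d, rfl⟩ := Nat.exists_eq_add_of_le h
    exact (gr p hp).1 s d
  by_cases hsm : 2 * (w + e) < l
  · obtain ⟨p, hp⟩ := hAne
    refine ⟨fun i => E p ((i + 1) * (q + 2)) \ (E p (i * (q + 2)) ∪ N r (E p (i * (q + 2)))),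
      fun i => ⟨sdiff_subset.trans (eA p hp _), ?_, ?_⟩, ?_⟩
    · have hi : (i + 1) * (q + 2) ≤ 3 * (q + 2) := Nat.mul_le_mul_right _ i.2
      have a1 := (gr p hp).2 (i * (q + 2) + 1) (q + 1) (by rw [Nat.succ_mul] at hi; omega)
      rw [show i * (q + 2) + 1 + (q + 1) = (i + 1) * (q + 2) by ring] at a1
      have a2 := le_card_sdiff (E p (i * (q + 2) + 1)) (E p ((i + 1) * (q + 2)))
      refine lt_of_lt_of_le (by omega : q < _) (a2.trans (card_le_card fun v hv => ?_))
      obtain ⟨b1, b2⟩ := mem_sdiff.1 hv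
      exact mem_sdiff.2 ⟨b1, fun c => b2 (ecl p hp _ (mem_inter.2 ⟨c, eA p hp _ b1⟩))⟩
    · have hi : (i + 1) * (q + 2) ≤ 3 * (q + 2) := Nat.mul_le_mul_right _ i.2
      have a1 := hg _ e (e0 p hp _) (eA p hp _) (ef p hp _ hi)
      have a2 := hg _ e (e0 p hp _) (eA p hp _) (ef p hp (i * (q + 2))
        (by rw [Nat.succ_mul] at hi; omega))
      have a3 := card_union_le (N r (E p (i * (q + 2))) ∩ A) (N r (E p ((i + 1) * (q + 2))) ∩ A)
      refine lt_of_le_of_lt ((card_le_card fun v hv => ?_).trans a3) (by omega)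
      obtain ⟨b1, b2⟩ := mem_inter.1 hv
      rcases mem_union.1 (ring hs _ _ b1) with c | c
      · exact mem_union_left _ (mem_inter.2 ⟨(mem_inter.1 c).1, b2⟩)
      · exact mem_union_right _ (mem_inter.2 ⟨(mem_sdiff.1 c).1, b2⟩)
    · have key : ∀ i j : Fin 3, i < j → Disjoint
          (E p ((i + 1) * (q + 2)) \ (E p (i * (q + 2)) ∪ N r (E p (i * (q + 2)))))
          (E p ((j + 1) * (q + 2)) \ (E p (j * (q + 2)) ∪ N r (E p (j * (q + 2))))) := by
        intro i j hij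
        rw [disjoint_left]
        intro v a1 a2
        exact (mem_sdiff.1 a2).2 (mem_union_left _ (mono p hp _ _
          (Nat.mul_le_mul_right _ hij) (mem_sdiff.1 a1).1))
      intro i j hij
      rcases lt_or_gt_of_ne hij with c | c
      exacts [key i j c, (key j i c).symm]
  obtain ⟨T, hT⟩ : ∃ T, T = (N r A \ K) \ N r E0 := ⟨_, rfl⟩
  have t1 : w ≤ T.card := by
    have a1 := hl A h0 Subset.rfl
    have a2 : T.card + dd r A K E0 = (N r A \ K).card := by
      rw [hT, ← card_sdiff_add_card_inter (N r A \ K) (N r E0)]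
      unfold dd
      congr 2
      ext v
      simp only [mem_sdiff, mem_inter]
      tauto
    unfold f at a1 hw
    omega
  have t2 : ∀ x, ∃ p, x ∈ T → p ∈ A ∧ r p x := fun x => by
    by_cases c : x ∈ T
    · rw [hT] at c
      obtain ⟨-, u, hu, h⟩ := mem_N.1 (mem_sdiff.1 (mem_sdiff.1 c).1).1
      exact ⟨u, fun _ => ⟨hu, h⟩⟩
    · exact ⟨x, fun d => absurd d c⟩
  choose p hp using t2
  have tA : ∀ x ∈ T, x ∉ A := fun x c => by
    rw [hT] at c
    exact (mem_N.1 (mem_sdiff.1 (mem_sdiff.1 c).1).1).1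
  have t3 : ∀ x ∈ T, (T.filter fun y => y ∈ N r (E (p x) (3 * (q + 2)))).card ≤ e := by
    intro x hx
    have a1 := ed _ (hp x hx).1
    have a2 := N_mono (r := r) (e0 _ (hp x hx).1 (3 * (q + 2))) (eA _ (hp x hx).1 _)
    have a3 := card_sdiff_add_card_eq_card (sdiff_subset_sdiff a2 (Subset.refl K))
    unfold dd at a1
    refine le_trans (card_le_card fun v hv => ?_) (by omega : (((N r (E (p x) (3 * (q + 2))) ∩
      N r A) \ K) \ ((N r E0 ∩ N r A) \ K)).card ≤ e)
    rw [hT] at hv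
    simp only [mem_filter, mem_sdiff, mem_inter] at hv ⊢
    tauto
  have t4 : ∀ x ∈ T, ∀ y ∈ T, ∀ s ≤ 3 * (q + 2), p y ∈ E (p x) s →
      y ∈ N r (E (p x) (3 * (q + 2))) := fun x hx y hy s h1 h2 =>
    mem_N.2 ⟨fun c => tA y hy (eA _ (hp x hx).1 _ c), p y, mono _ (hp x hx).1 _ _ h1 h2,
      (hp y hy).2⟩
  have t5 : 1 ≤ e := by
    obtain ⟨x, hx⟩ : T.Nonempty := card_pos.1 (by omega)
    exact le_trans (card_pos.2 ⟨x, mem_filter.2 ⟨hx, t4 x hx x hx 0 (Nat.zero_le _)
      (ep _ (hp x hx).1)⟩⟩) (t3 x hx)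
  obtain ⟨I, hI, hI15, hind⟩ := indep (fun x => N r (E (p x) (3 * (q + 2)))) e 15 T t3 (by omega)
  have pA : ∀ x ∈ I, p x ∈ A := fun x hx => (hp x (hI hx)).1
  obtain ⟨H, hH⟩ : ∃ H : V → Finset V, ∀ x, H x = (I.erase x).biUnion fun y => E (p y) (q + 1) :=
    ⟨_, fun _ => rfl⟩
  have mH : ∀ x v, v ∈ H x ↔ ∃ y ∈ I, y ≠ x ∧ v ∈ E (p y) (q + 1) := fun x v => by
    rw [hH]
    simp only [mem_biUnion, mem_erase]
    tauto
  obtain ⟨D, hD⟩ : ∃ D : V → Finset V, ∀ x, D x = E (p x) q \ (H x ∪ N r (H x)) :=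
    ⟨_, fun _ => rfl⟩
  have d1 : ∀ x ∈ I, q < (D x).card := by
    intro x hx
    have a1 := ball_sub (r := r) (A := A) (E (p x)) (ep _ (pA x hx)) (ecl _ (pA x hx))
    have a2 := (grow hc (ball r A (p x)) q (by simp [ball]) (ball_A (pA x hx))
      (fun s => Subset.rfl) fun s h c => ene _ (pA x hx) s (by omega)
        (Subset.antisymm (eA _ (pA x hx) _) (c ▸ a1 s))).2 0 q (by omega)
    simp only [ball, card_singleton, zero_add] at a2
    refine lt_of_lt_of_le (by omega : q < (ball r A (p x) q).card) (card_le_card fun v hv => ?_)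
    rw [hD]
    refine mem_sdiff.2 ⟨a1 q hv, fun c => ?_⟩
    obtain ⟨y, hy, hyx, b⟩ : ∃ y ∈ I, y ≠ x ∧ v ∈ E (p y) (q + 1 + 1) := by
      have vA := ball_A (pA x hx) q hv
      rcases mem_union.1 c with c | c
      · obtain ⟨y, hy, hyx, b⟩ := (mH x v).1 c
        exact ⟨y, hy, hyx, mono _ (pA y hy) _ _ (by omega) b⟩
      · obtain ⟨c1, u, hu, huv⟩ := mem_N.1 c
        obtain ⟨y, hy, hyx, b⟩ := (mH x u).1 hu
        exact ⟨y, hy, hyx, ecl _ (pA y hy) _ (mem_inter.2 ⟨mem_union_right _ (mem_N.2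
          ⟨fun d => c1 ((mH x v).2 ⟨y, hy, hyx, d⟩), u, b, huv⟩), vA⟩)⟩
    exact hind y hy x hx hyx (t4 y (hI hy) x (hI hx) _ (by omega)
      (ball_hit hs (pA x hx) (E (p y)) (ecl _ (pA y hy)) q _ v hv b))
  have d2 : ∑ x ∈ I, ((N r (E (p x) q) \ H x) ∩ A).card ≤ w + 15 * e := by
    have a1 := f_union hl (fun x => E (p x) q) e I fun x hx =>
      ⟨e0 _ (pA x hx) _, eA _ (pA x hx) _, ef _ (pA x hx) _ (by omega)⟩
    rw [hI15] at a1
    have a2 : ∀ x ∈ I, ∀ y ∈ I, y ≠ x → ∀ v ∈ (N r (E (p x) q) \ H x) ∩ A,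
        v ∉ E (p y) (q + 1) := fun x _ y hy hyx v hv c =>
      (mem_sdiff.1 (mem_inter.1 hv).1).2 ((mH x v).2 ⟨y, hy, hyx, c⟩)
    rw [← card_biUnion]
    · refine (card_le_card fun v hv => ?_).trans (hg _ _ subset_union_left (union_subset h0
        (biUnion_subset.2 fun x hx => eA _ (pA x hx) _)) a1)
      obtain ⟨x, hx, hv⟩ := mem_biUnion.1 hv
      obtain ⟨b1, u, hu, huv⟩ := mem_N.1 (mem_sdiff.1 (mem_inter.1 hv).1).1
      refine mem_inter.2 ⟨mem_N.2 ⟨fun c => ?_, u, mem_union_right _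
        (mem_biUnion.2 ⟨x, hx, hu⟩), huv⟩, (mem_inter.1 hv).2⟩
      rcases mem_union.1 c with c | c
      · exact b1 (e0 _ (pA x hx) _ c)
      · obtain ⟨y, hy, c⟩ := mem_biUnion.1 c
        by_cases d : y = x
        · exact b1 (d ▸ c)
        · exact a2 x hx y hy d v hv (mono _ (pA y hy) _ _ (by omega) c)
    · intro x hx y hy hxy
      refine disjoint_left.2 fun v b1 b2 => a2 x hx y hy hxy.symm v b1 (ecl _ (pA y hy) _
        (mem_inter.2 ⟨mem_union_right _ (mem_sdiff.1 (mem_inter.1 b2).1).1, (mem_inter.1 b2).2⟩))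
  have d3 : ∑ x ∈ I, (N r (H x) ∩ E (p x) q).card ≤ w + 210 * (2 * e) := by
    have a1 := f_union hl (fun z : V × V => E (p z.1) (q + 1) ∩ E (p z.2) (q + 1)) (2 * e)
      I.offDiag fun z hz => by
        obtain ⟨c1, c2, -⟩ := mem_offDiag.1 hz
        have b1 := f_submod (r := r) K (E (p z.1) (q + 1)) (E (p z.2) (q + 1))
        have b2 := hl _ ((e0 _ (pA _ c1) (q + 1)).trans subset_union_left)
          (union_subset (eA _ (pA _ c1) _) (eA _ (pA _ c2) (q + 1)))
        have b3 := ef _ (pA _ c1) (q + 1) (by omega)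
        have b4 := ef _ (pA _ c2) (q + 1) (by omega)
        exact ⟨subset_inter (e0 _ (pA _ c1) _) (e0 _ (pA _ c2) _),
          inter_subset_left.trans (eA _ (pA _ c1) _), by omega⟩
    rw [offDiag_card, hI15] at a1
    rw [← card_biUnion]
    · refine (card_le_card fun v hv => ?_).trans (hg _ _ subset_union_left (union_subset h0
        (biUnion_subset.2 fun z hz => inter_subset_left.trans
          (eA _ (pA _ (mem_offDiag.1 hz).1) _))) a1)
      obtain ⟨x, hx, hv⟩ := mem_biUnion.1 hv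
      obtain ⟨b0, b2⟩ := mem_inter.1 hv
      obtain ⟨b1, u, hu, huv⟩ := mem_N.1 b0
      obtain ⟨y, hy, hyx, b3⟩ := (mH x u).1 hu
      refine mem_inter.2 ⟨mem_N.2 ⟨fun c => b1 ((mH x v).2 ?_), u, mem_union_right _
        (mem_biUnion.2 ⟨(x, y), mem_offDiag.2 ⟨hx, hy, hyx.symm⟩, mem_inter.2 ⟨?_, b3⟩⟩), huv⟩,
        eA _ (pA x hx) _ b2⟩
      · rcases mem_union.1 c with c | c
        · exact ⟨y, hy, hyx, e0 _ (pA y hy) _ c⟩
        · obtain ⟨z, hz, c⟩ := mem_biUnion.1 c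
          obtain ⟨c1, c2, c3⟩ := mem_offDiag.1 hz
          by_cases d : z.1 = x
          · exact ⟨z.2, c2, fun d' => c3 (d.trans d'.symm), (mem_inter.1 c).2⟩
          · exact ⟨z.1, c1, d, (mem_inter.1 c).1⟩
      · refine ecl _ (pA x hx) _ (mem_inter.2 ⟨?_, eA _ (pA y hy) _ b3⟩)
        by_cases d : u ∈ E (p x) q
        · exact mem_union_left _ d
        · exact mem_union_right _ (mem_N.2 ⟨d, v, b2, hs _ _ huv⟩)
    · intro x hx y hy hxy
      refine disjoint_left.2 fun v b1 b2 => (mem_N.1 (mem_inter.1 b1).1).1 ((mH x v).2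
        ⟨y, hy, hxy.symm, mono _ (pA y hy) _ _ (by omega) (mem_inter.1 b2).2⟩)
  have d4 : ∑ x ∈ I, (N r (D x) ∩ A).card ≤ 2 * w + 435 * e := by
    refine le_trans (sum_le_sum fun x _ => ?_) ((sum_add_distrib.trans_le
      (Nat.add_le_add d3 d2)).trans (by omega))
    refine (card_le_card fun v hv => ?_).trans (card_union_le _ _)
    rw [hD] at hv
    obtain ⟨b1, b2⟩ := mem_inter.1 hv
    rcases mem_union.1 (ring hs _ _ b1) with c | c
    · exact mem_union_left _ c
    · exact mem_union_right _ (mem_inter.2 ⟨c, b2⟩)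
  obtain ⟨J, hJ⟩ : ∃ J, J = I.filter fun x => (N r (D x) ∩ A).card < l := ⟨_, rfl⟩
  have j1 : 3 ≤ J.card := by
    by_contra c
    have a1 := card_filter_add_card_filter_not (s := I) fun x => (N r (D x) ∩ A).card < l
    have a2 := card_nsmul_le_sum (I.filter fun x => ¬ (N r (D x) ∩ A).card < l)
      (fun x => (N r (D x) ∩ A).card) l fun x hx => not_lt.1 (mem_filter.1 hx).2
    have a3 := a2.trans ((sum_le_sum_of_subset (filter_subset _ _)).trans d4)
    have a4 : w ≤ 6 * l := t1.trans ((card_le_card (hT ▸ sdiff_subset)).trans ht)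
    rw [← hJ, hI15] at a1
    have a5 := Nat.mul_le_mul_right l (by omega :
      13 ≤ (I.filter fun x => ¬ (N r (D x) ∩ A).card < l).card)
    rw [smul_eq_mul] at a3
    omega
  have j2 : ∀ i : Fin 3, (J.equivFin.symm (Fin.castLE j1 i)).1 ∈
      I.filter fun x => (N r (D x) ∩ A).card < l := fun i => hJ ▸ (J.equivFin.symm _).2
  refine ⟨fun i => D (J.equivFin.symm (Fin.castLE j1 i)).1, fun i => ?_, fun i j hij => ?_⟩
  · obtain ⟨a1, a2⟩ := mem_filter.1 (j2 i)
    exact ⟨(hD _).subset.trans (sdiff_subset.trans (eA _ (pA _ a1) _)), d1 _ a1, a2⟩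
  · have a1 := (mem_filter.1 (j2 i)).1
    refine disjoint_left.2 fun v b1 b2 => ?_
    beta_reduce at b1 b2
    rw [hD] at b1 b2
    refine (mem_sdiff.1 b2).2 (mem_union_left _ ((mH _ v).2 ⟨_, a1, fun c => hij ?_,
      mono _ (pA _ a1) _ _ (by omega) (mem_sdiff.1 b1).1⟩))
    exact Fin.castLE_injective j1 (J.equivFin.symm.injective (Subtype.ext c))

theorem cl_sub (P : Finset V) : cl r A K P ⊆ A := inter_subset_right

theorem sub_cl {P : Finset V} (h : P ⊆ A) : Em r P A K ⊆ cl r A K P :=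
  subset_inter subset_union_left (Em_mn K h).2.1

theorem iter_sub {P : Finset V} (h : P ⊆ A) (s : ℕ) : (cl r A K)^[s] P ⊆ A := by
  cases s with
  | zero => exact h
  | succ s => rw [Function.iterate_succ_apply']; exact cl_sub _

theorem iter_mono {P : Finset V} (h : P ⊆ A) {s t : ℕ} (hst : s ≤ t) :
    (cl r A K)^[s] P ⊆ (cl r A K)^[t] P := by
  induction hst with
  | refl => exact Subset.rfl
  | step _ ih =>
    rw [Function.iterate_succ_apply']
    exact ih.trans ((Em_mn K (iter_sub h _)).1.trans (sub_cl (iter_sub h _)))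

theorem f_mono {P Q : Finset V} (h1 : P ⊆ Q) (h2 : Q ⊆ A) :
    f r K (Em r P A K) ≤ f r K (Em r Q A K) :=
  (Em_mn K (h1.trans h2)).2.2 _ (h1.trans (Em_mn K h2).1) (Em_mn K h2).2.1

theorem round {b : V} (hs : ∀ u v, r u v → r v u) (hA : Side r A b) (hK : K ⊆ N r A)
    (hAne : A.Nonempty) {l e q : ℕ} (he : 435 * e < l) (ht : (N r A \ K).card ≤ 6 * l)
    (hR : ¬ Reg r A q l) {P : Finset V} (hP : P ⊆ A) :
    ∃ p ∈ A, (cl r A K)^[3 * (q + 2)] (insert p P) = A ∨
      Phi r A K P + (e + 1) ≤ Phi r A K ((cl r A K)^[3 * (q + 2)] (insert p P)) := by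
  by_contra hc
  push Not at hc
  have i1 : ∀ p ∈ A, insert p P ⊆ A := fun p hp => insert_subset hp hP
  have i2 : ∀ p ∈ A, ∀ s, P ⊆ (cl r A K)^[s] (insert p P) := fun p hp s =>
    (subset_insert p P).trans (iter_mono (i1 p hp) (Nat.zero_le s))
  have i3 : ∀ p ∈ A, ∀ s, Em r P A K ⊆ Em r ((cl r A K)^[s] (insert p P)) A K := fun p hp s =>
    Em_mono K (i2 p hp s) (iter_sub (i1 p hp) s)
  have i4 := fun p hp s => Em_mn (r := r) K (iter_sub (r := r) (K := K) (i1 p hp) s)
  refine hR (core hs hA.conn hK hAne he ht (Em_mn K hP).2.1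
    (fun D a b => (Em_mn K hP).2.2 D ((Em_mn K hP).1.trans a) b)
    (fun p s => Em r ((cl r A K)^[s] (insert p P)) A K) i3 (fun p hp s => (i4 p hp s).2.1)
    (fun p hp => (i4 p hp 0).1 (mem_insert_self _ _)) (fun p hp s => ?_) (fun p hp s h => ?_)
    (fun p hp => ?_) fun p hp s h c => ?_)
  · refine Subset.trans ?_ (i4 p hp (s + 1)).1
    rw [Function.iterate_succ_apply']
    exact Subset.rfl
  · have a1 := (hc p hp).2
    have a2 := f_mono (r := r) (K := K) (iter_mono (r := r) (K := K) (i1 p hp) h)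
      (iter_sub (i1 p hp) _)
    have a3 := dd_mono (r := r) (K := K) (i3 p hp (3 * (q + 2))) (i4 p hp _).2.1
    unfold Phi at a1
    omega
  · have a1 := (hc p hp).2
    have a2 := f_mono (r := r) (K := K) (i2 p hp (3 * (q + 2))) (iter_sub (i1 p hp) _)
    unfold Phi at a1
    omega
  · refine (hc p hp).1 (Subset.antisymm (iter_sub (i1 p hp) _) (Subset.trans ?_
      (iter_mono (i1 p hp) (Nat.succ_le_of_lt h))))
    rw [Function.iterate_succ_apply']
    exact c.symm.subset.trans (sub_cl (iter_sub (i1 p hp) s))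

theorem Phi_le {P : Finset V} (hP : P ⊆ A) : Phi r A K P ≤ 2 * (N r A \ K).card := by
  have a1 := f_Em_le (r := r) (K := K) hP
  have a2 : dd r A K (Em r P A K) ≤ (N r A \ K).card :=
    card_le_card (sdiff_subset_sdiff inter_subset_right Subset.rfl)
  unfold Phi
  omega

/-- A bounded number of guessed vertices suffices to find `A`. -/
theorem rounds {b : V} (hs : ∀ u v, r u v → r v u) (hA : Side r A b) (hK : K ⊆ N r A)
    (hAne : A.Nonempty) {l q : ℕ} (hl : 0 < l) (ht : (N r A \ K).card ≤ 6 * l)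
    (hR : ¬ Reg r A q l) : ∃ ps : List V, ps.length = 5221 ∧ (∀ p ∈ ps, p ∈ A) ∧
      ps.foldl (fun P p => (cl r A K)^[3 * (q + 2)] (insert p P)) ∅ = A := by
  have he : 435 * ((l - 1) / 435) < l := by omega
  have key : ∀ z, ∃ ps : List V, ps.length = z ∧ (∀ p ∈ ps, p ∈ A) ∧
      ∃ P, ps.foldl (fun P p => (cl r A K)^[3 * (q + 2)] (insert p P)) ∅ = P ∧ P ⊆ A ∧
        (P = A ∨ z * ((l - 1) / 435 + 1) ≤ Phi r A K P) := by
    intro z
    induction z with
    | zero => exact ⟨[], rfl, by simp, ∅, rfl, empty_subset _, Or.inr (by simp)⟩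
    | succ z ih =>
      obtain ⟨ps, h1, h2, P, h3, h4, h5⟩ := ih
      obtain ⟨p, hp, h6⟩ := round hs hA hK hAne he ht hR h4
      refine ⟨ps ++ [p], by simp [h1], ?_, _, by rw [List.foldl_append, h3]; rfl,
        iter_sub (insert_subset hp h4) _, ?_⟩
      · intro x hx
        rcases List.mem_append.1 hx with c | c
        exacts [h2 x c, List.mem_singleton.1 c ▸ hp]
      · rcases h5 with c | c
        · refine Or.inl (Subset.antisymm (iter_sub (insert_subset hp h4) _) ?_)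
          exact (c.symm.subset.trans (subset_insert p P)).trans
            (iter_mono (insert_subset hp h4) (Nat.zero_le _))
        · refine h6.imp_right fun d => ?_
          rw [Nat.succ_mul]
          omega
  obtain ⟨ps, h1, h2, P, h3, h4, h5⟩ := key 5221
  refine ⟨ps, h1, h2, h3.trans (h5.resolve_right fun c => ?_)⟩
  have := Phi_le (r := r) (K := K) h4
  omega

theorem not_reg_zero {b : V} (hA : Side r A b) (q : ℕ) : ¬ Reg r A q 1 := by
  rintro ⟨D, h1, h2⟩
  have a : ∀ i, D i = A := fun i => hA.conn _ (h1 i).1 (card_pos.1 (by have := (h1 i).2.1; omega))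
    (card_eq_zero.1 (by have := (h1 i).2.2; omega))
  have b := h2 0 1 (by decide)
  have c := (h1 0).2.1
  rw [a, a, disjoint_self] at b
  rw [a, b] at c
  simp at c

end two

/-! ### The set-up, one step of phase one, and the last step -/

/-- The data attached to a smallest dual separator. -/
structure Setup (r r' : V → V → Prop) [DecidableRel r] [DecidableRel r'] (k l : ℕ)
    (A A' : Finset V) (a b a' b' : V) (P P' : List V) : Prop where
  s1 : Side r A b
  s2 : Side r' A' b'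
  ck : (N r A ∪ N r' A').card ≤ k
  ha : a ∈ A
  ha' : a' ∈ A'
  n1 : a ∉ N r A ∪ N r' A'
  n2 : b ∉ N r A ∪ N r' A'
  n3 : a' ∉ N r A ∪ N r' A'
  n4 : b' ∉ N r A ∪ N r' A'
  hl : 0 < l
  l1 : P.length = 6
  l2 : P'.length = 6
  p1 : P.toFinset ⊆ A
  p2 : P'.toFinset ⊆ A'
  pts : Pts r r' (N r A ∪ N r' A') A A' P.toFinset P'.toFinset l

variable {r' : V → V → Prop} [DecidableRel r']

theorem Setup.symm {k l : ℕ} {A A' : Finset V} {a b a' b' : V} {P P' : List V}
    (h : Setup r r' k l A A' a b a' b' P P') : Setup r' r k l A' A a' b' a b P' P := by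
  refine ⟨h.s2, h.s1, union_comm (N r A) _ ▸ h.ck, h.ha', h.ha, union_comm (N r A) _ ▸ h.n3,
    union_comm (N r A) _ ▸ h.n4, union_comm (N r A) _ ▸ h.n1, union_comm (N r A) _ ▸ h.n2, h.hl,
    h.l2, h.l1, h.p2, h.p1, ?_⟩
  rw [union_comm]
  intro K Kb Kr E E' k1 k2 k3 k4 k5 e1 e2 e3 e4 s1 s2 f1 f2
  exact h.pts K Kr Kb E' E k1 k3 k2 k5 k4 e3 e4 e1 e2 s2 s1 f2 f1

theorem exists_setup (hs : ∀ u v, r u v → r v u) (hs' : ∀ u v, r' u v → r' v u) {k : ℕ}
    {S0 : Finset V} (h0 : S0.card ≤ k) (h1 : Sol r S0) (h2 : Sol r' S0) :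
    ∃ l A A' a b a' b' P P', Setup r r' k l A A' a b a' b' P P' ∧
      (¬ Reg r A (7 * k) l ∨ ¬ Reg r' A' (7 * k) l) := by
  classical
  obtain ⟨S, h3, h4⟩ := exists_min_image (univ.filter fun S : Finset V => Sol r S ∧ Sol r' S)
    card ⟨S0, by simp [h1, h2]⟩
  simp only [mem_filter, mem_univ, true_and] at h3 h4
  obtain ⟨⟨A0, a, b, a1, a2, a3, a4, a5⟩, ⟨A0', a', b', b1, b2, b3, b4, b5⟩⟩ := h3
  obtain ⟨A, c1, c2, c3⟩ := exists_side hs a1 a3 a5
  obtain ⟨A', d1, d2, d3⟩ := exists_side hs' b1 b3 b5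
  have e := union_subset c2 d2
  have hk : (N r A ∪ N r' A').card ≤ k := (card_le_card e).trans ((h4 S0 ⟨h1, h2⟩).trans h0)
  have hmin : ∀ S', Sol r S' → Sol r' S' → (N r A ∪ N r' A').card ≤ S'.card :=
    fun S' x y => (card_le_card e).trans (h4 S' ⟨x, y⟩)
  have mk : ∀ l (P P' : List V), 0 < l → P.length = 6 → P'.length = 6 → P.toFinset ⊆ A →
      P'.toFinset ⊆ A' → Pts r r' (N r A ∪ N r' A') A A' P.toFinset P'.toFinset l →
      Setup r r' k l A A' a b a' b' P P' := fun l P P' x1 x2 x3 x4 x5 x6 =>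
    ⟨c3, d3, hk, c1, d1, fun c => a2 (e c), fun c => a4 (e c), fun c => b2 (e c),
      fun c => b4 (e c), x1, x2, x3, x4, x5, x6⟩
  by_cases hg : ∃ l, l ≤ k ∧ Reg r A (7 * k) (l + 1) ∧ Reg r' A' (7 * k) (l + 1)
  · obtain ⟨g1, g2, g3⟩ := Nat.find_spec hg
    have g4 : 0 < Nat.find hg := Nat.pos_of_ne_zero fun c => not_reg_zero c3 _ (c ▸ g2)
    obtain ⟨p, p', x1, x2, x3⟩ := stuck hmin hk g1 g2 g3
    have y : ∀ p : Fin 6 → V, (List.ofFn p).toFinset = univ.image p := fun p => by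
      ext v
      simp only [List.mem_toFinset, List.mem_ofFn, mem_image, mem_univ, true_and]
    refine ⟨Nat.find hg, A, A', a, b, a', b', List.ofFn p, List.ofFn p', mk _ _ _ g4
      List.length_ofFn List.length_ofFn ?_ ?_ ?_, ?_⟩
    · rw [y]; exact image_subset_iff.2 fun i _ => x1 i
    · rw [y]; exact image_subset_iff.2 fun i _ => x2 i
    · rw [y, y]; exact x3
    · by_contra c
      push Not at c
      refine Nat.find_min hg (Nat.sub_one_lt g4.ne') ⟨by omega, ?_⟩
      rw [Nat.sub_add_cancel g4]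
      exact c
  · refine ⟨k + 1, A, A', a, b, a', b', List.replicate 6 a, List.replicate 6 a', mk _ _ _
      (Nat.succ_pos _) (by simp) (by simp) ?_ ?_ ?_, ?_⟩
    · intro v hv
      rw [(List.mem_replicate.1 (List.mem_toFinset.1 hv)).2]; exact c1
    · intro v hv
      rw [(List.mem_replicate.1 (List.mem_toFinset.1 hv)).2]; exact d1
    · intro K _ _ _ _ _ _ _ _ _ _ _ _ _ _ _ _ _
      have := card_le_card (sdiff_subset (s := N r A ∪ N r' A') (t := K))
      omega
    · by_contra c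
      push Not at c
      exact hg ⟨k, le_rfl, c⟩

/-- Invariant of phase one. -/
def Inv1 (X Y : Finset V) (l i : ℕ) (Kb Kr : Finset V) : Prop :=
  ∃ K ⊆ X ∪ Y, Kb = K ∩ X ∧ Kr = K ∩ Y ∧ (((X ∪ Y) \ K).card ≤ 6 * l ∨ i ≤ K.card)

theorem ph1 {k l i : ℕ} {A A' : Finset V} {a b a' b' : V} {P P' : List V}
    (h : Setup r r' k l A A' a b a' b' P P') {Kb Kr C : Finset V}
    (hi : Inv1 (N r A) (N r' A') l i Kb Kr)
    (hC : C = N r (Em r P.toFinset A Kb) \ Kb ∪ N r' (Em r' P'.toFinset A' Kr) \ Kr) :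
    C.card ≤ 2 * k ∧ Inv1 (N r A) (N r' A') l (i + 1) (Kb ∪ C ∩ N r A) (Kr ∪ C ∩ N r' A') := by
  obtain ⟨K, k1, k2, k3, k4⟩ := hi
  have a1 : (N r A \ Kb).card ≤ ((N r A ∪ N r' A') \ K).card := card_le_card fun v => by
    rw [k2]; simp only [mem_sdiff, mem_inter, mem_union]; tauto
  have a2 : (N r' A' \ Kr).card ≤ ((N r A ∪ N r' A') \ K).card := card_le_card fun v => by
    rw [k3]; simp only [mem_sdiff, mem_inter, mem_union]; tauto
  have a3 := (f_Em_le (r := r) (K := Kb) h.p1).trans a1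
  have a4 := (f_Em_le (r := r') (K := Kr) h.p2).trans a2
  have a5 := (card_le_card (sdiff_subset (s := N r A ∪ N r' A') (t := K))).trans h.ck
  refine ⟨?_, K ∪ C ∩ (N r A ∪ N r' A'), union_subset k1 inter_subset_right, ?_, ?_, ?_⟩
  · have := card_union_le (N r (Em r P.toFinset A Kb) \ Kb) (N r' (Em r' P'.toFinset A' Kr) \ Kr)
    unfold f at a3 a4
    rw [hC]
    omega
  · ext v; rw [k2]; simp only [mem_inter, mem_union]; tauto
  · ext v; rw [k3]; simp only [mem_inter, mem_union]; tauto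
  have a6 := card_le_card (sdiff_subset_sdiff (Subset.refl (N r A ∪ N r' A'))
    (subset_union_left (s₁ := K) (s₂ := C ∩ (N r A ∪ N r' A'))))
  by_cases c : C ∩ (N r A ∪ N r' A') ⊆ K
  · refine Or.inl (a6.trans (h.pts K Kb Kr _ _ k1 (k2 ▸ inter_subset_left)
      (k3 ▸ inter_subset_left) (k2 ▸ inter_subset_right) (k3 ▸ inter_subset_right)
      (Em_mn Kb h.p1).1 (Em_mn Kb h.p1).2.1 (Em_mn Kr h.p2).1 (Em_mn Kr h.p2).2.1
      (fun v hv => ?_) (fun v hv => ?_) a3 a4))
    · by_contra d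
      obtain ⟨d1, d2⟩ := mem_inter.1 hv
      exact d (k2 ▸ mem_inter.2 ⟨c (mem_inter.2 ⟨hC ▸ mem_union_left _ (mem_sdiff.2 ⟨d1, d⟩),
        mem_union_left _ d2⟩), d2⟩)
    · by_contra d
      obtain ⟨d1, d2⟩ := mem_inter.1 hv
      exact d (k3 ▸ mem_inter.2 ⟨c (mem_inter.2 ⟨hC ▸ mem_union_right _ (mem_sdiff.2 ⟨d1, d⟩),
        mem_union_right _ d2⟩), d2⟩)
  · obtain ⟨v, v1, v2⟩ := not_subset.1 c
    have := card_lt_card ((ssubset_iff_of_subset (subset_union_left (s₁ := K)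
      (s₂ := C ∩ (N r A ∪ N r' A')))).2 ⟨v, mem_union_right _ v1, v2⟩)
    omega

omit [Fintype V] in
theorem ph1_end {X Y Kb Kr : Finset V} {k l : ℕ} (hk : (X ∪ Y).card ≤ k)
    (h : Inv1 X Y l k Kb Kr) : Kb ⊆ X ∧ (X \ Kb).card ≤ 6 * l := by
  obtain ⟨K, k1, k2, -, k4⟩ := h
  have a1 : (X \ Kb).card ≤ ((X ∪ Y) \ K).card := card_le_card fun v => by
    rw [k2]; simp only [mem_sdiff, mem_inter, mem_union]; tauto
  have a2 := card_sdiff_add_card_eq_card k1
  exact ⟨k2 ▸ inter_subset_right, by omega⟩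

theorem last {k l : ℕ} {A A' : Finset V} {a b a' b' : V} {P P' : List V}
    (hs' : ∀ u v, r' u v → r' v u) (h : Setup r r' k l A A' a b a' b' P P') :
    ∃ Q O : List V, Q.length = 3 ∧ O.length = 3 ∧ ∀ L D T,
      L = (univ \ N r A) \ (O.toFinset ∪ N r' O.toFinset) → D = Em r' Q.toFinset L (N r A) →
      T = N r A ∪ N r' D → Q.toFinset ⊆ L ∧ T.card ≤ k ∧ (∃ v ∈ A, v ∉ T) ∧ (∃ v ∉ A, v ∉ T) ∧
        (∃ v ∈ D, v ∉ T) ∧ ∃ v ∉ D, v ∉ T := by
  refine ⟨[a', if a ∈ A' then a else a', if b ∈ A' then b else a'],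
    [b', if a ∈ A' then b' else a, if b ∈ A' then b' else b], rfl, rfl, ?_⟩
  generalize hQ : [a', if a ∈ A' then a else a', if b ∈ A' then b else a'].toFinset = Q
  generalize hO : [b', if a ∈ A' then b' else a, if b ∈ A' then b' else b].toFinset = O
  intro L D T hL hD hT
  have n1 := h.n1
  have n2 := h.n2
  have n3 := h.n3
  have n4 := h.n4
  have q1 : ∀ v ∈ Q, v ∈ A' ∧ v ∉ N r A ∪ N r' A' := by
    have := h.ha'
    rw [← hQ]
    simp only [List.mem_toFinset, List.mem_cons, List.not_mem_nil, or_false]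
    grind
  have o1 : ∀ v ∈ O, v ∉ A' ∧ v ∉ N r A ∪ N r' A' := by
    have := h.s2.hb
    rw [← hO]
    simp only [List.mem_toFinset, List.mem_cons, List.not_mem_nil, or_false]
    grind
  have q2 : a' ∈ Q ∧ b' ∈ O ∧ (a ∈ Q ∨ a ∈ O) ∧ (b ∈ Q ∨ b ∈ O) := by
    rw [← hQ, ← hO]
    simp only [List.mem_toFinset, List.mem_cons, List.not_mem_nil, or_false]
    grind
  have l1 : A' \ N r A ⊆ L := by
    intro v hv
    obtain ⟨c1, c2⟩ := mem_sdiff.1 hv
    rw [hL]
    refine mem_sdiff.2 ⟨mem_sdiff.2 ⟨mem_univ _, c2⟩, fun c => ?_⟩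
    rcases mem_union.1 c with c | c
    · exact (o1 v c).1 c1
    · obtain ⟨-, u, hu, huv⟩ := mem_N.1 c
      exact (o1 u hu).2 (mem_union_right _ (mem_N.2 ⟨(o1 u hu).1, v, c1, hs' _ _ huv⟩))
  have l2 : Q ⊆ A' \ N r A := fun v hv =>
    mem_sdiff.2 ⟨(q1 v hv).1, fun c => (q1 v hv).2 (mem_union_left _ c)⟩
  have m := Em_mn (r := r') (N r A) (l2.trans l1)
  rw [← hD] at m
  have t1 : ∀ v ∈ Q, v ∉ T := fun v hv c => by
    rw [hT] at c
    rcases mem_union.1 c with c | c
    exacts [(q1 v hv).2 (mem_union_left _ c), (mem_N.1 c).1 (m.1 hv)]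
  have t2 : ∀ v ∈ O, v ∉ D ∧ v ∉ T := fun v hv => by
    have d : ∀ u ∈ D, u ∉ O ∪ N r' O := fun u hu => (mem_sdiff.1 (hL ▸ m.2.1 hu)).2
    refine ⟨fun c => d v c (mem_union_left _ hv), fun c => ?_⟩
    rw [hT] at c
    rcases mem_union.1 c with c | c
    · exact (o1 v hv).2 (mem_union_left _ c)
    · obtain ⟨-, u, hu, huv⟩ := mem_N.1 c
      exact d u hu (mem_union_right _ (mem_N.2 ⟨fun e => d u hu (mem_union_left _ e), v, hv,
        hs' _ _ huv⟩))
  refine ⟨l2.trans l1, ?_, ⟨a, h.ha, q2.2.2.1.elim (t1 a) fun c => (t2 a c).2⟩,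
    ⟨b, h.s1.hb, q2.2.2.2.elim (t1 b) fun c => (t2 b c).2⟩, ⟨a', m.1 q2.1, t1 a' q2.1⟩,
    b', (t2 b' q2.2.1).1, (t2 b' q2.2.1).2⟩
  have a1 := m.2.2 _ l2 l1
  have a2 : f r' (N r A) (A' \ N r A) ≤ (N r' A' \ N r A).card := by
    refine card_le_card fun v hv => ?_
    obtain ⟨c1, c2⟩ := mem_sdiff.1 hv
    obtain ⟨c3, u, hu, huv⟩ := mem_N.1 c1
    exact mem_sdiff.2 ⟨mem_N.2 ⟨fun c => c3 (mem_sdiff.2 ⟨c, c2⟩), u, (mem_sdiff.1 hu).1, huv⟩, c2⟩
  have a3 := card_sdiff_add_card (N r' D) (N r A)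
  have a4 := card_sdiff_add_card (N r' A') (N r A)
  have a5 := h.ck
  rw [union_comm] at a3 a4
  unfold f at a1 a2
  rw [hT]
  omega

/-! ### Closest minimum cuts from bipartite matching numbers -/

/-- `m` is the matching number between `L` and `R` (Koenig-Ore formula). -/
def IsNu (r : V → V → Prop) [DecidableRel r] (L R : Finset V) (m : ℕ) : Prop :=
  (∀ D ⊆ L, m + D.card ≤ L.card + ((D ∪ N r D) ∩ R).card) ∧
    ∃ D ⊆ L, L.card + ((D ∪ N r D) ∩ R).card ≤ m + D.card

/-- A matching of size `m` between `L` and `R`. -/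
def Mat (r : V → V → Prop) (L R : Finset V) (m : ℕ) : Prop :=
  ∃ (M : Finset V) (g : V → V), M ⊆ L ∧ M.card = m ∧ Set.InjOn g M ∧
    ∀ x ∈ M, g x ∈ R ∧ (x = g x ∨ r x (g x))

theorem isNu {L R : Finset V} {m : ℕ} (h : Mat r L R m) (hm : ∀ m', Mat r L R m' → m' ≤ m) :
    IsNu r L R m := by
  classical
  have cN : ∀ (D : Finset V) x y, x ∈ D → (x = y ∨ r x y) → y ∈ D ∪ N r D := by
    intro D x y hx c
    by_cases d : y ∈ D
    · exact mem_union_left _ d
    · exact mem_union_right _ (mem_N.2 ⟨d, x, hx, c.resolve_left fun e => d (e ▸ hx)⟩)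
  constructor
  · intro D hD
    obtain ⟨M, g, h1, h2, h3, h4⟩ := h
    have a1 : (M ∩ D).card ≤ ((D ∪ N r D) ∩ R).card :=
      card_le_card_of_injOn g (fun x hx => by
        obtain ⟨c1, c2⟩ := mem_inter.1 (mem_coe.1 hx)
        exact mem_coe.2 (mem_inter.2 ⟨cN D x _ c2 (h4 x c1).2, (h4 x c1).1⟩))
        (h3.mono (coe_subset.2 inter_subset_left))
    have a2 := card_le_card (sdiff_subset_sdiff h1 (Subset.refl D))
    have a3 := card_sdiff_add_card_inter M D
    have a4 := card_sdiff_add_card_eq_card hD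
    omega
  · obtain ⟨D, h1, h2⟩ := exists_max_image L.powerset
      (fun D => D.card - ((D ∪ N r D) ∩ R).card) ⟨∅, by simp⟩
    obtain ⟨d, hd⟩ : ∃ d, d = D.card - ((D ∪ N r D) ∩ R).card := ⟨_, rfl⟩
    obtain ⟨g, g1, g2⟩ := (all_card_le_biUnion_card_iff_exists_injective fun x : L =>
      ((R.filter fun y => x.1 = y ∨ r x y).disjSum (univ : Finset (Fin d)))).1 (by
        intro s
        rcases s.eq_empty_or_nonempty with c | ⟨x0, hx0⟩
        · simp [c]
        have a1 := h2 (s.map (Function.Embedding.subtype _)) (mem_powerset.2 fun x hx => by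
          obtain ⟨y, -, rfl⟩ := mem_map.1 hx
          exact y.2)
        rw [← hd, card_map] at a1
        refine le_trans ?_ (card_le_card (s := (((s.map (Function.Embedding.subtype _)) ∪
          N r (s.map (Function.Embedding.subtype _))) ∩ R).disjSum (univ : Finset (Fin d))) ?_)
        · rw [card_disjSum, card_univ, Fintype.card_fin]
          omega
        · rintro (y | y) hy
          · rw [inl_mem_disjSum, mem_inter, mem_union] at hy
            rcases hy.1 with c | c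
            · obtain ⟨x, hx, rfl⟩ := mem_map.1 c
              exact mem_biUnion.2 ⟨x, hx, inl_mem_disjSum.2 (mem_filter.2 ⟨hy.2, Or.inl rfl⟩)⟩
            · obtain ⟨-, u, hu, huv⟩ := mem_N.1 c
              obtain ⟨x, hx, rfl⟩ := mem_map.1 hu
              exact mem_biUnion.2 ⟨x, hx, inl_mem_disjSum.2 (mem_filter.2 ⟨hy.2, Or.inr huv⟩)⟩
          · exact mem_biUnion.2 ⟨x0, hx0, inr_mem_disjSum.2 (mem_univ _)⟩)
    have a1 : (univ.filter fun x : L => ¬ (g x).isLeft).card ≤ d := by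
      refine le_trans (card_le_card_of_injOn g (t := (∅ : Finset V).disjSum univ) (fun x hx => ?_)
        g1.injOn) (by simp)
      have := (mem_filter.1 (mem_coe.1 hx)).2
      rcases e : g x with y | y
      · simp [e] at this
      · simp
    have a2 := card_filter_add_card_filter_not (s := (univ : Finset L)) fun x => (g x).isLeft
    have a3 := hm (univ.filter fun x : L => (g x).isLeft).card
      ⟨(univ.filter fun x : L => (g x).isLeft).map (Function.Embedding.subtype _),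
        fun x => if h : x ∈ L then (g ⟨x, h⟩).elim id fun _ => x else x, fun x hx => by
          obtain ⟨y, -, rfl⟩ := mem_map.1 hx
          exact y.2, card_map _, by
          intro x hx y hy e
          obtain ⟨x, c1, rfl⟩ := mem_map.1 (mem_coe.1 hx)
          obtain ⟨y, c2, rfl⟩ := mem_map.1 (mem_coe.1 hy)
          obtain ⟨u, hu⟩ := Sum.isLeft_iff.1 (mem_filter.1 c1).2
          obtain ⟨v, hv⟩ := Sum.isLeft_iff.1 (mem_filter.1 c2).2
          simp only [Function.Embedding.coe_subtype, x.2, y.2, dif_pos, Subtype.coe_eta, hu, hv,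
            Sum.elim_inl, id] at e
          rw [g1 (hu.trans (e ▸ hv.symm))], by
          intro x hx
          obtain ⟨x, c1, rfl⟩ := mem_map.1 hx
          obtain ⟨u, hu⟩ := Sum.isLeft_iff.1 (mem_filter.1 c1).2
          have := g2 x
          rw [hu, inl_mem_disjSum, mem_filter] at this
          simpa only [Function.Embedding.coe_subtype, x.2, dif_pos, Subtype.coe_eta, hu,
            Sum.elim_inl, id] using this⟩
    rw [card_univ, Fintype.card_coe] at a2
    by_cases c : d = 0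
    · exact ⟨∅, empty_subset _, by simp [N]; omega⟩
    · exact ⟨D, mem_powerset.1 h1, by omega⟩

theorem f_add {P L K D : Finset V} (hP : P ⊆ L) (hK : Disjoint L K) (hD : D ⊆ L \ P) :
    f r K (P ∪ D) + P.card + D.card =
      ((P ∪ N r P) \ K).card + ((D ∪ N r D) ∩ ((univ \ K) \ (P ∪ N r P))).card := by
  have a1 : ∀ v, v ∈ P → v ∉ K := fun v c => disjoint_left.1 hK (hP c)
  have a2 : ∀ v, v ∈ D → v ∉ K ∧ v ∉ P := fun v c =>
    ⟨disjoint_left.1 hK (mem_sdiff.1 (hD c)).1, (mem_sdiff.1 (hD c)).2⟩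
  unfold f
  rw [← card_union_of_disjoint, ← card_union_of_disjoint, ← card_union_of_disjoint]
  · congr 1
    ext v
    have := a1 v
    have := a2 v
    simp only [mem_union, mem_sdiff, mem_inter, mem_N, mem_univ]
    grind
  · rw [disjoint_left]
    intro v
    simp only [mem_union, mem_sdiff, mem_inter]
    tauto
  · rw [disjoint_left]
    intro v
    have := a2 v
    simp only [mem_union, mem_sdiff, mem_N]
    tauto
  · rw [disjoint_left]
    intro v
    simp only [mem_union, mem_sdiff, mem_N]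
    tauto

theorem mem_Em {P L K : Finset V} (hP : P ⊆ L) (hK : Disjoint L K) {v : V} (hv : v ∈ L \ P)
    {m m' : ℕ} (h : IsNu r (L \ P) ((univ \ K) \ (P ∪ N r P)) m)
    (h' : IsNu r ((L \ P).erase v) ((univ \ K) \ (P ∪ N r P)) m') :
    v ∈ Em r P L K ↔ m ≤ m' := by
  have hE := Em_mn (r := r) K hP
  have e1 : Em r P L K \ P ⊆ L \ P := sdiff_subset_sdiff hE.2.1 Subset.rfl
  have e2 := f_add (r := r) hP hK e1
  rw [union_sdiff_of_subset hE.1] at e2
  have e3 := card_erase_add_one hv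
  constructor
  · intro c
    by_contra d
    obtain ⟨D, d1, d2⟩ := h'.2
    have a1 := f_add (r := r) hP hK (d1.trans (erase_subset _ _))
    have a2 := h.1 _ e1
    have a3 := Em_sub' (r := r) (K := K) (subset_union_left (s₁ := P) (s₂ := D))
      (union_subset hP (d1.trans ((erase_subset _ _).trans sdiff_subset))) (by omega)
    rcases mem_union.1 (a3 c) with x | x
    exacts [(mem_sdiff.1 hv).2 x, notMem_erase _ _ (d1 x)]
  · intro c
    by_contra d
    obtain ⟨D, d1, d2⟩ := h.2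
    have a1 := f_add (r := r) hP hK d1
    have a2 := h'.1 (Em r P L K \ P) (subset_erase.2 ⟨e1, fun x => d (mem_sdiff.1 x).1⟩)
    have a3 := hE.2.2 (P ∪ D) subset_union_left (union_subset hP (d1.trans sdiff_subset))
    omega

end Pool.Agent.Lib.MP_959b39_lc.Fpt
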