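import Mathlib

/-!
One colour layer of the reduction, on an abstract vertex type coded by 5-tuples
(kind, i, j, u, w).  Kinds: 0 = s, 1 = t, c = private connector of the layer, 4 = shared vertex.
-/

set_option autoImplicit false

namespace Pool.Agent.Lib.MP_959b39_lc

/-- Vertex codes. -/
abbrev T5 : Type := ℕ × ℕ × ℕ × ℕ × ℕ

/-- Directed description of the edges of a layer. -/
def Rel (n k : ℕ) (cp : ℕ → ℕ → ℕ → ℕ → Prop) (c : ℕ) (a b : T5) : Prop :=
  (a = (0, 0, 0, 0, 0) ∧ b.1 = c ∧ b.2.1 < k ∧ b.2.2.1 < k ∧ b.2.2.2.1 = 0 ∧ b.2.2.2.2 = 0) ∨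
  (a.1 = c ∧ a.2.1 < k ∧ a.2.2.1 < k ∧ a.2.2.2.1 = n ∧ a.2.2.2.2 = n ∧ b = (1, 0, 0, 0, 0)) ∨
  (a.1 = c ∧ b.1 = 4 ∧ b.2 = a.2 ∧ cp a.2.1 a.2.2.1 a.2.2.2.1 a.2.2.2.2) ∨
  (((cp a.2.1 a.2.2.1 a.2.2.2.1 a.2.2.2.2 ∧ a.1 = 4) ∨
      (¬ cp a.2.1 a.2.2.1 a.2.2.2.1 a.2.2.2.2 ∧ a.1 = c)) ∧
    b.1 = c ∧ a.2.1 < k ∧ a.2.2.1 < k ∧ b.2.2.1 < k ∧ b.2.1 = a.2.1 ∧ a.2.2.2.2 ≤ n ∧
    b.2.2.2.2 ≤ n ∧
    b.2.2.2.1 * (n + 1) + b.2.2.2.2 = a.2.2.2.1 * (n + 1) + a.2.2.2.2 + 1 ∧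
    (b.2.2.1 = a.2.2.1 ∨ b.2.2.2.2 = 0))

/-- The layer graph. -/
def layer {V : Type} (n k : ℕ) (cp : ℕ → ℕ → ℕ → ℕ → Prop) (c : ℕ) (d : V → T5) :
    SimpleGraph V :=
  SimpleGraph.fromRel fun x y => Rel n k cp c (d x) (d y)

theorem lex_eq {m u w u' w' : ℕ} (hw : w < m) (hw' : w' < m) (h : u * m + w = u' * m + w') :
    u = u' ∧ w = w' := by
  have h1 : (u * m + w) / m = u := by
    rw [Nat.add_comm, Nat.add_mul_div_right _ _ (by omega), Nat.div_eq_of_lt hw, Nat.zero_add]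
  have h2 : (u' * m + w') / m = u' := by
    rw [Nat.add_comm, Nat.add_mul_div_right _ _ (by omega), Nat.div_eq_of_lt hw', Nat.zero_add]
  have : u = u' := by rw [← h1, h, h2]
  subst this
  omega

theorem lex_le {m u u' w' : ℕ} (hw' : w' < m) (h : u * m ≤ u' * m + w') : u * m ≤ u' * m := by
  refine Nat.mul_le_mul_right m ?_
  by_contra hlt
  have : (u' + 1) * m ≤ u * m := Nat.mul_le_mul_right m (by omega)
  rw [Nat.add_mul] at this
  omega

/-- The source side of the intended cut. -/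
def Side (n c : ℕ) (v : ℕ → ℕ) (a : T5) : Prop :=
  a.1 = 0 ∨ (a.1 = c ∧ a.2.2.2.1 * (n + 1) + a.2.2.2.2 ≤ v a.2.1 * (n + 1) + v a.2.2.1) ∨
    (a.1 = 4 ∧ a.2.2.2.1 * (n + 1) + a.2.2.2.2 < v a.2.1 * (n + 1) + v a.2.2.1)

theorem side_iff {n k : ℕ} {cp : ℕ → ℕ → ℕ → ℕ → Prop} {c : ℕ} (hc : c = 2 ∨ c = 3)
    (hcp : ∀ i j u w, cp i j u w → i < k ∧ j < k ∧ u < n ∧ w < n)
    {v : ℕ → ℕ} (hv : ∀ i j, i < k → j < k → cp i j (v i) (v j)) {a b : T5}
    (ha : ∀ i j, i < k → j < k → a ≠ (4, i, j, v i, v j))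
    (hb : ∀ i j, i < k → j < k → b ≠ (4, i, j, v i, v j))
    (h : Rel n k cp c a b) : Side n c v a ↔ Side n c v b := by
  obtain ⟨ka, i, j, u, w⟩ := a
  obtain ⟨kb, i', j', u', w'⟩ := b
  have hvn : ∀ i, i < k → v i < n := fun i hi => (hcp _ _ _ _ (hv i i hi hi)).2.2.1
  simp only [Rel, Side, Prod.mk.injEq] at h ⊢
  rcases h with h | h | h | h
  · obtain ⟨⟨rfl, -⟩, rfl, -, -, rfl, rfl⟩ := h
    simp
  · obtain ⟨rfl, hi, hj, rfl, rfl, rfl, -⟩ := h
    have h1 := hvn i hi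
    have h2 := hvn j hj
    have h3 : v i * (w + 1) ≤ w * (w + 1) := Nat.mul_le_mul_right _ h1.le
    omega
  · obtain ⟨rfl, rfl, ⟨rfl, rfl, rfl, rfl⟩, h⟩ := h
    obtain ⟨hi, hj, hu, hw⟩ := hcp _ _ _ _ h
    have hne : u' * (n + 1) + w' ≠ v i' * (n + 1) + v j' := by
      intro e
      obtain ⟨e1, e2⟩ := lex_eq (by omega) (by have := hvn j' hj; omega) e
      exact hb i' j' hi hj (by rw [e1, e2])
    omega
  · obtain ⟨h0, rfl, hi, hj, hj', rfl, hw, hw', hpos, hl⟩ := h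
    have hne : u * (n + 1) + w ≠ v i' * (n + 1) + v j := by
      intro e
      obtain ⟨e1, e2⟩ := lex_eq (by omega) (by have := hvn j hj; omega) e
      rcases h0 with h0 | h0
      · exact ha i' j hi hj (by rw [h0.2, e1, e2])
      · exact h0.1 (by rw [e1, e2]; exact hv i' j hi hj)
    have key : u' * (n + 1) + w' ≤ v i' * (n + 1) + v j ↔
        u' * (n + 1) + w' ≤ v i' * (n + 1) + v j' := by
      rcases hl with rfl | rfl
      · rfl
      · have h1 := hvn j hj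
        have h2 := hvn j' hj'
        constructor
        · intro h
          have := lex_le (m := n + 1) (u := u') (u' := v i') (w' := v j) (by omega) (by omega)
          omega
        · intro h
          have := lex_le (m := n + 1) (u := u') (u' := v i') (w' := v j') (by omega) (by omega)
          omega
    rcases h0 with ⟨-, rfl⟩ | ⟨-, rfl⟩ <;> omega

theorem not_reachable {V : Type} {n k : ℕ} {cp : ℕ → ℕ → ℕ → ℕ → Prop} {c : ℕ}
    (hc : c = 2 ∨ c = 3) (hcp : ∀ i j u w, cp i j u w → i < k ∧ j < k ∧ u < n ∧ w < n)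
    {v : ℕ → ℕ} (hv : ∀ i j, i < k → j < k → cp i j (v i) (v j)) (d : V → T5) (A : Set V)
    (hA : ∀ x ∈ A, ∀ i j, i < k → j < k → d x ≠ (4, i, j, v i, v j))
    (s t : A) (hs : d s = (0, 0, 0, 0, 0)) (ht : d t = (1, 0, 0, 0, 0)) :
    ¬ ((layer n k cp c d).induce A).Reachable s t := by
  intro h
  have key : ∀ x y : A, ((layer n k cp c d).induce A).Reachable x y →
      Side n c v (d x) → Side n c v (d y) := by
    intro x y ⟨p⟩
    induction p with
    | nil => exact id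
    | @cons x y z hxy _ ih =>
      intro hx
      apply ih
      have hxy' : (layer n k cp c d).Adj x y := hxy
      rcases ((SimpleGraph.fromRel_adj _ _ _).1 hxy').2 with h | h
      · exact (side_iff hc hcp hv (hA x x.2) (hA y y.2) h).1 hx
      · exact (side_iff hc hcp hv (hA y y.2) (hA x x.2) h).2 hx
  have := key s t h (by rw [hs]; exact Or.inl rfl)
  rw [ht] at this
  simp only [Side] at this
  omega

/-- All components are at most `n + k + 4`. -/
def Small (n k : ℕ) (a : T5) : Prop :=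
  a.1 ≤ n + k + 4 ∧ a.2.1 ≤ n + k + 4 ∧ a.2.2.1 ≤ n + k + 4 ∧ a.2.2.2.1 ≤ n + k + 4 ∧
    a.2.2.2.2 ≤ n + k + 4

theorem reachable {V : Type} {n k : ℕ} {cp : ℕ → ℕ → ℕ → ℕ → Prop} {c : ℕ}
    (hc : c = 2 ∨ c = 3) (hcp : ∀ i j u w, cp i j u w → i < k ∧ j < k ∧ u < n ∧ w < n)
    (d : V → T5) (mk : T5 → V) (hmk : ∀ a, Small n k a → d (mk a) = a) (A : Set V)
    (i : ℕ) (hi : i < k) (l : ℕ → ℕ) (hl : ∀ u, l u < k)
    (hA : ∀ x, x ∉ A → ∀ u w, d x ≠ (c, i, l u, u, w) ∧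
      (cp i (l u) u w → d x ≠ (4, i, l u, u, w)))
    (s t : A) (hs : d s = (0, 0, 0, 0, 0)) (ht : d t = (1, 0, 0, 0, 0)) :
    ((layer n k cp c d).induce A).Reachable s t := by
  have sm : ∀ κ u w, κ ≤ 4 → u ≤ n → w ≤ n → d (mk (κ, i, l u, u, w)) = (κ, i, l u, u, w) := by
    intro κ u w h1 h2 h3
    have := hl u
    refine hmk _ ⟨?_, ?_, ?_, ?_, ?_⟩ <;> dsimp only <;> omega
  have inA : ∀ u w, u ≤ n → w ≤ n → mk (c, i, l u, u, w) ∈ A := by
    intro u w h2 h3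
    by_contra h
    exact (hA _ h u w).1 (sm c u w (by omega) h2 h3)
  have inA' : ∀ u w, cp i (l u) u w → mk (4, i, l u, u, w) ∈ A := by
    intro u w h1
    have := hcp _ _ _ _ h1
    by_contra h
    exact (hA _ h u w).2 h1 (sm 4 u w le_rfl (by omega) (by omega))
  have adj : ∀ x y : A, d x ≠ d y → Rel n k cp c (d x) (d y) →
      ((layer n k cp c d).induce A).Reachable x y := by
    intro x y h1 h2
    refine SimpleGraph.Adj.reachable ?_
    change (layer n k cp c d).Adj x y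
    exact (SimpleGraph.fromRel_adj _ _ _).2 ⟨fun e => h1 (by rw [e]), Or.inl h2⟩
  have step : ∀ u w u' w' (hu : u ≤ n) (hw : w ≤ n) (hu' : u' ≤ n) (hw' : w' ≤ n),
      u' * (n + 1) + w' = u * (n + 1) + w + 1 → (u' = u ∨ w' = 0) →
      ((layer n k cp c d).induce A).Reachable ⟨_, inA u w hu hw⟩ ⟨_, inA u' w' hu' hw'⟩ := by
    intro u w u' w' hu hw hu' hw' hpos hor
    have hor' : l u' = l u ∨ w' = 0 := hor.imp (fun e => by rw [e]) id
    have e1 := sm c u w (by omega) hu hw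
    have e2 := sm c u' w' (by omega) hu' hw'
    by_cases h : cp i (l u) u w
    · have e3 := sm 4 u w le_rfl hu hw
      refine (adj _ ⟨_, inA' u w h⟩ ?_ ?_).trans (adj _ _ ?_ ?_)
      · dsimp only; rw [e1, e3]; simp; omega
      · dsimp only; rw [e1, e3]; simp [Rel, h]
      · dsimp only; rw [e2, e3]; simp; omega
      · dsimp only; rw [e2, e3]; simp [Rel, h, hi, hl, hw, hw', hpos, hor']
    · refine adj _ _ ?_ ?_
      · dsimp only; rw [e1, e2]
        intro e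
        simp only [Prod.mk.injEq] at e
        obtain ⟨-, -, -, rfl, rfl⟩ := e
        omega
      · dsimp only; rw [e1, e2]; simp [Rel, h, hi, hl, hw, hw', hpos, hor']
  have row : ∀ u (hu : u ≤ n) w (hw : w ≤ n), ((layer n k cp c d).induce A).Reachable
      ⟨_, inA u 0 hu (Nat.zero_le _)⟩ ⟨_, inA u w hu hw⟩ := by
    intro u hu w
    induction w with
    | zero => exact fun _ => SimpleGraph.Reachable.refl _
    | succ w ih =>
      intro hw
      exact (ih (by omega)).trans (step u w u (w + 1) hu (by omega) hu hw (by omega) (Or.inl rfl))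
  have col : ∀ u (hu : u ≤ n), ((layer n k cp c d).induce A).Reachable s
      ⟨_, inA u 0 hu (Nat.zero_le _)⟩ := by
    intro u
    induction u with
    | zero =>
      intro hu
      have e1 := sm c 0 0 (by omega) hu hu
      refine adj _ _ ?_ ?_
      · dsimp only; rw [hs, e1]; simp; omega
      · dsimp only; rw [hs, e1]; simp [Rel, hi, hl]
    | succ u ih =>
      intro hu
      refine ((ih (by omega)).trans (row u (by omega) n le_rfl)).trans
        (step u n (u + 1) 0 (by omega) le_rfl hu (Nat.zero_le _) (by ring) (Or.inr rfl))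
  refine ((col n le_rfl).trans (row n le_rfl n le_rfl)).trans (adj _ _ ?_ ?_)
  · dsimp only; rw [ht, sm c n n (by omega) le_rfl le_rfl]; simp; omega
  · dsimp only; rw [ht, sm c n n (by omega) le_rfl le_rfl]; simp [Rel, hi, hl]

/-- Every edge of a layer has an endpoint of kind `c` and no endpoint of the other private
kind. -/
theorem rel_kind {n k : ℕ} {cp : ℕ → ℕ → ℕ → ℕ → Prop} {c : ℕ} {a b : T5}
    (h : Rel n k cp c a b) :
    (a.1 = c ∨ b.1 = c) ∧ (a.1 = 0 ∨ a.1 = 1 ∨ a.1 = 4 ∨ a.1 = c) ∧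
      (b.1 = 0 ∨ b.1 = 1 ∨ b.1 = 4 ∨ b.1 = c) := by
  rcases h with h | h | h | h
  · rw [h.1]; simp [h.2.1]
  · rw [h.2.2.2.2.2]; simp [h.1]
  · simp [h.1, h.2.1]
  · rcases h.1 with h1 | h1 <;> simp [h1.2, h.2.1]

end Pool.Agent.Lib.MP_959b39_lc
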