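import Mathlib
import Pool.Agent.Shared.PolyTime.Graph
import Pool.Agent.Lib.MP_959b39_lc.Defs
import Pool.Agent.Lib.MP_959b39_lc.Layer

/-!
The reduction from Clique to Dual Separator for Two Terminals.
-/

set_option autoImplicit false

namespace Pool.Agent.Lib.MP_959b39_lc

open Pool.Agent.Shared.PolyTime

/-- Base-`B` digits. -/
def dec (B v : ℕ) : T5 := (v % B, v / B % B, v / B / B % B, v / B / B / B % B, v / B / B / B / B)

/-- Inverse of `dec`. -/
def cod (B : ℕ) (a : T5) : ℕ :=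
  a.1 + B * (a.2.1 + B * (a.2.2.1 + B * (a.2.2.2.1 + B * a.2.2.2.2)))

theorem cod_dec (B v : ℕ) : cod B (dec B v) = v := by
  simp only [cod, dec, Nat.mod_add_div]

theorem dec_inj (B : ℕ) : Function.Injective (dec B) := fun x y h => by
  rw [← cod_dec B x, h, cod_dec]

theorem dec_cod {B : ℕ} {a : T5} (h1 : a.1 < B) (h2 : a.2.1 < B) (h3 : a.2.2.1 < B)
    (h4 : a.2.2.2.1 < B) : dec B (cod B a) = a := by
  obtain ⟨a, b, c, d, e⟩ := a
  have hB : 0 < B := by omega
  have k1 : ∀ x y, x < B → (x + B * y) % B = x := fun x y hx => by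
    rw [Nat.add_mul_mod_self_left, Nat.mod_eq_of_lt hx]
  have k2 : ∀ x y, x < B → (x + B * y) / B = y := fun x y hx => by
    rw [Nat.add_mul_div_left _ _ hB, Nat.div_eq_of_lt hx, Nat.zero_add]
  simp only [cod, dec] at *
  rw [k1 _ _ h1, k2 _ _ h1, k1 _ _ h2, k2 _ _ h2, k1 _ _ h3, k2 _ _ h3, k1 _ _ h4, k2 _ _ h4]

theorem cod_lt {B : ℕ} {a : T5} (h1 : a.1 < B) (h2 : a.2.1 < B) (h3 : a.2.2.1 < B)
    (h4 : a.2.2.2.1 < B) (h5 : a.2.2.2.2 < B) : cod B a < B ^ 5 := by
  have k : ∀ x y Y, x < B → y < Y → x + B * y < B * Y := fun x y Y hx hy => by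
    have : B * (y + 1) ≤ B * Y := Nat.mul_le_mul_left B hy
    rw [Nat.mul_add] at this
    omega
  have := k _ _ _ h1 (k _ _ _ h2 (k _ _ _ h3 (k _ _ _ h4 h5)))
  unfold cod
  calc _ < B * (B * (B * (B * B))) := this
    _ = B ^ 5 := by ring

/-- Exchange of the roles of the two colours. -/
def sw (a : T5) : T5 := (a.1, a.2.2.1, a.2.1, a.2.2.2.2, a.2.2.2.1)

theorem sw_sw (a : T5) : sw (sw a) = a := rfl

/-- Compatibility of the choices `u` for the left class `i` and `w` for the right class `j`. -/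
def cpB (n k : ℕ) (M : List (List Bool)) (i j u w : ℕ) : Bool :=
  Nat.blt i k && Nat.blt j k && Nat.blt u n && Nat.blt w n && cond (i == j) (u == w) (entry M u w)

/-- Boolean form of `Rel`. -/
def relB (n k : ℕ) (M : List (List Bool)) (c : ℕ) (a b : T5) : Bool :=
  (a.1 == 0 && a.2.1 == 0 && a.2.2.1 == 0 && a.2.2.2.1 == 0 && a.2.2.2.2 == 0 &&
    b.1 == c && Nat.blt b.2.1 k && Nat.blt b.2.2.1 k && b.2.2.2.1 == 0 && b.2.2.2.2 == 0) ||
  (a.1 == c && Nat.blt a.2.1 k && Nat.blt a.2.2.1 k && a.2.2.2.1 == n && a.2.2.2.2 == n &&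
    b.1 == 1 && b.2.1 == 0 && b.2.2.1 == 0 && b.2.2.2.1 == 0 && b.2.2.2.2 == 0) ||
  (a.1 == c && b.1 == 4 && b.2.1 == a.2.1 && b.2.2.1 == a.2.2.1 && b.2.2.2.1 == a.2.2.2.1 &&
    b.2.2.2.2 == a.2.2.2.2 && cpB n k M a.2.1 a.2.2.1 a.2.2.2.1 a.2.2.2.2) ||
  (cond (cpB n k M a.2.1 a.2.2.1 a.2.2.2.1 a.2.2.2.2) (a.1 == 4) (a.1 == c) &&
    b.1 == c && Nat.blt a.2.1 k && Nat.blt a.2.2.1 k && Nat.blt b.2.2.1 k && b.2.1 == a.2.1 &&
    Nat.ble a.2.2.2.2 n && Nat.ble b.2.2.2.2 n &&
    b.2.2.2.1 * (n + 1) + b.2.2.2.2 == a.2.2.2.1 * (n + 1) + a.2.2.2.2 + 1 &&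
    (b.2.2.1 == a.2.2.1 || b.2.2.2.2 == 0))

theorem relB_iff (n k : ℕ) (M : List (List Bool)) (c : ℕ) (a b : T5) :
    relB n k M c a b = true ↔ Rel n k (fun i j u w => cpB n k M i j u w = true) c a b := by
  obtain ⟨ka, i, j, u, w⟩ := a
  obtain ⟨kb, i', j', u', w'⟩ := b
  cases h : cpB n k M i j u w <;> simp [relB, Rel, h, Nat.blt_eq, and_assoc, or_assoc]

/-- Blue adjacency on vertex numbers. -/
def blueB (n k : ℕ) (M : List (List Bool)) (x y : ℕ) : Bool :=
  !(x == y) && (relB n k M 2 (dec (n + k + 5) x) (dec (n + k + 5) y) ||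
    relB n k M 2 (dec (n + k + 5) y) (dec (n + k + 5) x))

/-- Red adjacency on vertex numbers. -/
def redB (n k : ℕ) (M : List (List Bool)) (x y : ℕ) : Bool :=
  !(x == y) && (relB n k M 3 (sw (dec (n + k + 5) x)) (sw (dec (n + k + 5) y)) ||
    relB n k M 3 (sw (dec (n + k + 5) y)) (sw (dec (n + k + 5) x)))

@[fun_prop] theorem pf_dec {α : Type} [Enc α] {B v : α → ℕ} (hB : PF B) (hv : PF v) :
    PF (fun a => dec (B a) (v a)) := by
  unfold dec; fun_prop

@[fun_prop] theorem pf_sw {α : Type} [Enc α] {v : α → T5} (hv : PF v) :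
    PF (fun a => sw (v a)) := by
  unfold sw; fun_prop

@[fun_prop] theorem pf_cpB {α : Type} [Enc α] {n k i j u w : α → ℕ} {M : α → List (List Bool)}
    (hn : PF n) (hk : PF k) (hM : PF M) (hi : PF i) (hj : PF j) (hu : PF u) (hw : PF w) :
    PF (fun a => cpB (n a) (k a) (M a) (i a) (j a) (u a) (w a)) := by
  unfold cpB; fun_prop

@[fun_prop] theorem pf_relB {α : Type} [Enc α] {n k c : α → ℕ} {M : α → List (List Bool)}
    {x y : α → T5} (hn : PF n) (hk : PF k) (hM : PF M) (hc : PF c) (hx : PF x) (hy : PF y) :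
    PF (fun a => relB (n a) (k a) (M a) (c a) (x a) (y a)) := by
  unfold relB; fun_prop

@[fun_prop] theorem pf_blueB {α : Type} [Enc α] {n k x y : α → ℕ} {M : α → List (List Bool)}
    (hn : PF n) (hk : PF k) (hM : PF M) (hx : PF x) (hy : PF y) :
    PF (fun a => blueB (n a) (k a) (M a) (x a) (y a)) := by
  unfold blueB; fun_prop

@[fun_prop] theorem pf_redB {α : Type} [Enc α] {n k x y : α → ℕ} {M : α → List (List Bool)}
    (hn : PF n) (hk : PF k) (hM : PF M) (hx : PF x) (hy : PF y) :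
    PF (fun a => redB (n a) (k a) (M a) (x a) (y a)) := by
  unfold redB; fun_prop

/-- The reduction on raw data. -/
def redData (x : ℕ × ℕ × List (List Bool)) :
    ℕ × ℕ × ℕ × ℕ × List (List Bool) × List (List Bool) :=
  ((x.1 + x.2.1 + 5) ^ 5, x.2.1 ^ 2, 0, 1,
    (List.range ((x.1 + x.2.1 + 5) ^ 5)).map fun i =>
      (List.range ((x.1 + x.2.1 + 5) ^ 5)).map fun j => blueB x.1 x.2.1 x.2.2 i j,
    (List.range ((x.1 + x.2.1 + 5) ^ 5)).map fun i =>
      (List.range ((x.1 + x.2.1 + 5) ^ 5)).map fun j => redB x.1 x.2.1 x.2.2 i j)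

theorem pf_redData : PF redData := by
  unfold redData; fun_prop

/-- Compatibility for a Clique instance. -/
def cpI (x : CliqueInst) (i j u w : ℕ) : Prop := cpB x.size x.param (adjMatrix x.graph) i j u w = true

theorem cpI_iff (x : CliqueInst) (i j u w : ℕ) : cpI x i j u w ↔
    i < x.param ∧ j < x.param ∧ ∃ (hu : u < x.size) (hw : w < x.size),
      (i = j ∧ u = w) ∨ (i ≠ j ∧ x.graph.Adj ⟨u, hu⟩ ⟨w, hw⟩) := by
  unfold cpI cpB
  by_cases h : i = j
  · subst h
    simp [Nat.blt_eq, and_assoc]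
    tauto
  · have e : (i == j) = false := by simpa using h
    simp only [e, cond_false, Bool.and_eq_true, Nat.blt_eq, entry_adjMatrix]
    constructor
    · rintro ⟨⟨⟨⟨h1, h2⟩, -⟩, -⟩, h3, h4, h5⟩
      exact ⟨h1, h2, h3, h4, Or.inr ⟨h, h5⟩⟩
    · rintro ⟨h1, h2, h3, h4, h5 | h5⟩
      · exact absurd h5.1 h
      · exact ⟨⟨⟨⟨h1, h2⟩, h3⟩, h4⟩, h3, h4, h5.2⟩

theorem cpI_lt (x : CliqueInst) (i j u w : ℕ) (h : cpI x i j u w) :
    i < x.param ∧ j < x.param ∧ u < x.size ∧ w < x.size := by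
  obtain ⟨h1, h2, h3, h4, -⟩ := (cpI_iff x i j u w).1 h
  exact ⟨h1, h2, h3, h4⟩

theorem cpI_symm (x : CliqueInst) (i j u w : ℕ) (h : cpI x i j u w) : cpI x j i w u := by
  obtain ⟨h1, h2, h3, h4, h5⟩ := (cpI_iff x i j u w).1 h
  refine (cpI_iff x j i w u).2 ⟨h2, h1, h4, h3, ?_⟩
  rcases h5 with h5 | h5
  · exact Or.inl ⟨h5.1.symm, h5.2.symm⟩
  · exact Or.inr ⟨h5.1.symm, h5.2.symm⟩

theorem two_le_N (n k : ℕ) : 2 ≤ (n + k + 5) ^ 5 :=
  le_trans (by norm_num) (Nat.pow_le_pow_left (show 2 ≤ n + k + 5 by omega) 5)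

/-- Code of a vertex. -/
def dI (x : CliqueInst) (v : Fin ((x.size + x.param + 5) ^ 5)) : T5 := dec (x.size + x.param + 5) v

/-- Vertex with a given code. -/
def mkI (x : CliqueInst) (a : T5) : Fin ((x.size + x.param + 5) ^ 5) :=
  if h : cod (x.size + x.param + 5) a < (x.size + x.param + 5) ^ 5 then ⟨_, h⟩
  else ⟨0, by have := two_le_N x.size x.param; omega⟩

theorem dI_mkI (x : CliqueInst) (a : T5) (h : Small x.size x.param a) : dI x (mkI x a) = a := by
  obtain ⟨h1, h2, h3, h4, h5⟩ := h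
  unfold mkI dI
  rw [dif_pos (cod_lt (by omega) (by omega) (by omega) (by omega) (by omega))]
  exact dec_cod (by omega) (by omega) (by omega) (by omega)

theorem dI_inj (x : CliqueInst) : Function.Injective (dI x) := fun _ _ h =>
  Fin.ext (dec_inj _ h)

/-- The reduction. -/
def reduce (x : CliqueInst) : DualInst where
  n := (x.size + x.param + 5) ^ 5
  blue := layer x.size x.param (cpI x) 2 (dI x)
  red := layer x.size x.param (cpI x) 3 (fun v => sw (dI x v))
  disj := by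
    rw [SimpleGraph.disjoint_left]
    intro a b h1 h2
    have k1 : ((dI x a).1 = 2 ∨ (dI x b).1 = 2) := by
      rcases ((SimpleGraph.fromRel_adj _ _ _).1 h1).2 with h | h
      · exact (rel_kind h).1
      · exact (rel_kind h).1.symm
    rcases ((SimpleGraph.fromRel_adj _ _ _).1 h2).2 with h | h
    · have := (rel_kind h).2
      simp only [sw] at this
      omega
    · have := (rel_kind h).2
      simp only [sw] at this
      omega
  s := ⟨0, by have := two_le_N x.size x.param; omega⟩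
  t := ⟨1, two_le_N x.size x.param⟩
  ne := by simp
  k := x.param ^ 2

theorem dI_s (x : CliqueInst) : dI x (reduce x).s = (0, 0, 0, 0, 0) := by
  simp [dI, reduce, dec]

theorem dI_t (x : CliqueInst) : dI x (reduce x).t = (1, 0, 0, 0, 0) := by
  have h : 1 < x.size + x.param + 5 := by omega
  simp [dI, reduce, dec, Nat.mod_eq_of_lt h, Nat.div_eq_of_lt h]

theorem reduce_poly :
    Nonempty (Turing.TM2ComputableInPolyTime CliqueInst.bits DualInst.code reduce) := by
  refine pf_redData.tm2 _ _ _ (fun x => (x.size, x.param, adjMatrix x.graph)) (fun _ => rfl) fun x => ?_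
  have h1 := adjMatrix_eq (layer x.size x.param (cpI x) 2 (dI x))
      (blueB x.size x.param (adjMatrix x.graph)) fun i j => by
    unfold layer blueB
    rw [SimpleGraph.fromRel_adj]
    simp only [Bool.and_eq_true, Bool.or_eq_true, relB_iff, Bool.not_eq_true', beq_eq_false_iff_ne,
      ne_eq, Fin.val_inj]
    rfl
  have h2 := adjMatrix_eq (layer x.size x.param (cpI x) 3 (fun v => sw (dI x v)))
      (redB x.size x.param (adjMatrix x.graph)) fun i j => by
    unfold layer redB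
    rw [SimpleGraph.fromRel_adj]
    simp only [Bool.and_eq_true, Bool.or_eq_true, relB_iff, Bool.not_eq_true', beq_eq_false_iff_ne,
      ne_eq, Fin.val_inj]
    rfl
  have e1 : encGraph (reduce x).blue = _ := (encGraph_eq _).trans (congrArg Enc.enc h1)
  have e2 : encGraph (reduce x).red = _ := (encGraph_eq _).trans (congrArg Enc.enc h2)
  unfold DualInst.code
  rw [e1, e2]
  rfl

theorem yes_of_clique (x : CliqueInst) (h : x.HasClique) : (reduce x).HasSep := by
  classical
  obtain ⟨S0, hS0⟩ := h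
  let e := S0.orderEmbOfFin hS0.card_eq
  let v : ℕ → ℕ := fun i => if h : i < x.param then (e ⟨i, h⟩ : ℕ) else 0
  have hv : ∀ i j, i < x.param → j < x.param → cpI x i j (v i) (v j) := by
    intro i j hi hj
    simp only [v, dif_pos hi, dif_pos hj]
    refine (cpI_iff _ _ _ _ _).2 ⟨hi, hj, (e ⟨i, hi⟩).2, (e ⟨j, hj⟩).2, ?_⟩
    by_cases hij : i = j
    · subst hij; exact Or.inl ⟨rfl, rfl⟩
    · refine Or.inr ⟨hij, hS0.isClique (S0.orderEmbOfFin_mem hS0.card_eq ⟨i, hi⟩)
        (S0.orderEmbOfFin_mem hS0.card_eq ⟨j, hj⟩) ?_⟩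
      intro h
      exact hij (congrArg Fin.val (e.injective h))
  have hsm : ∀ i j, i < x.param → j < x.param → dI x (mkI x (4, i, j, v i, v j)) = (4, i, j, v i, v j) := by
    intro i j hi hj
    have := cpI_lt _ _ _ _ _ (hv i j hi hj)
    refine dI_mkI _ _ ⟨?_, ?_, ?_, ?_, ?_⟩ <;> dsimp only <;> omega
  let S : Finset (Fin ((x.size + x.param + 5) ^ 5)) := (Finset.range x.param ×ˢ Finset.range x.param).image
    fun p => mkI x (4, p.1, p.2, v p.1, v p.2)
  have hS : ∀ y ∈ S, (dI x y).1 = 4 := by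
    intro y hy
    obtain ⟨p, hp, rfl⟩ := Finset.mem_image.1 hy
    simp only [Finset.mem_product, Finset.mem_range] at hp
    rw [hsm _ _ hp.1 hp.2]
  have hA : ∀ y, y ∉ S → ∀ i j, i < x.param → j < x.param → dI x y ≠ (4, i, j, v i, v j) := by
    intro y hy i j hi hj h
    apply hy
    refine Finset.mem_image.2 ⟨(i, j), by simp [hi, hj], dI_inj x ?_⟩
    rw [hsm i j hi hj, h]
  refine ⟨S, ?_, fun h => ?_, fun h => ?_, ?_, ?_⟩
  · refine Finset.card_image_le.trans ?_
    simp [reduce, pow_two]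
  · have := hS _ h
    rw [dI_s] at this
    simp at this
  · have := hS _ h
    rw [dI_t] at this
    simp at this
  · exact not_reachable (Or.inl rfl) (cpI_lt x) hv (dI x) _ hA _ _ (dI_s x) (dI_t x)
  · refine not_reachable (Or.inr rfl) (cpI_lt x) hv (fun v => sw (dI x v)) _ ?_ _ _ ?_ ?_
    · intro y hy i j hi hj h
      refine hA y hy j i hj hi ?_
      rw [← sw_sw (dI x y), h]
      rfl
    · dsimp only; rw [dI_s]; rfl
    · dsimp only; rw [dI_t]; rfl

theorem clique_of_yes (x : CliqueInst) (h : (reduce x).HasSep) : x.HasClique := by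
  classical
  obtain ⟨S, hcard, hs, ht, hb, hr⟩ := h
  -- every choice of lanes is hit
  have hitB : ∀ i, i < x.param → ∀ l : ℕ → ℕ, (∀ u, l u < x.param) → ∃ y ∈ S, ∃ u w,
      dI x y = (2, i, l u, u, w) ∨ (cpI x i (l u) u w ∧ dI x y = (4, i, l u, u, w)) := by
    intro i hi l hl
    by_contra hno
    push Not at hno
    refine hb (reachable (Or.inl rfl) (cpI_lt x) (dI x) (mkI x) (dI_mkI x) _ i hi l hl ?_ _ _
      (dI_s x) (dI_t x))
    intro y hy u w
    exact hno y (not_not.1 hy) u w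
  have hitR : ∀ j, j < x.param → ∀ l : ℕ → ℕ, (∀ u, l u < x.param) → ∃ y ∈ S, ∃ w u,
      dI x y = (3, l w, j, u, w) ∨ (cpI x j (l w) w u ∧ dI x y = (4, l w, j, u, w)) := by
    intro j hj l hl
    by_contra hno
    push Not at hno
    refine hr (reachable (Or.inr rfl) (cpI_lt x) (fun v => sw (dI x v)) (fun a => mkI x (sw a))
      ?_ _ j hj l hl ?_ _ _ ?_ ?_)
    · rintro a ⟨h1, h2, h3, h4, h5⟩
      rw [dI_mkI x (sw a) ⟨h1, h3, h2, h5, h4⟩, sw_sw]
    · intro y hy w u
      have := hno y (not_not.1 hy) w u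
      refine ⟨fun h => this.1 ?_, fun h1 h => this.2 h1 ?_⟩
      · rw [← sw_sw (dI x y), h]; rfl
      · rw [← sw_sw (dI x y), h]; rfl
    · dsimp only; rw [dI_s]; rfl
    · dsimp only; rw [dI_t]; rfl
  let lab : Fin ((x.size + x.param + 5) ^ 5) → ℕ × ℕ := fun y => ((dI x y).2.1, (dI x y).2.2.1)
  let P := Finset.range x.param ×ˢ Finset.range x.param
  let S' := S.filter fun y => lab y ∈ P
  have hinj : Set.InjOn lab S' := by
    refine Finset.injOn_of_surjOn_of_card_le lab (t := P) ?_ ?_ ?_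
    · intro y hy
      exact (Finset.mem_filter.1 hy).2
    · rintro ⟨i, j⟩ hp
      have hp' : i < x.param ∧ j < x.param := by simpa [P] using hp
      obtain ⟨y, hy, u, w, h⟩ := hitB i hp'.1 (fun _ => j) (fun _ => hp'.2)
      have : lab y = (i, j) := by rcases h with h | ⟨-, h⟩ <;> simp [lab, h]
      exact ⟨y, Finset.mem_filter.2 ⟨hy, by rw [this]; exact hp⟩, this⟩
    · refine (Finset.card_filter_le _ _).trans (hcard.trans ?_)
      simp [reduce, P, pow_two]
  have uniq : ∀ y ∈ S, ∀ z ∈ S, ∀ i j, i < x.param → j < x.param → lab y = (i, j) → lab z = (i, j) →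
      y = z := by
    intro y hy z hz i j hi hj h1 h2
    refine hinj (Finset.mem_filter.2 ⟨hy, by rw [h1]; simp [P, hi, hj]⟩)
      (Finset.mem_filter.2 ⟨hz, by rw [h2]; simp [P, hi, hj]⟩) (by rw [h1, h2])
  have hx : ∀ i j, ∃ u w, i < x.param → j < x.param → cpI x i j u w ∧
      ∀ z ∈ S, lab z = (i, j) → dI x z = (4, i, j, u, w) := by
    intro i j
    by_cases hij : i < x.param ∧ j < x.param
    swap
    · exact ⟨0, 0, fun hi hj => absurd ⟨hi, hj⟩ hij⟩
    obtain ⟨hi, hj⟩ := hij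
    obtain ⟨y, hy, u, w, h⟩ := hitB i hi (fun _ => j) (fun _ => hj)
    obtain ⟨z, hz, w', u', h'⟩ := hitR j hj (fun _ => i) (fun _ => hi)
    have e1 : lab y = (i, j) := by rcases h with h | ⟨-, h⟩ <;> simp [lab, h]
    have e2 : lab z = (i, j) := by rcases h' with h | ⟨-, h⟩ <;> simp [lab, h]
    have e := uniq y hy z hz i j hi hj e1 e2
    subst e
    rcases h with h | h
    · rcases h' with h' | ⟨-, h'⟩ <;> rw [h] at h' <;> simp at h'
    · refine ⟨u, w, fun _ _ => ⟨h.1, fun z hz hl => ?_⟩⟩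
      rw [uniq z hz y hy i j hi hj hl e1, h.2]
  choose U W hUW using hx
  have consB : ∀ i j j', i < x.param → j < x.param → j' < x.param → U i j' ≤ U i j := by
    intro i j j' hi hj hj'
    by_contra hlt
    obtain ⟨y, hy, u, w, h⟩ := hitB i hi (fun u => if u ≤ U i j then j' else j)
      (fun u => by split_ifs <;> assumption)
    have e1 : lab y = (i, if u ≤ U i j then j' else j) := by
      rcases h with h | ⟨-, h⟩ <;> simp [lab, h]
    have e2 : (dI x y).2.2.2.1 = u := by rcases h with h | ⟨-, h⟩ <;> rw [h]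
    split_ifs at e1 with hu
    · rw [(hUW i j' hi hj').2 y hy e1] at e2
      dsimp only at e2; omega
    · rw [(hUW i j hi hj).2 y hy e1] at e2
      dsimp only at e2; omega
  have consR : ∀ j i i', j < x.param → i < x.param → i' < x.param → W i' j ≤ W i j := by
    intro j i i' hj hi hi'
    by_contra hlt
    obtain ⟨y, hy, w, u, h⟩ := hitR j hj (fun w => if w ≤ W i j then i' else i)
      (fun u => by split_ifs <;> assumption)
    have e1 : lab y = (if w ≤ W i j then i' else i, j) := by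
      rcases h with h | ⟨-, h⟩ <;> simp [lab, h]
    have e2 : (dI x y).2.2.2.2 = w := by rcases h with h | ⟨-, h⟩ <;> rw [h]
    split_ifs at e1 with hu
    · rw [(hUW i' j hi' hj).2 y hy e1] at e2
      dsimp only at e2; omega
    · rw [(hUW i j hi hj).2 y hy e1] at e2
      dsimp only at e2; omega
  have diag : ∀ i, i < x.param → W i i = U i i := by
    intro i hi
    obtain ⟨_, _, _, _, h | h⟩ := (cpI_iff _ _ _ _ _).1 (hUW i i hi hi).1
    · exact h.2.symm
    · exact absurd rfl h.1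
  let f : Fin x.param → Fin x.size := fun i => ⟨U i i, (cpI_lt _ _ _ _ _ (hUW i i i.2 i.2).1).2.2.1⟩
  have hadj : ∀ i j : Fin x.param, i ≠ j → x.graph.Adj (f i) (f j) := by
    intro i j hij
    obtain ⟨_, _, h1, h2, h | h⟩ := (cpI_iff _ _ _ _ _).1 (hUW i j i.2 j.2).1
    · exact absurd (Fin.ext h.1) hij
    · have e1 : U i j = U i i := le_antisymm (consB _ _ _ i.2 i.2 j.2) (consB _ _ _ i.2 j.2 i.2)
      have e2 : W i j = U j j := by
        rw [← diag j j.2]
        exact le_antisymm (consR _ _ _ j.2 j.2 i.2) (consR _ _ _ j.2 i.2 j.2)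
      convert h.2 using 1
      · exact Fin.ext e1.symm
      · exact Fin.ext e2.symm
  have finj : Function.Injective f := by
    intro i j h
    by_contra hij
    exact (hadj i j hij).ne h
  refine ⟨Finset.univ.image f, ?_, ?_⟩
  · intro a ha b hb hab
    obtain ⟨i, -, rfl⟩ := Finset.mem_image.1 ha
    obtain ⟨j, -, rfl⟩ := Finset.mem_image.1 hb
    exact hadj i j fun e => hab (by rw [e])
  · rw [Finset.card_image_of_injective _ finj]
    simp

end Pool.Agent.Lib.MP_959b39_lc
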